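import Mathlib

set_option autoImplicit false

open Set Filter Topology InnerProductSpace Laplacian
open scoped ContDiff

namespace Pool.Agent.Lib.MP_2166fc_an

/-- Euclidean space of dimension `n`. -/
abbrev Sp (n : ℕ) := EuclideanSpace ℝ (Fin n)

/-- Nonlinearities of type (S): smooth, strictly increasing and convex on `[0,1)`, equal to `1`
at `0`, and tending to `+∞` at `1` from the left. -/
structure TypeS (f : ℝ → ℝ) : Prop where
  smooth : ContDiffOn ℝ ∞ f (Ico 0 1)
  increasing : StrictMonoOn f (Ico 0 1)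
  convex : ConvexOn ℝ (Ico 0 1) f
  at_zero : f 0 = 1
  blowup : Tendsto f (𝓝[<] 1) atTop

/-- Bounded smooth domains: bounded, open, connected (nonempty), and near each boundary point the
domain is the strict sublevel set `{ρ < 0}` of a smooth function `ρ` with nonzero differential at
that boundary point. -/
structure SmoothBoundedDomain {n : ℕ} (Ω : Set (Sp n)) : Prop where
  isOpen : IsOpen Ω
  isConnected : IsConnected Ω
  isBounded : Bornology.IsBounded Ω
  smooth_boundary : ∀ x ∈ frontier Ω, ∃ ρ : Sp n → ℝ,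
    ContDiff ℝ ∞ ρ ∧ fderiv ℝ ρ x ≠ 0 ∧ ∀ᶠ y in 𝓝 x, (y ∈ Ω ↔ ρ y < 0)

/-- Classical solutions with values in `[0,1)` of
`-Δ u + c · ∇ u = lam * f u` in `Ω`, `u = 0` on the boundary of `Ω`. -/
structure IsSolution {n : ℕ} (Ω : Set (Sp n)) (c : Sp n → Sp n) (f : ℝ → ℝ) (lam : ℝ)
    (u : Sp n → ℝ) : Prop where
  regular : ContDiffOn ℝ 2 u Ω
  continuousOn : ContinuousOn u (closure Ω)
  range : ∀ x ∈ closure Ω, 0 ≤ u x ∧ u x < 1
  eq : ∀ x ∈ Ω, -(Δ u x) + inner ℝ (c x) (gradient u x) = lam * f (u x)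
  boundary : ∀ x ∈ frontier Ω, u x = 0

/-- The minimal solution at parameter `lam`: a solution lying below every other solution. -/
def IsMinimalSolution {n : ℕ} (Ω : Set (Sp n)) (c : Sp n → Sp n) (f : ℝ → ℝ) (lam : ℝ)
    (u : Sp n → ℝ) : Prop :=
  IsSolution Ω c f lam u ∧ ∀ v, IsSolution Ω c f lam v → ∀ x ∈ Ω, u x ≤ v x

/-- The branch of minimal solutions together with the critical parameter `lamStar` and the
extremal function `ustar`: minimal solutions `u lam` exist for `0 < lam < lamStar`, no solution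
exists for `lam > lamStar`, `u lam` increases with `lam`, and `ustar` is the pointwise limit of
`u lam` as `lam` increases to `lamStar`. -/
structure IsBranch {n : ℕ} (Ω : Set (Sp n)) (c : Sp n → Sp n) (f : ℝ → ℝ) (lamStar : ℝ)
    (u : ℝ → Sp n → ℝ) (ustar : Sp n → ℝ) : Prop where
  pos : 0 < lamStar
  minimal : ∀ lam, 0 < lam → lam < lamStar → IsMinimalSolution Ω c f lam (u lam)
  none_above : ∀ lam, lamStar < lam → ∀ v, ¬ IsSolution Ω c f lam v
  mono : ∀ lam mu, 0 < lam → lam ≤ mu → mu < lamStar → ∀ x ∈ Ω, u lam x ≤ u mu x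
  limit : ∀ x ∈ Ω, Tendsto (fun lam => u lam x) (𝓝[<] lamStar) (𝓝 (ustar x))

/-- `ustar` is the extremal solution of the problem with data `Ω`, `c`, `f`. -/
def IsExtremalSolution {n : ℕ} (Ω : Set (Sp n)) (c : Sp n → Sp n) (f : ℝ → ℝ)
    (ustar : Sp n → ℝ) : Prop :=
  ∃ (lamStar : ℝ) (u : ℝ → Sp n → ℝ), IsBranch Ω c f lamStar u ustar

/-- An extremal solution (for type (S)) is classical if its supremum over `Ω` is less than `1`;
otherwise it is singular. -/
def IsClassical {n : ℕ} (Ω : Set (Sp n)) (ustar : Sp n → ℝ) : Prop :=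
  ∃ C : ℝ, C < 1 ∧ ∀ x ∈ Ω, ustar x ≤ C

/-- `N` is the critical dimension of `f` (no advection): the extremal solution is classical on
every bounded smooth domain of dimension `n` with `2 ≤ n < N`, and it is singular on some bounded
smooth domain of dimension `N`. -/
def IsCriticalDimension (f : ℝ → ℝ) (N : ℕ) : Prop :=
  (∀ n : ℕ, 2 ≤ n → n < N → ∀ Ω : Set (Sp n), SmoothBoundedDomain Ω →
    ∀ ustar : Sp n → ℝ, IsExtremalSolution Ω 0 f ustar → IsClassical Ω ustar) ∧
  (∃ Ω : Set (Sp N), SmoothBoundedDomain Ω ∧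
    ∃ ustar : Sp N → ℝ, IsExtremalSolution Ω 0 f ustar ∧ ¬ IsClassical Ω ustar)

end Pool.Agent.Lib.MP_2166fc_an
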