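import Mathlib
import Pool.Agent.Lib.MP_2166fc_an.Defs

set_option autoImplicit false

open Set Filter Topology InnerProductSpace Laplacian
open scoped ContDiff

namespace Pool.Agent.Lib.MP_2166fc_an

section oneD

lemma second_deriv_nonneg_of_isLocalMin {h : ℝ → ℝ} {x : ℝ} (hc : ContinuousAt h x)
    (hmin : IsLocalMin h x) : 0 ≤ deriv (deriv h) x := by
  by_contra hneg
  push Not at hneg
  have hd : deriv h x = 0 := hmin.deriv_eq_zero
  have hmax : IsLocalMax h x := isLocalMax_of_deriv_deriv_neg hneg hd hc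
  have heq : h =ᶠ[𝓝 x] fun _ => h x := by
    filter_upwards [hmin, hmax] with y h1 h2
    exact le_antisymm h2 h1
  have h1 : deriv h =ᶠ[𝓝 x] deriv (fun _ : ℝ => h x) := heq.deriv
  have h2 : deriv (deriv h) x = deriv (deriv (fun _ : ℝ => h x)) x := h1.deriv_eq
  rw [h2] at hneg
  simp at hneg

end oneD

variable {n : ℕ}


/-- The elliptic operator `-Δ u + c · ∇ u`. -/
noncomputable def Lop (c : Sp n → Sp n) (u : Sp n → ℝ) (x : Sp n) : ℝ :=
  -(Δ u x) + fderiv ℝ u x (c x)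

lemma inner_gradient (c : Sp n) (u : Sp n → ℝ) (x : Sp n) :
    inner ℝ c (gradient u x) = fderiv ℝ u x c := by
  rw [real_inner_comm]
  simp [gradient]

lemma lap_eq (u : Sp n → ℝ) (x : Sp n) :
    Δ u x = ∑ i, fderiv ℝ (fderiv ℝ u) x (EuclideanSpace.basisFun (Fin n) ℝ i)
      (EuclideanSpace.basisFun (Fin n) ℝ i) := by
  have h := laplacian_eq_iteratedFDeriv_orthonormalBasis u (EuclideanSpace.basisFun (Fin n) ℝ)
  rw [h]
  simp [iteratedFDeriv_two_apply]

lemma deriv_line {u : Sp n → ℝ} {x v : Sp n} {t : ℝ} (h : DifferentiableAt ℝ u (x + t • v)) :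
    HasDerivAt (fun s : ℝ => u (x + s • v)) (fderiv ℝ u (x + t • v) v) t := by
  have h1 : HasDerivAt (fun s : ℝ => x + s • v) v t := by
    have := ((hasDerivAt_id t).smul_const v).const_add x
    simpa using this
  exact h.hasFDerivAt.comp_hasDerivAt t h1

lemma eventually_differentiableAt {u : Sp n → ℝ} {x : Sp n} (h : ContDiffAt ℝ 2 u x) :
    ∀ᶠ y in 𝓝 x, DifferentiableAt ℝ u y := by
  filter_upwards [h.eventually (by simp)] with y hy
  exact hy.differentiableAt (by norm_num)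

lemma fderiv_differentiableAt {u : Sp n → ℝ} {x : Sp n} (h : ContDiffAt ℝ 2 u x) :
    DifferentiableAt ℝ (fderiv ℝ u) x :=
  (h.fderiv_right (m := 1) (by norm_num)).differentiableAt (by norm_num)

lemma deriv_deriv_line {u : Sp n → ℝ} {x v : Sp n} (h : ContDiffAt ℝ 2 u x) :
    deriv (deriv (fun s : ℝ => u (x + s • v))) 0 = fderiv ℝ (fderiv ℝ u) x v v := by
  have hline : Tendsto (fun s : ℝ => x + s • v) (𝓝 0) (𝓝 x) := by
    have : Continuous (fun s : ℝ => x + s • v) := by fun_prop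
    simpa using this.tendsto 0
  have h1 : deriv (fun s : ℝ => u (x + s • v)) =ᶠ[𝓝 0] fun t => fderiv ℝ u (x + t • v) v := by
    filter_upwards [hline.eventually (eventually_differentiableAt h)] with t ht
    exact (deriv_line ht).deriv
  rw [h1.deriv_eq]
  have h2 : HasDerivAt (fun s : ℝ => x + s • v) v 0 := by
    have := ((hasDerivAt_id (0:ℝ)).smul_const v).const_add x
    simpa using this
  have h3 : HasFDerivAt (fderiv ℝ u) (fderiv ℝ (fderiv ℝ u) x) (x + (0:ℝ) • v) := by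
    simpa using (fderiv_differentiableAt h).hasFDerivAt
  have h4 := h3.comp_hasDerivAt (0:ℝ) h2
  have h5 : HasDerivAt (fun t : ℝ => fderiv ℝ u (x + t • v) v)
      (fderiv ℝ (fderiv ℝ u) x v v) 0 := by
    have := h4.clm_apply (hasDerivAt_const (0:ℝ) v)
    simpa using this
  exact h5.deriv

lemma hess_nonneg_of_isLocalMin {u : Sp n → ℝ} {x : Sp n} (h : ContDiffAt ℝ 2 u x)
    (hmin : IsLocalMin u x) (v : Sp n) : 0 ≤ fderiv ℝ (fderiv ℝ u) x v v := by
  rw [← deriv_deriv_line h]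
  apply second_deriv_nonneg_of_isLocalMin
  · have h1 : ContinuousAt u (x + (0:ℝ) • v) := by simpa using h.continuousAt
    exact ContinuousAt.comp (g := u) (f := fun s : ℝ => x + s • v) h1 (by fun_prop)
  · have hline : Tendsto (fun s : ℝ => x + s • v) (𝓝 0) (𝓝 x) := by
      have : Continuous (fun s : ℝ => x + s • v) := by fun_prop
      simpa using this.tendsto 0
    have := hline.eventually hmin
    filter_upwards [this] with t ht
    simpa using ht

lemma lap_nonneg_of_isLocalMin {u : Sp n → ℝ} {x : Sp n} (h : ContDiffAt ℝ 2 u x)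
    (hmin : IsLocalMin u x) : 0 ≤ Δ u x := by
  rw [lap_eq]
  exact Finset.sum_nonneg fun i _ => hess_nonneg_of_isLocalMin h hmin _

lemma Lop_nonpos_of_isLocalMin {c : Sp n → Sp n} {u : Sp n → ℝ} {x : Sp n}
    (h : ContDiffAt ℝ 2 u x) (hmin : IsLocalMin u x) : Lop c u x ≤ 0 := by
  unfold Lop
  rw [hmin.fderiv_eq_zero]
  have := lap_nonneg_of_isLocalMin h hmin
  simp; exact this

lemma Lop_add {c : Sp n → Sp n} {u v : Sp n → ℝ} {x : Sp n}
    (hu : ContDiffAt ℝ 2 u x) (hv : ContDiffAt ℝ 2 v x) :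
    Lop c (fun y => u y + v y) x = Lop c u x + Lop c v x := by
  unfold Lop
  have h1 : Δ (fun y => u y + v y) x = Δ u x + Δ v x := hu.laplacian_add hv
  have h2 : fderiv ℝ (fun y => u y + v y) x = fderiv ℝ u x + fderiv ℝ v x :=
    fderiv_add (hu.differentiableAt (by norm_num)) (hv.differentiableAt (by norm_num))
  rw [h1, h2]
  simp; ring

lemma Lop_const_mul {c : Sp n → Sp n} {u : Sp n → ℝ} {x : Sp n} (a : ℝ)
    (hu : ContDiffAt ℝ 2 u x) :
    Lop c (fun y => a * u y) x = a * Lop c u x := by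
  unfold Lop
  have h1 : Δ (fun y => a * u y) x = a * Δ u x := by
    have := laplacian_smul (𝕜 := ℝ) a hu
    simpa [Pi.smul_def] using this
  have h2 : fderiv ℝ (fun y => a * u y) x = a • fderiv ℝ u x :=
    fderiv_const_mul (hu.differentiableAt (by norm_num)) a
  rw [h1, h2]
  simp; ring

lemma Lop_sub {c : Sp n → Sp n} {u v : Sp n → ℝ} {x : Sp n}
    (hu : ContDiffAt ℝ 2 u x) (hv : ContDiffAt ℝ 2 v x) :
    Lop c (fun y => u y - v y) x = Lop c u x - Lop c v x := by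
  have h := Lop_add (c := c) hu (ContDiffAt.mul contDiffAt_const hv :
    ContDiffAt ℝ 2 (fun y => (-1 : ℝ) * v y) x)
  rw [Lop_const_mul (-1) hv] at h
  have h3 : (fun y => u y - v y) = fun y => u y + (-1 : ℝ) * v y := by
    ext y; ring
  rw [h3, h]; ring

/-- Maximum principle with a positive strict supersolution `ψ`. -/
theorem maxprinciple {Ω : Set (Sp n)} (hΩ : IsOpen Ω) (hb : Bornology.IsBounded Ω)
    (c : Sp n → Sp n) (V : Sp n → ℝ) {w ψ : Sp n → ℝ}
    (hw : ContDiffOn ℝ 2 w Ω) (hwc : ContinuousOn w (closure Ω))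
    (hψ : ContDiffOn ℝ 2 ψ Ω) (hψc : ContinuousOn ψ (closure Ω))
    (hψpos : ∀ x ∈ closure Ω, 0 < ψ x)
    (hwL : ∀ x ∈ Ω, w x < 0 → V x * w x ≤ Lop c w x)
    (hψL : ∀ x ∈ Ω, V x * ψ x < Lop c ψ x)
    (hbd : ∀ x ∈ frontier Ω, 0 ≤ w x) : ∀ x ∈ closure Ω, 0 ≤ w x := by
  intro x₀ hx₀
  by_contra hneg
  push Not at hneg
  have hcomp : IsCompact (closure Ω) := hb.isCompact_closure
  have hqc : ContinuousOn (fun x => w x / ψ x) (closure Ω) :=
    hwc.div hψc fun x hx => (hψpos x hx).ne'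
  obtain ⟨x₁, hx₁, hmin⟩ := hcomp.exists_isMinOn ⟨x₀, hx₀⟩ hqc
  set m := w x₁ / ψ x₁ with hm
  have hmneg : m < 0 := lt_of_le_of_lt (hmin hx₀) (div_neg_of_neg_of_pos hneg (hψpos x₀ hx₀))
  have hwx₁ : w x₁ = m * ψ x₁ := by
    rw [hm]; field_simp [(hψpos x₁ hx₁).ne']
  have hwneg : w x₁ < 0 := by
    rw [hwx₁]; exact mul_neg_of_neg_of_pos hmneg (hψpos x₁ hx₁)
  have hx₁Ω : x₁ ∈ Ω := by
    by_contra hnot
    have : x₁ ∈ frontier Ω := by
      rw [frontier, hΩ.interior_eq]; exact ⟨hx₁, hnot⟩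
    exact absurd (hbd x₁ this) (not_le.mpr hwneg)
  have hwat : ContDiffAt ℝ 2 w x₁ := hw.contDiffAt (hΩ.mem_nhds hx₁Ω)
  have hψat : ContDiffAt ℝ 2 ψ x₁ := hψ.contDiffAt (hΩ.mem_nhds hx₁Ω)
  have hlocal : IsLocalMin (fun y => w y - m * ψ y) x₁ := by
    filter_upwards [hΩ.mem_nhds hx₁Ω] with y hy
    have hy' := subset_closure hy
    have h1 : m ≤ w y / ψ y := hmin hy'
    have h2 : m * ψ y ≤ w y := (le_div_iff₀ (hψpos y hy')).mp h1
    rw [hwx₁]; simp; exact h2
  have hLm := Lop_nonpos_of_isLocalMin (c := c)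
    (hwat.sub (ContDiffAt.mul contDiffAt_const hψat)) hlocal
  have e1 : Lop c (fun y => w y - m * ψ y) x₁ = Lop c w x₁ - m * Lop c ψ x₁ := by
    rw [Lop_sub hwat (ContDiffAt.mul contDiffAt_const hψat), Lop_const_mul m hψat]
  rw [e1] at hLm
  have h3 := hwL x₁ hx₁Ω hwneg
  have h4 := hψL x₁ hx₁Ω
  have h5 : m * Lop c ψ x₁ < m * (V x₁ * ψ x₁) := mul_lt_mul_of_neg_left h4 hmneg
  rw [hwx₁] at h3
  nlinarith

end Pool.Agent.Lib.MP_2166fc_an
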