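import Mathlib
import Pool.Agent.Lib.MP_2166fc_an.Defs

set_option autoImplicit false

open Set Filter Topology
open scoped ContDiff

namespace Pool.Agent.Lib.MP_2166fc_an

/-- The nonlinearity `f_M(t) = 1 - M (log (1 - t) + t)`. -/
noncomputable def fM (M t : ℝ) : ℝ := 1 - M * (Real.log (1 - t) + t)

/-- The profile `f_0(t) = -log (1 - t) - t`. -/
noncomputable def f0 (t : ℝ) : ℝ := -Real.log (1 - t) - t

lemma fM_eq (M t : ℝ) : fM M t = 1 + M * f0 t := by unfold fM f0; ring

lemma hasDerivAt_f0 {t : ℝ} (ht : t < 1) : HasDerivAt f0 (t / (1 - t)) t := by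
  have h1 : HasDerivAt (fun s : ℝ => 1 - s) (-1) t := by
    simpa using (hasDerivAt_id t).const_sub 1
  have h2 := (h1.log (by linarith : (1 - t) ≠ 0)).neg.sub (hasDerivAt_id t)
  have h3 : -(-1 / (1 - t)) - 1 = t / (1 - t) := by
    field_simp [(by linarith : (1 - t) ≠ 0)]; ring
  rw [h3] at h2
  exact h2

lemma hasDerivAt_fM {M t : ℝ} (ht : t < 1) : HasDerivAt (fM M) (M * (t / (1 - t))) t := by
  have h := ((hasDerivAt_f0 ht).const_mul M).const_add 1
  have : fM M = fun x => 1 + M * f0 x := by ext x; exact fM_eq M x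
  rw [this]; exact h

lemma f0_zero : f0 0 = 0 := by simp [f0]

lemma fM_zero (M : ℝ) : fM M 0 = 1 := by simp [fM]

/-- Tangent line inequality for `f0`. -/
lemma f0_tangent {a b : ℝ} (ha : a < 1) (hb : b < 1) :
    f0 a + a / (1 - a) * (b - a) ≤ f0 b := by
  have ha' : 0 < 1 - a := by linarith
  have hb' : 0 < 1 - b := by linarith
  have h := Real.log_le_sub_one_of_pos (div_pos hb' ha')
  rw [Real.log_div hb'.ne' ha'.ne'] at h
  unfold f0
  have e : a / (1 - a) * (b - a) = -((1 - b) / (1 - a) - 1) - (b - a) := by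
    field_simp; ring
  rw [e]; linarith

lemma fM_tangent {M a b : ℝ} (hM : 0 ≤ M) (ha : a < 1) (hb : b < 1) :
    fM M a + M * (a / (1 - a)) * (b - a) ≤ fM M b := by
  rw [fM_eq, fM_eq]
  have := mul_le_mul_of_nonneg_left (f0_tangent ha hb) hM
  nlinarith

lemma f0_nonneg {t : ℝ} (ht : t < 1) : 0 ≤ f0 t := by
  have := f0_tangent (a := 0) (b := t) (by norm_num) ht
  simpa [f0_zero] using this

lemma fM_ge_one {M t : ℝ} (hM : 0 ≤ M) (ht : t < 1) : 1 ≤ fM M t := by
  rw [fM_eq]; nlinarith [f0_nonneg ht, mul_nonneg hM (f0_nonneg ht)]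

lemma f0_mono {a b : ℝ} (ha : 0 ≤ a) (hab : a ≤ b) (hb : b < 1) : f0 a ≤ f0 b := by
  have h := f0_tangent (lt_of_le_of_lt hab hb) hb (a := a)
  have h2 : 0 ≤ a / (1 - a) * (b - a) :=
    mul_nonneg (div_nonneg ha (by linarith)) (by linarith)
  linarith

lemma fM_mono {M a b : ℝ} (hM : 0 ≤ M) (ha : 0 ≤ a) (hab : a ≤ b) (hb : b < 1) :
    fM M a ≤ fM M b := by
  rw [fM_eq, fM_eq]
  have := mul_le_mul_of_nonneg_left (f0_mono ha hab hb) hM
  linarith

lemma f0_strictMonoOn : StrictMonoOn f0 (Ico 0 1) := by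
  intro a ha b hb hab
  have h := f0_tangent (a := (a+b)/2) (b := b) (by linarith [hb.2]) hb.2
  have h' := f0_mono ha.1 (by linarith : a ≤ (a+b)/2) (by linarith [hb.2])
  have h2 : 0 < (a+b)/2 / (1 - (a+b)/2) * (b - (a+b)/2) := by
    apply mul_pos
    · apply div_pos <;> linarith [ha.1, hb.2]
    · linarith
  linarith

lemma contDiffOn_f0 : ContDiffOn ℝ ∞ f0 (Iio 1) := by
  unfold f0
  apply ContDiffOn.sub
  · apply ContDiffOn.neg
    apply ContDiffOn.log
    · exact contDiffOn_const.sub contDiffOn_id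
    · intro x hx; have : x < 1 := hx; linarith
  · exact contDiffOn_id

lemma typeS_fM {M : ℝ} (hM : 0 < M) : TypeS (fM M) where
  smooth := by
    have : fM M = fun x => 1 + M * f0 x := by ext x; exact fM_eq M x
    rw [this]
    have h := contDiffOn_f0.mono (fun x (hx : x ∈ Ico (0:ℝ) 1) => (hx.2 : x ∈ Iio (1:ℝ)))
    exact contDiffOn_const.add (contDiffOn_const.mul h)
  increasing := by
    intro a ha b hb hab
    rw [fM_eq, fM_eq]
    have := mul_lt_mul_of_pos_left (f0_strictMonoOn ha hb hab) hM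
    linarith
  convex := by
    refine ⟨convex_Ico 0 1, ?_⟩
    intro x hx y hy a b ha hb hab
    have hz : a • x + b • y ∈ Ico (0:ℝ) 1 := convex_Ico 0 1 hx hy ha hb hab
    simp only [smul_eq_mul] at hz ⊢
    set z := a * x + b * y with hzdef
    have h1 := fM_tangent hM.le hz.2 hx.2 (M := M)
    have h2 := fM_tangent hM.le hz.2 hy.2 (M := M)
    have h3 : a * (x - z) + b * (y - z) = 0 := by
      rw [hzdef]
      have : b = 1 - a := by linarith
      subst this; ring
    have h4 := mul_le_mul_of_nonneg_left h1 ha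
    have h5 := mul_le_mul_of_nonneg_left h2 hb
    have h6 : a * (fM M z + M * (z / (1 - z)) * (x - z)) + b * (fM M z + M * (z / (1 - z)) * (y - z))
        = (a + b) * fM M z + M * (z / (1 - z)) * (a * (x - z) + b * (y - z)) := by ring
    rw [h3, hab] at h6
    linarith
  at_zero := fM_zero M
  blowup := by
    have h1 : Tendsto (fun t : ℝ => 1 - t) (𝓝[<] 1) (𝓝[>] 0) := by
      rw [tendsto_nhdsWithin_iff]
      constructor
      · have : Continuous (fun t : ℝ => 1 - t) := by fun_prop
        have h := this.tendsto 1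
        simp only [sub_self] at h
        exact h.mono_left nhdsWithin_le_nhds
      · filter_upwards [self_mem_nhdsWithin] with t ht
        have : t < 1 := ht
        simp; exact this
    have h2 : Tendsto (fun t : ℝ => Real.log (1 - t)) (𝓝[<] 1) atBot :=
      Real.tendsto_log_nhdsGT_zero.comp h1
    have h3 : Tendsto (fun t : ℝ => Real.log (1 - t) + t) (𝓝[<] 1) atBot := by
      apply Filter.Tendsto.atBot_add (C := 1) h2
      exact (continuous_id.tendsto (1:ℝ)).mono_left nhdsWithin_le_nhds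
    have h4 : Tendsto (fun t : ℝ => M * (Real.log (1 - t) + t)) (𝓝[<] 1) atBot :=
      h3.const_mul_atBot hM
    have h5 : Tendsto (fun t : ℝ => 1 + -(M * (Real.log (1 - t) + t))) (𝓝[<] 1) atTop :=
      tendsto_atTop_add_const_left _ _ (tendsto_neg_atBot_atTop.comp h4)
    refine h5.congr fun t => ?_
    unfold fM; ring

end Pool.Agent.Lib.MP_2166fc_an
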