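import Mathlib
import Pool.Agent.Lib.MP_2166fc_an.Defs
import Pool.Agent.Lib.MP_2166fc_an.Calc
import Pool.Agent.Lib.MP_2166fc_an.FM

set_option autoImplicit false

open Set Filter Topology InnerProductSpace Laplacian
open scoped ContDiff

namespace Pool.Agent.Lib.MP_2166fc_an

variable {n : ℕ} {Ω : Set (Sp n)}

lemma IsSolution.lop {c : Sp n → Sp n} {f : ℝ → ℝ} {lam : ℝ} {u : Sp n → ℝ}
    (h : IsSolution Ω c f lam u) {x : Sp n} (hx : x ∈ Ω) : Lop c u x = lam * f (u x) := by
  have := h.eq x hx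
  rw [inner_gradient] at this
  exact this

lemma mem_or_frontier (hΩ : IsOpen Ω) {x : Sp n} (hx : x ∈ closure Ω) :
    x ∈ Ω ∨ x ∈ frontier Ω := by
  by_cases h : x ∈ Ω
  · exact Or.inl h
  · right; rw [frontier, hΩ.interior_eq]; exact ⟨hx, h⟩

lemma IsSolution.exists_bound {c : Sp n → Sp n} {f : ℝ → ℝ} {lam : ℝ} {u : Sp n → ℝ}
    (h : IsSolution Ω c f lam u) (hb : Bornology.IsBounded Ω) :
    ∃ C : ℝ, 0 ≤ C ∧ C < 1 ∧ ∀ x ∈ closure Ω, u x ≤ C := by
  rcases (closure Ω).eq_empty_or_nonempty with he | hne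
  · exact ⟨0, le_rfl, by norm_num, by simp [he]⟩
  · obtain ⟨x, hx, hmax⟩ := hb.isCompact_closure.exists_isMaxOn hne h.continuousOn
    exact ⟨u x, (h.range x hx).1, (h.range x hx).2, fun y hy => hmax hy⟩

section

variable {M lamStar : ℝ} {u : ℝ → Sp n → ℝ} {ustar : Sp n → ℝ}

/-- On the branch, the difference `z = u mu - u lam` is nonnegative and satisfies the linearized
inequality. -/
lemma branch_diff_nonneg (hΩ : IsOpen Ω)
    (hbr : IsBranch Ω 0 (fM M) lamStar u ustar) {lam mu : ℝ} (h0 : 0 < lam) (h1 : lam ≤ mu)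
    (h2 : mu < lamStar) {x : Sp n} (hx : x ∈ closure Ω) : u lam x ≤ u mu x := by
  rcases mem_or_frontier hΩ hx with h | h
  · exact hbr.mono lam mu h0 h1 h2 x h
  · rw [(hbr.minimal lam h0 (lt_of_le_of_lt h1 h2)).1.boundary x h,
      (hbr.minimal mu (lt_of_lt_of_le h0 h1) h2).1.boundary x h]

lemma branch_diff_lop (hΩ : IsOpen Ω) (hM : 0 ≤ M)
    (hbr : IsBranch Ω 0 (fM M) lamStar u ustar) {lam mu : ℝ} (h0 : 0 < lam) (h1 : lam < mu)
    (h2 : mu < lamStar) {x : Sp n} (hx : x ∈ Ω) :
    lam * (M * (u lam x / (1 - u lam x))) * (u mu x - u lam x) + (mu - lam) ≤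
      Lop 0 (fun y => u mu y - u lam y) x := by
  have s1 := (hbr.minimal lam h0 (h1.trans h2)).1
  have s2 := (hbr.minimal mu (h0.trans h1) h2).1
  rw [Lop_sub (s2.regular.contDiffAt (hΩ.mem_nhds hx)) (s1.regular.contDiffAt (hΩ.mem_nhds hx)),
    s1.lop hx, s2.lop hx]
  have hx' := subset_closure hx
  have t := fM_tangent hM (s1.range x hx').2 (s2.range x hx').2 (M := M)
  have t1 := fM_ge_one hM (s2.range x hx').2 (M := M)
  have t2 := mul_le_mul_of_nonneg_left t h0.le
  nlinarith

theorem comparison (hΩ : IsOpen Ω) (hb : Bornology.IsBounded Ω) (hM : 0 ≤ M)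
    (hbr : IsBranch Ω 0 (fM M) lamStar u ustar) {lam : ℝ} (h0 : 0 < lam)
    (h2 : lam < lamStar) {v : Sp n → ℝ} (hv : ContDiffOn ℝ 2 v Ω)
    (hvc : ContinuousOn v (closure Ω)) (hv1 : ∀ x ∈ Ω, v x < 1)
    (hvb : ∀ x ∈ frontier Ω, 0 ≤ v x)
    (hvs : ∀ x ∈ Ω, lam * fM M (v x) ≤ Lop 0 v x) : ∀ x ∈ closure Ω, u lam x ≤ v x := by
  obtain ⟨mu, hmu1, hmu2⟩ := exists_between h2
  have s1 := (hbr.minimal lam h0 h2).1
  have s2 := (hbr.minimal mu (h0.trans hmu1) hmu2).1
  obtain ⟨C, hC0, hC1, hC⟩ := s1.exists_bound hb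
  set V0 := lam * (M * (C / (1 - C))) with hV0
  have hV0nn : 0 ≤ V0 := by
    apply mul_nonneg h0.le (mul_nonneg hM (div_nonneg hC0 (by linarith)))
  set th := (mu - lam) / (2 * (V0 + 1)) with hth
  have hthpos : 0 < th := div_pos (by linarith) (by linarith)
  have key := maxprinciple hΩ hb (0 : Sp n → Sp n)
    (fun x => lam * (M * (u lam x / (1 - u lam x))))
    (w := fun x => v x - u lam x) (ψ := fun x => (u mu x - u lam x) + th)
    (hv.sub s1.regular) (hvc.sub s1.continuousOn)
    ((s2.regular.sub s1.regular).add contDiffOn_const)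
    ((s2.continuousOn.sub s1.continuousOn).add continuousOn_const)
    (fun x hx => by
      have := branch_diff_nonneg hΩ hbr h0 hmu1.le hmu2 hx
      linarith)
    (fun x hx _ => by
      rw [Lop_sub (hv.contDiffAt (hΩ.mem_nhds hx)) (s1.regular.contDiffAt (hΩ.mem_nhds hx)),
        s1.lop hx]
      have t := fM_tangent hM (s1.range x (subset_closure hx)).2 (hv1 x hx) (M := M)
      have t2 := mul_le_mul_of_nonneg_left t h0.le
      have t3 := hvs x hx
      nlinarith)
    (fun x hx => by
      have e : Lop 0 (fun y => (u mu y - u lam y) + th) x = Lop 0 (fun y => u mu y - u lam y) x := by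
        rw [Lop_add ((s2.regular.contDiffAt (hΩ.mem_nhds hx)).sub
          (s1.regular.contDiffAt (hΩ.mem_nhds hx))) contDiffAt_const]
        have : Lop (0 : Sp n → Sp n) (fun _ : Sp n => th) x = 0 := by
          simp [Lop]
        rw [this, add_zero]
      rw [e]
      have t := branch_diff_lop hΩ hM hbr h0 hmu1 hmu2 hx
      have hx' := subset_closure hx
      have hu0 := (s1.range x hx').1
      have hu1 := (s1.range x hx').2
      have hVle : lam * (M * (u lam x / (1 - u lam x))) ≤ V0 := by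
        apply mul_le_mul_of_nonneg_left _ h0.le
        apply mul_le_mul_of_nonneg_left _ hM
        apply div_le_div₀ hC0 (hC x hx') (by linarith)
        have := hC x hx'; linarith
      have hlt : V0 * th < mu - lam := by
        rw [hth, mul_div_assoc', div_lt_iff₀ (by linarith)]
        nlinarith
      have h5 := mul_le_mul_of_nonneg_right hVle hthpos.le
      have h6 : lam * (M * (u lam x / (1 - u lam x))) * ((u mu x - u lam x) + th)
        = lam * (M * (u lam x / (1 - u lam x))) * (u mu x - u lam x)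
          + lam * (M * (u lam x / (1 - u lam x))) * th := by ring
      show lam * (M * (u lam x / (1 - u lam x))) * ((u mu x - u lam x) + th) < _
      rw [h6]
      linarith)
    (fun x hx => by
      rw [s1.boundary x hx, sub_zero]; exact hvb x hx)
  intro x hx
  have := key x hx
  linarith

lemma branch_diff_pos (hΩ : IsOpen Ω) (hM : 0 ≤ M)
    (hbr : IsBranch Ω 0 (fM M) lamStar u ustar) {lam mu : ℝ} (h0 : 0 < lam) (h1 : lam < mu)
    (h2 : mu < lamStar) {x : Sp n} (hx : x ∈ Ω) : 0 < u mu x - u lam x := by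
  have hnn : ∀ y ∈ Ω, 0 ≤ u mu y - u lam y := fun y hy => by
    have := branch_diff_nonneg hΩ hbr h0 h1.le h2 (subset_closure hy); linarith
  rcases (hnn x hx).lt_or_eq with h | h
  · exact h
  · exfalso
    have hloc : IsLocalMin (fun y => u mu y - u lam y) x := by
      filter_upwards [hΩ.mem_nhds hx] with y hy
      rw [← h]; exact hnn y hy
    have s1 := (hbr.minimal lam h0 (h1.trans h2)).1
    have s2 := (hbr.minimal mu (h0.trans h1) h2).1
    have k1 := Lop_nonpos_of_isLocalMin (c := (0 : Sp n → Sp n))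
      ((s2.regular.contDiffAt (hΩ.mem_nhds hx)).sub
        (s1.regular.contDiffAt (hΩ.mem_nhds hx))) hloc
    have k2 := branch_diff_lop hΩ hM hbr h0 h1 h2 hx
    rw [← h] at k2
    simp only [mul_zero, zero_add] at k2
    linarith

/-- Convexity of the branch in the parameter. -/
lemma branch_convex (hΩ : IsOpen Ω) (hb : Bornology.IsBounded Ω) (hM : 0 < M)
    (hbr : IsBranch Ω 0 (fM M) lamStar u ustar) {a b s t : ℝ} (ha : 0 < a) (hab : a ≤ b)
    (hb2 : b < lamStar) (hs : 0 ≤ s) (ht : 0 ≤ t) (hst : s + t = 1) {x : Sp n}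
    (hx : x ∈ closure Ω) : u (s * a + t * b) x ≤ s * u a x + t * u b x := by
  have sa := (hbr.minimal a ha (lt_of_le_of_lt hab hb2)).1
  have sb := (hbr.minimal b (lt_of_lt_of_le ha hab) hb2).1
  have hm0 : 0 < s * a + t * b := by
    have : s = 1 - t := by linarith
    subst this; nlinarith
  have hm1 : s * a + t * b < lamStar := by
    have : s = 1 - t := by linarith
    subst this; nlinarith
  refine comparison hΩ hb hM.le hbr hm0 hm1 (v := fun y => s * u a y + t * u b y)
    ((contDiffOn_const.mul sa.regular).add (contDiffOn_const.mul sb.regular))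
    ((continuousOn_const.mul sa.continuousOn).add (continuousOn_const.mul sb.continuousOn))
    ?_ ?_ ?_ x hx
  · intro y hy
    have h1 := (sa.range y (subset_closure hy)).2
    have h2 := (sb.range y (subset_closure hy)).2
    have : s = 1 - t := by linarith
    subst this
    rcases ht.lt_or_eq with h | h
    · nlinarith
    · subst h; simpa using h1
  · intro y hy
    simp [sa.boundary y hy, sb.boundary y hy]
  · intro y hy
    have ca := sa.regular.contDiffAt (hΩ.mem_nhds hy)
    have cb := sb.regular.contDiffAt (hΩ.mem_nhds hy)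
    have e : Lop 0 (fun y => s * u a y + t * u b y) y
        = s * (a * fM M (u a y)) + t * (b * fM M (u b y)) := by
      rw [Lop_add (ContDiffAt.mul contDiffAt_const ca) (ContDiffAt.mul contDiffAt_const cb),
        Lop_const_mul s ca, Lop_const_mul t cb, sa.lop hy, sb.lop hy]
    rw [e]
    have hy' := subset_closure hy
    have hconv := (typeS_fM hM).convex.2 (sa.range y hy') (sb.range y hy') hs ht hst
    simp only [smul_eq_mul] at hconv
    have hmono : fM M (u a y) ≤ fM M (u b y) :=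
      fM_mono hM.le (sa.range y hy').1 (branch_diff_nonneg hΩ hbr ha hab hb2 hy') (sb.range y hy').2
    have h1 := mul_le_mul_of_nonneg_left hconv hm0.le
    have h2 : 0 ≤ s * t * (b - a) * (fM M (u b y) - fM M (u a y)) :=
      mul_nonneg (mul_nonneg (mul_nonneg hs ht) (by linarith)) (by linarith)
    have h3 : s = 1 - t := by linarith
    have h4 : s * (a * fM M (u a y)) + t * (b * fM M (u b y))
        - (s * a + t * b) * (s * fM M (u a y) + t * fM M (u b y))
        = s * t * (b - a) * (fM M (u b y) - fM M (u a y)) := by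
      subst h3; ring
    linarith

lemma branch_scale (hΩ : IsOpen Ω) (hb : Bornology.IsBounded Ω) (hM : 0 < M)
    (hbr : IsBranch Ω 0 (fM M) lamStar u ustar) {a b : ℝ} (ha : 0 < a) (hab : a ≤ b)
    (hb2 : b < lamStar) {x : Sp n} (hx : x ∈ closure Ω) : u a x ≤ a / b * u b x := by
  have hb0 := lt_of_lt_of_le ha hab
  have sb := (hbr.minimal b hb0 hb2).1
  have hle : a / b ≤ 1 := (div_le_one hb0).mpr hab
  have hpos : 0 < a / b := div_pos ha hb0
  refine comparison hΩ hb hM.le hbr ha (lt_of_le_of_lt hab hb2) (v := fun y => a / b * u b y)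
    (contDiffOn_const.mul sb.regular) (continuousOn_const.mul sb.continuousOn) ?_ ?_ ?_ x hx
  · intro y hy
    have h1 := (sb.range y (subset_closure hy)).1
    have h2 := (sb.range y (subset_closure hy)).2
    nlinarith
  · intro y hy
    simp [sb.boundary y hy]
  · intro y hy
    have cb := sb.regular.contDiffAt (hΩ.mem_nhds hy)
    rw [Lop_const_mul _ cb, sb.lop hy]
    have hy' := subset_closure hy
    have h1 := (sb.range y hy').1
    have h2 := (sb.range y hy').2
    have h3 : fM M (a / b * u b y) ≤ fM M (u b y) :=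
      fM_mono hM.le (mul_nonneg hpos.le h1) (by nlinarith) h2
    have h4 : a / b * (b * fM M (u b y)) = a * fM M (u b y) := by
      field_simp
    rw [h4]
    exact mul_le_mul_of_nonneg_left h3 ha.le

/-- If the branch reaches the level `1/2`, some member has maximum exactly `1/2`. -/
theorem exists_max_half (hΩ : IsOpen Ω) (hb : Bornology.IsBounded Ω) (hM : 0 < M)
    (hbr : IsBranch Ω 0 (fM M) lamStar u ustar) {lam0 : ℝ} (h0 : 0 < lam0) (h1 : lam0 < lamStar)
    {x : Sp n} (hx : x ∈ Ω) (hge : 1 / 2 ≤ u lam0 x) :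
    ∃ lam1, 0 < lam1 ∧ lam1 < lamStar ∧ ∃ x0 ∈ Ω, u lam1 x0 = 1 / 2 ∧
      ∀ y ∈ closure Ω, u lam1 y ≤ 1 / 2 := by
  have hne : (closure Ω).Nonempty := ⟨x, subset_closure hx⟩
  have hsol : ∀ l, 0 < l → l < lamStar → IsSolution Ω 0 (fM M) l (u l) :=
    fun l hl hl2 => (hbr.minimal l hl hl2).1
  set S : ℝ → ℝ := fun l => sSup (u l '' closure Ω) with hS
  have hbdd : ∀ l, 0 < l → l < lamStar → BddAbove (u l '' closure Ω) := by
    intro l hl hl2
    refine ⟨1, ?_⟩
    rintro _ ⟨y, hy, rfl⟩
    exact ((hsol l hl hl2).range y hy).2.le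
  have hle : ∀ l, 0 < l → l < lamStar → ∀ y ∈ closure Ω, u l y ≤ S l := fun l hl hl2 y hy =>
    le_csSup (hbdd l hl hl2) ⟨y, hy, rfl⟩
  have hSle : ∀ l B, (∀ y ∈ closure Ω, u l y ≤ B) → S l ≤ B := fun l B hB =>
    csSup_le (hne.image _) (by rintro _ ⟨y, hy, rfl⟩; exact hB y hy)
  have hconv : ConvexOn ℝ (Ioo 0 lamStar) S := by
    refine ⟨convex_Ioo 0 lamStar, ?_⟩
    have key : ∀ a b s t : ℝ, 0 < a → a ≤ b → b < lamStar → 0 ≤ s → 0 ≤ t → s + t = 1 →
        S (s * a + t * b) ≤ s * S a + t * S b := by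
      intro a b s t ha hab hb2 hs ht hst
      apply hSle
      intro y hy
      have k := branch_convex hΩ hb hM hbr ha hab hb2 hs ht hst hy
      have k1 := mul_le_mul_of_nonneg_left (hle a ha (lt_of_le_of_lt hab hb2) y hy) hs
      have k2 := mul_le_mul_of_nonneg_left (hle b (lt_of_lt_of_le ha hab) hb2 y hy) ht
      linarith
    intro a ha b hb' s t hs ht hst
    simp only [smul_eq_mul]
    rcases le_total a b with hab | hab
    · exact key a b s t ha.1 hab hb'.2 hs ht hst
    · have := key b a t s hb'.1 hab ha.2 ht hs (by linarith)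
      rw [add_comm (s * a), add_comm (s * S a)]
      exact this
  have hcont : ContinuousOn S (Ioo 0 lamStar) := hconv.continuousOn isOpen_Ioo
  -- small value
  set ls := lam0 / 4 with hls
  have hls0 : 0 < ls := by positivity
  have hlsle : ls ≤ lam0 := by rw [hls]; linarith
  have hSsmall : S ls ≤ 1 / 4 := by
    apply hSle
    intro y hy
    have k := branch_scale hΩ hb hM hbr hls0 hlsle h1 hy
    have k2 := ((hsol lam0 h0 h1).range y hy).2
    have k3 : ls / lam0 = 1 / 4 := by rw [hls]; field_simp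
    rw [k3] at k
    linarith
  have hSbig : 1 / 2 ≤ S lam0 := hge.trans (hle lam0 h0 h1 x (subset_closure hx))
  have hsub : Icc ls lam0 ⊆ Ioo 0 lamStar := fun l hl =>
    ⟨lt_of_lt_of_le hls0 hl.1, lt_of_le_of_lt hl.2 h1⟩
  obtain ⟨l1, hl1, hl1eq⟩ := intermediate_value_Icc hlsle (hcont.mono hsub)
    (⟨hSsmall.trans (by norm_num), hSbig⟩ : (1/2 : ℝ) ∈ Icc (S ls) (S lam0))
  have hl1' := hsub hl1
  obtain ⟨x0, hx0, hmax⟩ := hb.isCompact_closure.exists_isMaxOn hne
    (hsol l1 hl1'.1 hl1'.2).continuousOn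
  have hval : u l1 x0 = 1 / 2 := by
    rw [← hl1eq]
    apply le_antisymm (hle l1 hl1'.1 hl1'.2 x0 hx0)
    exact hSle l1 _ (fun y hy => hmax hy)
  refine ⟨l1, hl1'.1, hl1'.2, x0, ?_, hval, ?_⟩
  · rcases mem_or_frontier hΩ hx0 with h | h
    · exact h
    · exfalso
      rw [(hsol l1 hl1'.1 hl1'.2).boundary x0 h] at hval
      norm_num at hval
  · intro y hy
    rw [← hval]; exact hmax hy

end

end Pool.Agent.Lib.MP_2166fc_an
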