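import Mathlib

set_option autoImplicit false

open Set Filter Topology MeasureTheory
open scoped ContDiff

namespace Pool.Agent.Lib.MP_2166fc_an

/-- The kernel `σ^m exp(-k q (1-σ²)/2)`. -/
noncomputable def kern (m : ℕ) (k q σ : ℝ) : ℝ := σ ^ m * Real.exp (-(k * q * (1 - σ ^ 2)) / 2)

/-- `D g (q) = ½ ∫_0^1 σ^m exp(-k q (1-σ²)/2) g(q σ²) dσ`. -/
noncomputable def Dg (m : ℕ) (k : ℝ) (g : ℝ → ℝ) (q : ℝ) : ℝ :=
  1 / 2 * ∫ σ in (0:ℝ)..1, kern m k q σ * g (q * σ ^ 2)

/-- `T g (q) = ∫_q^Q D g`. -/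
noncomputable def Tg (m : ℕ) (k Q : ℝ) (g : ℝ → ℝ) (q : ℝ) : ℝ := ∫ p in q..Q, Dg m k g p

variable {m : ℕ} {k Q : ℝ} {g g1 g2 : ℝ → ℝ}

lemma kern_nonneg {q σ : ℝ} (hσ : 0 ≤ σ) : 0 ≤ kern m k q σ := by
  unfold kern; positivity

lemma kern_le {q σ : ℝ} (hk : 0 ≤ k) (hq : 0 ≤ q) (hσ : 0 ≤ σ) (hσ1 : σ ≤ 1) :
    kern m k q σ ≤ σ ^ m := by
  unfold kern
  have h1 : 0 ≤ k * q * (1 - σ ^ 2) := by
    have : σ ^ 2 ≤ 1 := pow_le_one₀ hσ hσ1
    have h2 := mul_nonneg hk hq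
    have : 0 ≤ 1 - σ ^ 2 := by linarith
    positivity
  have h2 : Real.exp (-(k * q * (1 - σ ^ 2)) / 2) ≤ 1 := by
    rw [Real.exp_le_one_iff]; linarith
  have h3 : 0 ≤ σ ^ m := by positivity
  nlinarith

lemma continuous_kern2 : Continuous fun p : ℝ × ℝ => kern m k p.1 p.2 := by
  unfold kern; fun_prop

lemma continuous_kern (q : ℝ) : Continuous fun σ : ℝ => kern m k q σ := by
  unfold kern; fun_prop

lemma continuous_integrand (hg : Continuous g) (q : ℝ) :
    Continuous fun σ : ℝ => kern m k q σ * g (q * σ ^ 2) :=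
  (continuous_kern q).mul (hg.comp (by fun_prop))

lemma continuous_Dg (hg : Continuous g) : Continuous (Dg m k g) := by
  unfold Dg
  apply Continuous.mul continuous_const
  apply intervalIntegral.continuous_parametric_intervalIntegral_of_continuous'
  have h1 : Continuous fun p : ℝ × ℝ => kern m k p.1 p.2 * g (p.1 * p.2 ^ 2) :=
    continuous_kern2.mul (hg.comp (by fun_prop))
  exact h1

lemma Dg_zero : Dg m k g 0 = g 0 / (2 * (m + 1)) := by
  unfold Dg kern
  simp only [zero_mul, mul_zero, neg_zero, zero_div, Real.exp_zero, mul_one]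
  rw [intervalIntegral.integral_mul_const, integral_pow]
  simp only [one_pow]
  have : (m:ℝ) + 1 ≠ 0 := by positivity
  field_simp
  ring

lemma Dg_mono (hg1 : Continuous g1) (hg2 : Continuous g2) {q : ℝ} (hq : 0 ≤ q)
    (h : ∀ p, 0 ≤ p → p ≤ q → g1 p ≤ g2 p) : Dg m k g1 q ≤ Dg m k g2 q := by
  unfold Dg
  apply mul_le_mul_of_nonneg_left _ (by norm_num)
  apply intervalIntegral.integral_mono_on zero_le_one
    ((continuous_integrand hg1 q).intervalIntegrable _ _)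
    ((continuous_integrand hg2 q).intervalIntegrable _ _)
  intro σ hσ
  apply mul_le_mul_of_nonneg_left _ (kern_nonneg hσ.1)
  apply h
  · have := hσ.1; positivity
  · have : σ ^ 2 ≤ 1 := pow_le_one₀ hσ.1 hσ.2
    nlinarith

lemma Dg_nonneg {q : ℝ} (hq : 0 ≤ q) (h : ∀ p, 0 ≤ p → p ≤ q → 0 ≤ g p) : 0 ≤ Dg m k g q := by
  unfold Dg
  apply mul_nonneg (by norm_num)
  apply intervalIntegral.integral_nonneg zero_le_one
  intro σ hσ
  apply mul_nonneg (kern_nonneg hσ.1)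
  apply h
  · have := hσ.1; positivity
  · have : σ ^ 2 ≤ 1 := pow_le_one₀ hσ.1 hσ.2
    nlinarith

lemma Dg_le (hk : 0 ≤ k) (hg : Continuous g) {q B : ℝ} (hq : 0 ≤ q) (hB : 0 ≤ B)
    (h : ∀ p, 0 ≤ p → p ≤ q → g p ≤ B) : Dg m k g q ≤ B / (2 * (m + 1)) := by
  have h1 : ∫ σ in (0:ℝ)..1, kern m k q σ * g (q * σ ^ 2) ≤ ∫ σ in (0:ℝ)..1, σ ^ m * B := by
    apply intervalIntegral.integral_mono_on zero_le_one
      ((continuous_integrand hg q).intervalIntegrable _ _)
      ((by fun_prop : Continuous fun σ : ℝ => σ ^ m * B).intervalIntegrable _ _)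
    intro σ hσ
    have hs1 : σ ^ 2 ≤ 1 := pow_le_one₀ hσ.1 hσ.2
    have h2 : g (q * σ ^ 2) ≤ B := h _ (by have := hσ.1; positivity) (by nlinarith)
    have h3 := kern_nonneg (m := m) (k := k) (q := q) hσ.1
    have h4 := kern_le (m := m) hk hq hσ.1 hσ.2
    calc kern m k q σ * g (q * σ ^ 2) ≤ kern m k q σ * B := mul_le_mul_of_nonneg_left h2 h3
      _ ≤ σ ^ m * B := mul_le_mul_of_nonneg_right h4 hB
  rw [intervalIntegral.integral_mul_const, integral_pow] at h1
  unfold Dg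
  have e : B / (2 * ((m:ℝ) + 1)) = 1 / 2 * ((1 ^ (m + 1) - 0 ^ (m + 1)) / (↑m + 1) * B) := by
    have : (m:ℝ) + 1 ≠ 0 := by positivity
    rw [zero_pow (by omega), one_pow]
    field_simp
    ring
  rw [e]
  exact mul_le_mul_of_nonneg_left h1 (by norm_num)

/-- The integral of the kernel is at least `1/(m+1+kq)`. -/
lemma kern_integral_ge (hk : 0 ≤ k) {q : ℝ} (hq : 0 ≤ q) :
    1 / (m + 1 + k * q) ≤ ∫ σ in (0:ℝ)..1, kern m k q σ := by
  have hkq := mul_nonneg hk hq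
  have hpos : (0:ℝ) < m + 1 + k * q := by positivity
  rw [div_le_iff₀ hpos]
  have hd : ∀ σ ∈ uIcc (0:ℝ) 1, HasDerivAt
      (fun σ : ℝ => σ ^ (m + 1) * Real.exp (-(k * q * (1 - σ ^ 2)) / 2))
      ((m + 1 + k * q * σ ^ 2) * kern m k q σ) σ := by
    intro σ _
    have h1 := hasDerivAt_pow (m + 1) σ
    have h2 : HasDerivAt (fun σ : ℝ => -(k * q * (1 - σ ^ 2)) / 2) (k * q * σ) σ := by
      have := ((((hasDerivAt_pow 2 σ).const_sub 1).const_mul (k * q)).neg).div_const 2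
      refine this.congr_deriv ?_
      simp; ring
    refine (h1.mul h2.exp).congr_deriv ?_
    unfold kern
    simp only [Nat.add_sub_cancel]
    push_cast
    ring
  have hcont : Continuous fun σ : ℝ => (m + 1 + k * q * σ ^ 2) * kern m k q σ :=
    (by fun_prop : Continuous fun σ : ℝ => ((m:ℝ) + 1 + k * q * σ ^ 2)).mul (continuous_kern q)
  have h1 := intervalIntegral.integral_eq_sub_of_hasDerivAt hd (hcont.intervalIntegrable _ _)
  have h2 : ∫ σ in (0:ℝ)..1, (m + 1 + k * q * σ ^ 2) * kern m k q σ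
      ≤ ∫ σ in (0:ℝ)..1, (m + 1 + k * q) * kern m k q σ := by
    apply intervalIntegral.integral_mono_on zero_le_one (hcont.intervalIntegrable _ _)
      ((continuous_const.mul (continuous_kern q)).intervalIntegrable _ _)
    intro σ hσ
    apply mul_le_mul_of_nonneg_right _ (kern_nonneg hσ.1)
    have : σ ^ 2 ≤ 1 := pow_le_one₀ hσ.1 hσ.2
    nlinarith
  rw [h1, intervalIntegral.integral_const_mul] at h2
  simp only [one_pow, sub_self, mul_zero, neg_zero, zero_div, Real.exp_zero, mul_one,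
    zero_pow (by omega : m + 1 ≠ 0), zero_mul, sub_zero] at h2
  linarith

lemma Dg_ge (hk : 0 ≤ k) (hg : Continuous g) {q : ℝ} (hq : 0 ≤ q) (hgq : 0 ≤ g q)
    (h : ∀ p, 0 ≤ p → p ≤ q → g q ≤ g p) : g q / (2 * (m + 1) + 2 * k * q) ≤ Dg m k g q := by
  have h1 : ∫ σ in (0:ℝ)..1, kern m k q σ * g q ≤ ∫ σ in (0:ℝ)..1, kern m k q σ * g (q * σ ^ 2) := by
    apply intervalIntegral.integral_mono_on zero_le_one
      (((continuous_kern q).mul continuous_const).intervalIntegrable _ _)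
      ((continuous_integrand hg q).intervalIntegrable _ _)
    intro σ hσ
    apply mul_le_mul_of_nonneg_left _ (kern_nonneg hσ.1)
    have : σ ^ 2 ≤ 1 := pow_le_one₀ hσ.1 hσ.2
    exact h _ (by have := hσ.1; positivity) (by nlinarith)
  rw [intervalIntegral.integral_mul_const] at h1
  have h2 := kern_integral_ge (m := m) hk hq
  have hkq := mul_nonneg hk hq
  have hpos : (0:ℝ) < m + 1 + k * q := by positivity
  unfold Dg
  have e : g q / (2 * (m + 1) + 2 * k * q) = 1 / 2 * (1 / (m + 1 + k * q) * g q) := by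
    have : (2 * ((m:ℝ) + 1) + 2 * k * q) ≠ 0 := by nlinarith
    field_simp
  rw [e]
  exact mul_le_mul_of_nonneg_left ((mul_le_mul_of_nonneg_right h2 hgq).trans h1) (by norm_num)

/-! ### The differential equation -/

/-- The primitive in the variable `r = √q`. -/
noncomputable def Nr (m : ℕ) (k : ℝ) (g : ℝ → ℝ) (r : ℝ) : ℝ :=
  ∫ s in (0:ℝ)..r, s ^ m * Real.exp (k * s ^ 2 / 2) * g (s ^ 2)

lemma hasDerivAt_Nr (hg : Continuous g) (r : ℝ) :
    HasDerivAt (Nr m k g) (r ^ m * Real.exp (k * r ^ 2 / 2) * g (r ^ 2)) r := by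
  have hc : Continuous fun s : ℝ => s ^ m * Real.exp (k * s ^ 2 / 2) * g (s ^ 2) :=
    (by fun_prop : Continuous fun s : ℝ => s ^ m * Real.exp (k * s ^ 2 / 2)).mul
      (hg.comp (by fun_prop))
  exact (hc.integral_hasStrictDerivAt 0 r).hasDerivAt

lemma Dg_eq_Nr {q : ℝ} (hq : 0 < q) :
    Dg m k g q = 1 / 2 * (Nr m k g (Real.sqrt q)
      / ((Real.sqrt q) ^ (m + 1) * Real.exp (k * q / 2))) := by
  set r := Real.sqrt q with hr
  have hr0 : 0 < r := Real.sqrt_pos.mpr hq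
  have hr2 : r ^ 2 = q := Real.sq_sqrt hq.le
  unfold Dg Nr
  have h1 := intervalIntegral.mul_integral_comp_mul_left (a := (0:ℝ)) (b := 1)
    (f := fun s : ℝ => s ^ m * Real.exp (k * s ^ 2 / 2) * g (s ^ 2)) (c := r)
  rw [mul_zero, mul_one] at h1
  rw [← h1]
  have h2 : ∫ σ in (0:ℝ)..1, (r * σ) ^ m * Real.exp (k * (r * σ) ^ 2 / 2) * g ((r * σ) ^ 2)
      = (r ^ m * Real.exp (k * q / 2)) * ∫ σ in (0:ℝ)..1, kern m k q σ * g (q * σ ^ 2) := by
    rw [← intervalIntegral.integral_const_mul]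
    apply intervalIntegral.integral_congr
    intro σ _
    simp only
    unfold kern
    have e1 : Real.exp (k * (r * σ) ^ 2 / 2)
        = Real.exp (k * q / 2) * Real.exp (-(k * q * (1 - σ ^ 2)) / 2) := by
      rw [← Real.exp_add]
      congr 1
      rw [mul_pow, hr2]; ring
    rw [e1, mul_pow, mul_pow, hr2]
    ring
  rw [h2]
  have he := Real.exp_pos (k * q / 2)
  field_simp
  ring

lemma hasDerivAt_Dg (hg : Continuous g) {q : ℝ} (hq : 0 < q) :
    HasDerivAt (Dg m k g) ((g q - (2 * (m + 1) + 2 * k * q) * Dg m k g q) / (4 * q)) q := by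
  have hev : Dg m k g =ᶠ[𝓝 q] fun q => 1 / 2 * (Nr m k g (Real.sqrt q)
      / ((Real.sqrt q) ^ (m + 1) * Real.exp (k * q / 2))) := by
    filter_upwards [Ioi_mem_nhds hq] with p hp
    exact Dg_eq_Nr hp
  have hr0 : 0 < Real.sqrt q := Real.sqrt_pos.mpr hq
  have hr2 : (Real.sqrt q) ^ 2 = q := Real.sq_sqrt hq.le
  have hsq := Real.hasDerivAt_sqrt hq.ne'
  have h1 := (hasDerivAt_Nr (m := m) (k := k) hg (Real.sqrt q)).comp q hsq
  have h2 := hsq.pow (m + 1)
  have h3 : HasDerivAt (fun q : ℝ => Real.exp (k * q / 2)) (Real.exp (k * q / 2) * (k / 2)) q := by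
    have := (((hasDerivAt_id q).const_mul k).div_const 2).exp
    simpa using this
  have hne : (Real.sqrt q) ^ (m + 1) * Real.exp (k * q / 2) ≠ 0 := by positivity
  have h4 := (h1.div (h2.mul h3) hne).const_mul (1 / 2)
  have h5 := h4.congr_of_eventuallyEq hev
  refine h5.congr_deriv ?_
  rw [Dg_eq_Nr hq]
  simp only [Function.comp, Pi.mul_apply, Pi.pow_apply, Nat.add_sub_cancel]
  set r := Real.sqrt q with hr
  set N := Nr m k g r
  set e := Real.exp (k * q / 2) with he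
  have he0 : 0 < e := Real.exp_pos _
  have e1 : Real.exp (k * r ^ 2 / 2) = e := by rw [hr2]
  rw [e1, hr2]
  have hq2 : q = r ^ 2 := hr2.symm
  have hg2 : g q = g q := rfl
  generalize g q = gq
  rw [hq2]
  field_simp
  push_cast
  ring

end Pool.Agent.Lib.MP_2166fc_an
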