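import Mathlib
import Pool.Agent.Lib.MP_2166fc_an.Defs
import Pool.Agent.Lib.MP_2166fc_an.Calc

set_option autoImplicit false

open Set Filter Topology InnerProductSpace Laplacian
open scoped ContDiff

namespace Pool.Agent.Lib.MP_2166fc_an

variable {n : ℕ}

/-- The real inner product as a continuous bilinear map. -/
noncomputable def BL (n : ℕ) : Sp n →L[ℝ] Sp n →L[ℝ] ℝ := innerSL ℝ

@[simp] lemma BL_apply (x y : Sp n) : BL n x y = inner ℝ x y := rfl

lemma hasFDerivAt_normSq_sub (x0 x : Sp n) :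
    HasFDerivAt (fun y : Sp n => ‖y - x0‖ ^ 2) ((2 : ℝ) • BL n (x - x0)) x := by
  have h1 : HasFDerivAt (fun y : Sp n => y - x0) (ContinuousLinearMap.id ℝ (Sp n)) x :=
    (hasFDerivAt_id x).sub_const x0
  have h := h1.norm_sq
  refine h.congr_fderiv ?_
  ext v
  simp [BL_apply]

/-- First derivative of a radial function. -/
lemma hasFDerivAt_radial {Ψ : ℝ → ℝ} {a : ℝ} {x0 x : Sp n}
    (h : HasDerivAt Ψ a (‖x - x0‖ ^ 2)) :
    HasFDerivAt (fun y : Sp n => Ψ (‖y - x0‖ ^ 2)) ((2 * a) • BL n (x - x0)) x := by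
  have h1 := h.comp_hasFDerivAt x (hasFDerivAt_normSq_sub x0 x)
  refine h1.congr_fderiv ?_
  ext v
  simp [BL_apply]; ring

lemma hasFDerivAt_BL_sub (x0 x : Sp n) :
    HasFDerivAt (fun y : Sp n => BL n (y - x0)) (BL n) x := by
  have h1 : HasFDerivAt (fun y : Sp n => y - x0) (ContinuousLinearMap.id ℝ (Sp n)) x :=
    (hasFDerivAt_id x).sub_const x0
  have h2 := (BL n).hasFDerivAt.comp x h1
  exact h2

/-- Trace of `v ↦ ⟪p, v⟫²`. -/
lemma sum_inner_sq (p : Sp n) :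
    ∑ i, (inner ℝ p (EuclideanSpace.basisFun (Fin n) ℝ i)) ^ 2 = ‖p‖ ^ 2 := by
  rw [EuclideanSpace.norm_sq_eq]
  refine Finset.sum_congr rfl fun i _ => ?_
  simp [EuclideanSpace.basisFun_apply, EuclideanSpace.inner_single_right]

/-- Laplacian from an explicit radial-type second derivative. -/
lemma lap_of_hasFDerivAt {u : Sp n → ℝ} {x p : Sp n} {L : Sp n → Sp n →L[ℝ] ℝ} {a b : ℝ}
    (h1 : ∀ᶠ y in 𝓝 x, HasFDerivAt u (L y) y)
    (h2 : HasFDerivAt L (a • BL n + b • ((BL n p).smulRight (BL n p))) x) :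
    Δ u x = n * a + b * ‖p‖ ^ 2 := by
  have e : fderiv ℝ u =ᶠ[𝓝 x] L := by
    filter_upwards [h1] with y hy
    exact hy.fderiv
  rw [lap_eq, e.fderiv_eq, h2.fderiv]
  rw [← sum_inner_sq p, Finset.mul_sum]
  have : (n : ℝ) * a = ∑ _i : Fin n, a := by simp
  rw [this, ← Finset.sum_add_distrib]
  refine Finset.sum_congr rfl fun i _ => ?_
  have hn : inner ℝ (EuclideanSpace.basisFun (Fin n) ℝ i) (EuclideanSpace.basisFun (Fin n) ℝ i)
      = (1:ℝ) := by
    rw [real_inner_self_eq_norm_sq]; simp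
  simp only [_root_.add_apply, _root_.smul_apply, BL_apply,
    ContinuousLinearMap.smulRight_apply, smul_eq_mul, hn]
  ring

/-- Second derivative of a radial function, in the form used for Laplacians. -/
lemma hasFDerivAt_radial_grad {Ψ1 : ℝ → ℝ} {b : ℝ} {x0 x : Sp n}
    (h : HasDerivAt Ψ1 b (‖x - x0‖ ^ 2)) :
    HasFDerivAt (fun y : Sp n => (2 * Ψ1 (‖y - x0‖ ^ 2)) • BL n (y - x0))
      ((2 * Ψ1 (‖x - x0‖ ^ 2)) • BL n
        + (4 * b) • ((BL n (x - x0)).smulRight (BL n (x - x0)))) x := by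
  have h1 := (hasFDerivAt_radial (x0 := x0) h).const_mul (2:ℝ)
  have h2 := h1.smul (hasFDerivAt_BL_sub x0 x)
  refine h2.congr_fderiv ?_
  ext v w
  simp only [_root_.add_apply, _root_.smul_apply, BL_apply,
    ContinuousLinearMap.smulRight_apply, smul_eq_mul]
  ring

/-- Laplacian of a radial function. -/
lemma lap_radial {Ψ Ψ1 : ℝ → ℝ} {b : ℝ} {x0 x : Sp n}
    (h : ∀ᶠ q in 𝓝 (‖x - x0‖ ^ 2), HasDerivAt Ψ (Ψ1 q) q)
    (h2 : HasDerivAt Ψ1 b (‖x - x0‖ ^ 2)) :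
    Δ (fun y : Sp n => Ψ (‖y - x0‖ ^ 2)) x
      = 4 * ‖x - x0‖ ^ 2 * b + 2 * n * Ψ1 (‖x - x0‖ ^ 2) := by
  have hc : Tendsto (fun y : Sp n => ‖y - x0‖ ^ 2) (𝓝 x) (𝓝 (‖x - x0‖ ^ 2)) := by
    have : Continuous (fun y : Sp n => ‖y - x0‖ ^ 2) := by fun_prop
    exact this.tendsto x
  rw [lap_of_hasFDerivAt (L := fun y : Sp n => (2 * Ψ1 (‖y - x0‖ ^ 2)) • BL n (y - x0))
    (by filter_upwards [hc.eventually h] with y hy using hasFDerivAt_radial hy)
    (hasFDerivAt_radial_grad h2)]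
  ring

end Pool.Agent.Lib.MP_2166fc_an
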