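import Mathlib
import Pool.Agent.Lib.MP_2166fc_an.Defs
import Pool.Agent.Lib.MP_2166fc_an.Calc
import Pool.Agent.Lib.MP_2166fc_an.Radial
import Pool.Agent.Lib.MP_2166fc_an.Kern

set_option autoImplicit false

open Set Filter Topology InnerProductSpace Laplacian MeasureTheory
open scoped ContDiff

namespace Pool.Agent.Lib.MP_2166fc_an

variable {m : ℕ} {k Q : ℝ} {g : ℝ → ℝ}

lemma hasDerivAt_Tg (hg : Continuous g) (q : ℝ) :
    HasDerivAt (Tg m k Q g) (-Dg m k g q) q := by
  have hc := continuous_Dg (m := m) (k := k) hg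
  have h1 : HasDerivAt (fun q => ∫ p in Q..q, Dg m k g p) (Dg m k g q) q :=
    (hc.integral_hasStrictDerivAt Q q).hasDerivAt
  have h2 : Tg m k Q g = fun q => -∫ p in Q..q, Dg m k g p := by
    ext q; unfold Tg; rw [intervalIntegral.integral_symm]
  rw [h2]
  exact h1.neg

/-- The vector field `D(|x|²) x`. -/
noncomputable def Gv (m : ℕ) (k : ℝ) (g : ℝ → ℝ) (x : Sp (m + 1)) : Sp (m + 1) :=
  Dg m k g (‖x‖ ^ 2) • x

/-- `q D'(q)`. -/
noncomputable def hD (m : ℕ) (k : ℝ) (g : ℝ → ℝ) (q : ℝ) : ℝ :=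
  (g q - (2 * (m + 1) + 2 * k * q) * Dg m k g q) / 4

lemma hD_zero : hD m k g 0 = 0 := by
  unfold hD
  rw [Dg_zero]
  have : (m:ℝ) + 1 ≠ 0 := by positivity
  field_simp
  ring

lemma continuous_hD (hg : Continuous g) : Continuous (hD m k g) := by
  unfold hD
  exact (hg.sub ((by fun_prop : Continuous fun q : ℝ => (2 * ((m:ℝ) + 1) + 2 * k * q)).mul
    (continuous_Dg hg))).div_const 4

/-- The derivative of `Gv`. -/
noncomputable def Gv' (m : ℕ) (k : ℝ) (g : ℝ → ℝ) (x : Sp (m + 1)) :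
    Sp (m + 1) →L[ℝ] Sp (m + 1) :=
  Dg m k g (‖x‖ ^ 2) • ContinuousLinearMap.id ℝ (Sp (m + 1))
    + (2 * (hD m k g (‖x‖ ^ 2) / ‖x‖ ^ 2)) • ((BL (m + 1) x).smulRight x)

lemma hasFDerivAt_Gv (hg : Continuous g) (x : Sp (m + 1)) :
    HasFDerivAt (Gv m k g) (Gv' m k g x) x := by
  by_cases hx : x = 0
  · subst hx
    have e : Gv' m k g 0 = Dg m k g 0 • ContinuousLinearMap.id ℝ (Sp (m + 1)) := by
      unfold Gv'
      ext1 v
      simp
    rw [e, hasFDerivAt_iff_isLittleO_nhds_zero]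
    have hc : Tendsto (fun h : Sp (m + 1) => Dg m k g (‖h‖ ^ 2) - Dg m k g 0) (𝓝 0) (𝓝 0) := by
      have h1 : Continuous fun h : Sp (m + 1) => Dg m k g (‖h‖ ^ 2) - Dg m k g 0 :=
        ((continuous_Dg hg).comp (by fun_prop)).sub continuous_const
      have := h1.tendsto 0
      simpa using this
    have h2 : (fun h : Sp (m + 1) => Gv m k g (0 + h) - Gv m k g 0
        - (Dg m k g 0 • ContinuousLinearMap.id ℝ (Sp (m + 1))) h)
        = fun h => (Dg m k g (‖h‖ ^ 2) - Dg m k g 0) • h := by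
      ext1 h
      simp [Gv, sub_smul]
    rw [h2]
    have h3 : (fun h : Sp (m + 1) => Dg m k g (‖h‖ ^ 2) - Dg m k g 0) =o[𝓝 0] fun _ => (1:ℝ) :=
      (Asymptotics.isLittleO_one_iff ℝ).mpr hc
    have h4 := h3.smul_isBigO (Asymptotics.isBigO_refl (fun h : Sp (m + 1) => h) (𝓝 0))
    simpa using h4
  · have hq : 0 < ‖x‖ ^ 2 := by
      have := norm_pos_iff.mpr hx
      positivity
    have h1 : HasDerivAt (Dg m k g) (hD m k g (‖x‖ ^ 2) / ‖x‖ ^ 2) (‖x - 0‖ ^ 2) := by
      rw [sub_zero]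
      refine (hasDerivAt_Dg hg hq).congr_deriv ?_
      unfold hD
      field_simp
    have h2 := hasFDerivAt_radial h1
    simp only [sub_zero] at h2
    have h3 := h2.smul (hasFDerivAt_id x)
    refine h3.congr_fderiv ?_
    unfold Gv'
    ext1 v
    simp only [_root_.add_apply, _root_.smul_apply, ContinuousLinearMap.smulRight_apply,
      ContinuousLinearMap.id_apply, id, smul_smul, smul_eq_mul]

lemma continuous_Gv' (hg : Continuous g) : Continuous (Gv' m k g) := by
  rw [continuous_iff_continuousAt]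
  intro x
  unfold Gv'
  have hn : Continuous fun x : Sp (m + 1) => ‖x‖ ^ 2 := by fun_prop
  have hB : Continuous fun x : Sp (m + 1) => (BL (m + 1) x).smulRight x := by
    have h1 : Continuous fun x : Sp (m + 1) => BL (m + 1) x := (BL (m + 1)).continuous
    exact (isBoundedBilinearMap_smulRight (𝕜 := ℝ) (E := Sp (m + 1))
      (F := Sp (m + 1))).continuous.comp (h1.prodMk continuous_id)
  refine ContinuousAt.add ?_ ?_
  · have : Continuous fun x : Sp (m + 1) => Dg m k g (‖x‖ ^ 2) := (continuous_Dg hg).comp hn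
    exact (this.smul continuous_const).continuousAt
  · by_cases hx : x = 0
    · subst hx
      have h0 : (2 * (hD m k g (‖(0:Sp (m + 1))‖ ^ 2) / ‖(0:Sp (m + 1))‖ ^ 2))
          • ((BL (m + 1) (0:Sp (m + 1))).smulRight (0:Sp (m + 1))) = 0 := by
        ext1 v
        simp
      unfold ContinuousAt
      simp only
      rw [h0]
      apply squeeze_zero_norm (a := fun x : Sp (m + 1) => 2 * |hD m k g (‖x‖ ^ 2)|)
      · intro y
        rw [norm_smul]
        have h1 : ‖(BL (m + 1) y).smulRight y‖ ≤ ‖y‖ ^ 2 := by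
          apply ContinuousLinearMap.opNorm_le_bound _ (by positivity)
          intro v
          rw [ContinuousLinearMap.smulRight_apply, norm_smul, BL_apply]
          have := norm_inner_le_norm (𝕜 := ℝ) y v
          calc ‖inner ℝ y v‖ * ‖y‖ ≤ (‖y‖ * ‖v‖) * ‖y‖ :=
                mul_le_mul_of_nonneg_right this (norm_nonneg _)
            _ = ‖y‖ ^ 2 * ‖v‖ := by ring
        by_cases hy : y = 0
        · subst hy
          simp [hD_zero]
        · have hq : 0 < ‖y‖ ^ 2 := by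
            have := norm_pos_iff.mpr hy
            positivity
          have h2 : ‖(2 * (hD m k g (‖y‖ ^ 2) / ‖y‖ ^ 2))‖ = 2 * (|hD m k g (‖y‖ ^ 2)| / ‖y‖ ^ 2) := by
            rw [Real.norm_eq_abs, abs_mul, abs_div, abs_two, abs_of_pos hq]
          rw [h2]
          calc 2 * (|hD m k g (‖y‖ ^ 2)| / ‖y‖ ^ 2) * ‖(BL (m + 1) y).smulRight y‖
              ≤ 2 * (|hD m k g (‖y‖ ^ 2)| / ‖y‖ ^ 2) * ‖y‖ ^ 2 :=
                mul_le_mul_of_nonneg_left h1 (by positivity)
            _ = 2 * |hD m k g (‖y‖ ^ 2)| := by field_simp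
      · have h1 : Continuous fun x : Sp (m + 1) => 2 * |hD m k g (‖x‖ ^ 2)| :=
          continuous_const.mul (((continuous_hD hg).comp hn).abs)
        have := h1.tendsto 0
        simpa [hD_zero] using this
    · have hq : ‖x‖ ^ 2 ≠ 0 := by
        have := norm_pos_iff.mpr hx
        positivity
      have h1 : ContinuousAt (fun x : Sp (m + 1) => 2 * (hD m k g (‖x‖ ^ 2) / ‖x‖ ^ 2)) x :=
        continuousAt_const.mul ((((continuous_hD hg).comp hn).continuousAt).div hn.continuousAt hq)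
      exact h1.smul hB.continuousAt

lemma contDiff_Gv (hg : Continuous g) : ContDiff ℝ 1 (Gv m k g) :=
  contDiff_one_iff_hasFDerivAt.mpr ⟨Gv' m k g, continuous_Gv' hg, hasFDerivAt_Gv hg⟩

/-- The radial function `T g (|x|²)`. -/
noncomputable def uT (m : ℕ) (k Q : ℝ) (g : ℝ → ℝ) (x : Sp (m + 1)) : ℝ := Tg m k Q g (‖x‖ ^ 2)

lemma hasFDerivAt_uT (hg : Continuous g) (x : Sp (m + 1)) :
    HasFDerivAt (uT m k Q g) (BL (m + 1) ((-2 : ℝ) • Gv m k g x)) x := by
  have h1 : HasDerivAt (Tg m k Q g) (-Dg m k g (‖x‖ ^ 2)) (‖x - 0‖ ^ 2) := by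
    rw [sub_zero]; exact hasDerivAt_Tg hg _
  have h2 := hasFDerivAt_radial h1
  simp only [sub_zero] at h2
  refine h2.congr_fderiv ?_
  unfold Gv
  rw [smul_smul, map_smul]
  congr 1
  ring

lemma contDiff_uT (hg : Continuous g) : ContDiff ℝ 2 (uT m k Q g) := by
  have e : (2 : WithTop ℕ∞) = 1 + 1 := by norm_num
  rw [e, contDiff_succ_iff_fderiv]
  refine ⟨fun x => (hasFDerivAt_uT hg x).differentiableAt, by simp, ?_⟩
  have h1 : fderiv ℝ (uT m k Q g) = fun x => BL (m + 1) ((-2 : ℝ) • Gv m k g x) := by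
    ext1 x; exact (hasFDerivAt_uT hg x).fderiv
  rw [h1]
  have h2 : ContDiff ℝ 1 (fun x => (-2 : ℝ) • Gv m k g x) := (contDiff_Gv hg).const_smul (-2 : ℝ)
  exact (BL (m + 1)).contDiff.comp h2

lemma lap_uT (hg : Continuous g) (x : Sp (m + 1)) :
    Δ (uT m k Q g) x = -(2 * (m + 1) * Dg m k g (‖x‖ ^ 2)) - 4 * hD m k g (‖x‖ ^ 2) := by
  by_cases hx : x = 0
  · subst hx
    have h1 : HasFDerivAt (fun y => BL (m + 1) ((-2 : ℝ) • Gv m k g y))
        ((-2 * Dg m k g 0) • BL (m + 1) + (0:ℝ) • ((BL (m + 1) 0).smulRight (BL (m + 1) 0)))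
        (0 : Sp (m + 1)) := by
      have h2 := (BL (m + 1)).hasFDerivAt.comp (0 : Sp (m + 1))
        ((hasFDerivAt_Gv (m := m) (k := k) hg 0).const_smul (-2 : ℝ))
      refine h2.congr_fderiv ?_
      unfold Gv'
      ext v w
      simp
      ring
    rw [lap_of_hasFDerivAt (Eventually.of_forall fun y => hasFDerivAt_uT hg y) h1]
    simp only [norm_zero, ne_eq, OfNat.ofNat_ne_zero, not_false_eq_true, zero_pow, hD_zero]
    push_cast
    ring
  · have hq : 0 < ‖x‖ ^ 2 := by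
      have := norm_pos_iff.mpr hx
      positivity
    have h1 : HasDerivAt (fun q => -Dg m k g q) (-(hD m k g (‖x‖ ^ 2) / ‖x‖ ^ 2)) (‖x - 0‖ ^ 2) := by
      rw [sub_zero]
      refine (hasDerivAt_Dg hg hq).neg.congr_deriv ?_
      unfold hD
      field_simp
    have h2 := lap_radial (x0 := (0 : Sp (m + 1))) (x := x)
      (Eventually.of_forall fun q => hasDerivAt_Tg (m := m) (k := k) (Q := Q) hg q) h1
    simp only [sub_zero] at h2
    have e : uT m k Q g = fun y : Sp (m + 1) => Tg m k Q g (‖y‖ ^ 2) := rfl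
    rw [e, h2]
    push_cast
    field_simp
    ring

/-- The drift `-k x`. -/
noncomputable def drift (m : ℕ) (k : ℝ) (x : Sp (m + 1)) : Sp (m + 1) := -(k • x)

lemma Lop_uT (hg : Continuous g) (x : Sp (m + 1)) :
    Lop (drift m k) (uT m k Q g) x = g (‖x‖ ^ 2) := by
  unfold Lop
  rw [lap_uT hg, (hasFDerivAt_uT hg x).fderiv, BL_apply]
  unfold Gv drift hD
  rw [inner_smul_left, inner_smul_left, inner_neg_right, inner_smul_right,
    real_inner_self_eq_norm_sq]
  simp only [conj_trivial]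
  ring

end Pool.Agent.Lib.MP_2166fc_an
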