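import Mathlib
import Pool.Agent.Lib.MP_2166fc_an.Defs
import Pool.Agent.Lib.MP_2166fc_an.Calc
import Pool.Agent.Lib.MP_2166fc_an.FM
import Pool.Agent.Lib.MP_2166fc_an.Branch
import Pool.Agent.Lib.MP_2166fc_an.Radial
import Pool.Agent.Lib.MP_2166fc_an.Kern
import Pool.Agent.Lib.MP_2166fc_an.RadialSolve

set_option autoImplicit false

open Set Filter Topology InnerProductSpace Laplacian MeasureTheory
open scoped ContDiff

namespace Pool.Agent.Lib.MP_2166fc_an

variable {m : ℕ} {k R M lam : ℝ}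

/-- Truncation of the argument to `[0,Q]`. -/
noncomputable def clp (Q p : ℝ) : ℝ := max 0 (min p Q)

lemma continuous_clp (Q : ℝ) : Continuous (clp Q) := by unfold clp; fun_prop

lemma clp_mem {Q : ℝ} (hQ : 0 ≤ Q) (p : ℝ) : clp Q p ∈ Icc 0 Q :=
  ⟨le_max_left _ _, max_le hQ (min_le_right _ _)⟩

lemma clp_eq {Q p : ℝ} (hp : p ∈ Icc 0 Q) : clp Q p = p := by
  unfold clp; rw [min_eq_left hp.2, max_eq_right hp.1]

lemma clp_lip {Q : ℝ} (hQ : 0 ≤ Q) (a b : ℝ) : |clp Q a - clp Q b| ≤ |a - b| := by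
  unfold clp
  rcases le_total a b with h | h
  · rw [abs_of_nonpos (by linarith : a - b ≤ 0), abs_of_nonpos]
    · simp only [max_def, min_def]
      split_ifs <;> linarith
    · simp only [max_def, min_def]
      split_ifs <;> linarith
  · rw [abs_of_nonneg (by linarith : 0 ≤ a - b), abs_of_nonneg]
    · simp only [max_def, min_def]
      split_ifs <;> linarith
    · simp only [max_def, min_def]
      split_ifs <;> linarith

/-- The right-hand side built from a profile. -/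
noncomputable def rhs (Q M lam : ℝ) (φ : ℝ → ℝ) (p : ℝ) : ℝ := lam * fM M (φ (clp Q p))

/-- Monotone iteration from zero. -/
noncomputable def phi (m : ℕ) (k Q M lam : ℝ) : ℕ → ℝ → ℝ
  | 0 => fun _ => 0
  | (j + 1) => Tg m k Q (rhs Q M lam (phi m k Q M lam j))

lemma closure_ball_eq (hR : 0 < R) : closure (Metric.ball (0 : Sp (m + 1)) R)
    = Metric.closedBall 0 R := closure_ball 0 hR.ne'

lemma exists_norm_sq {q : ℝ} (hq : 0 ≤ q) : ∃ x : Sp (m + 1), ‖x‖ ^ 2 = q := by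
  refine ⟨EuclideanSpace.single 0 (Real.sqrt q), ?_⟩
  rw [PiLp.norm_single, Real.norm_of_nonneg (Real.sqrt_nonneg q), Real.sq_sqrt hq]

lemma mem_closedBall_iff (hR : 0 < R) {x : Sp (m + 1)} :
    x ∈ Metric.closedBall (0 : Sp (m + 1)) R ↔ ‖x‖ ^ 2 ≤ R ^ 2 := by
  rw [mem_closedBall_zero_iff]
  constructor
  · intro h; exact pow_le_pow_left₀ (norm_nonneg x) h 2
  · intro h; exact le_of_sq_le_sq_of_nonneg' hR.le h
where
  le_of_sq_le_sq_of_nonneg' {a b : ℝ} (hb : 0 ≤ b) (h : a ^ 2 ≤ b ^ 2) : a ≤ b :=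
    (abs_le_of_sq_le_sq' h hb).2

lemma continuous_fM_comp {h : ℝ → ℝ} (hh : Continuous h) (h1 : ∀ p, h p < 1) :
    Continuous fun p => fM M (h p) := by
  have : (fun p => fM M (h p)) = fun p => 1 + M * f0 (h p) := by ext p; rw [fM_eq]
  rw [this]
  have h2 : Continuous fun p => f0 (h p) :=
    contDiffOn_f0.continuousOn.comp_continuous hh h1
  exact continuous_const.add (continuous_const.mul h2)

lemma Tg_mono {g1 g2 : ℝ → ℝ} (hg1 : Continuous g1) (hg2 : Continuous g2) {q Q : ℝ} (hq : 0 ≤ q)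
    (hqQ : q ≤ Q) (h : ∀ p, 0 ≤ p → p ≤ Q → g1 p ≤ g2 p) : Tg m k Q g1 q ≤ Tg m k Q g2 q := by
  unfold Tg
  apply intervalIntegral.integral_mono_on hqQ ((continuous_Dg hg1).intervalIntegrable _ _)
    ((continuous_Dg hg2).intervalIntegrable _ _)
  intro p hp
  exact Dg_mono hg1 hg2 (hq.trans hp.1) fun r hr hrp => h r hr (hrp.trans hp.2)

lemma Tg_nonneg {g : ℝ → ℝ} {q Q : ℝ} (hq : 0 ≤ q)
    (hqQ : q ≤ Q) (h : ∀ p, 0 ≤ p → p ≤ Q → 0 ≤ g p) : 0 ≤ Tg m k Q g q := by
  unfold Tg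
  apply intervalIntegral.integral_nonneg hqQ
  intro p hp
  exact Dg_nonneg (hq.trans hp.1) fun r hr hrp => h r hr (hrp.trans hp.2)

/-- Comparison of a supersolution with the radial solution. -/
lemma uT_le (hR : 0 < R) {g : ℝ → ℝ} (hg : Continuous g) {v : Sp (m + 1) → ℝ}
    (hv : ContDiffOn ℝ 2 v (Metric.ball 0 R)) (hvc : ContinuousOn v (Metric.closedBall 0 R))
    (hv0 : ∀ x ∈ Metric.closedBall (0 : Sp (m + 1)) R, 0 ≤ v x)
    (hL : ∀ x ∈ Metric.ball (0 : Sp (m + 1)) R, g (‖x‖ ^ 2) ≤ Lop (drift m k) v x) :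
    ∀ x ∈ Metric.closedBall (0 : Sp (m + 1)) R, uT m k (R ^ 2) g x ≤ v x := by
  have hone : Continuous fun _ : ℝ => (1:ℝ) := continuous_const
  have hu : ContDiff ℝ 2 (uT m k (R ^ 2) g) := contDiff_uT hg
  have hp : ContDiff ℝ 2 (uT m k (R ^ 2) fun _ => (1:ℝ)) := contDiff_uT hone
  have key := maxprinciple (Ω := Metric.ball (0 : Sp (m + 1)) R) Metric.isOpen_ball
    Metric.isBounded_ball (drift m k) (fun _ => 0)
    (w := fun x => v x - uT m k (R ^ 2) g x)
    (ψ := fun x => uT m k (R ^ 2) (fun _ => (1:ℝ)) x + 1)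
    (hv.sub hu.contDiffOn) (by
      rw [closure_ball_eq hR]; exact hvc.sub hu.continuous.continuousOn)
    (hp.contDiffOn.add contDiffOn_const) (hp.continuous.continuousOn.add continuousOn_const) (by
      intro x hx
      rw [closure_ball_eq hR, mem_closedBall_iff hR] at hx
      have : 0 ≤ uT m k (R ^ 2) (fun _ => (1:ℝ)) x :=
        Tg_nonneg (by positivity) hx (fun _ _ _ => zero_le_one)
      linarith) (by
      intro x hx _
      have hx' := Metric.isOpen_ball.mem_nhds hx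
      rw [Lop_sub (hv.contDiffAt hx') hu.contDiffAt, Lop_uT hg]
      have := hL x hx
      linarith) (by
      intro x hx
      rw [Lop_add hp.contDiffAt contDiffAt_const, Lop_uT hone]
      have : Lop (drift m k) (fun _ : Sp (m + 1) => (1:ℝ)) x = 0 := by
        unfold Lop
        rw [lap_eq]
        simp
      rw [this]
      simp) (by
      intro x hx
      have hx2 : x ∈ Metric.closedBall (0 : Sp (m + 1)) R := by
        rw [← closure_ball_eq hR]; exact frontier_subset_closure hx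
      rw [frontier_ball (0 : Sp (m + 1)) hR.ne', mem_sphere_zero_iff_norm] at hx
      have h1 : uT m k (R ^ 2) g x = 0 := by
        unfold uT Tg
        rw [hx, intervalIntegral.integral_same]
      rw [h1]
      have := hv0 x hx2
      linarith)
  intro x hx
  have := key x (by rw [closure_ball_eq hR]; exact hx)
  linarith

/-- Supersolutions on the ball. -/
structure IsSuper (m : ℕ) (k R M lam C : ℝ) (v : Sp (m + 1) → ℝ) : Prop where
  regular : ContDiffOn ℝ 2 v (Metric.ball 0 R)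
  cont : ContinuousOn v (Metric.closedBall 0 R)
  C_lt : C < 1
  nonneg : ∀ x ∈ Metric.closedBall (0 : Sp (m + 1)) R, 0 ≤ v x
  le_C : ∀ x ∈ Metric.closedBall (0 : Sp (m + 1)) R, v x ≤ C
  sup : ∀ x ∈ Metric.ball (0 : Sp (m + 1)) R, lam * fM M (v x) ≤ Lop (drift m k) v x

lemma continuous_rhs {φ : ℝ → ℝ} {Q : ℝ} (hQ : 0 ≤ Q) (hφ : Continuous φ)
    (h1 : ∀ q ∈ Icc 0 Q, φ q < 1) : Continuous (rhs Q M lam φ) := by
  unfold rhs
  exact continuous_const.mul (continuous_fM_comp (hφ.comp (continuous_clp Q))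
    fun p => h1 _ (clp_mem hQ p))

lemma continuous_Tg {g : ℝ → ℝ} {Q : ℝ} (hg : Continuous g) : Continuous (Tg m k Q g) :=
  continuous_iff_continuousAt.mpr fun q => (hasDerivAt_Tg hg q).continuousAt

lemma phi_props (hR : 0 < R) (hM : 0 ≤ M) (hlam : 0 ≤ lam) {C : ℝ} {v : Sp (m + 1) → ℝ}
    (hv : IsSuper m k R M lam C v) (j : ℕ) :
    Continuous (phi m k (R ^ 2) M lam j) ∧
    (∀ q ∈ Icc 0 (R ^ 2), 0 ≤ phi m k (R ^ 2) M lam j q) ∧
    (∀ x ∈ Metric.closedBall (0 : Sp (m + 1)) R, phi m k (R ^ 2) M lam j (‖x‖ ^ 2) ≤ v x) := by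
  have hQ : 0 ≤ R ^ 2 := by positivity
  induction j with
  | zero => exact ⟨continuous_const, fun q _ => le_rfl, fun x hx => hv.nonneg x hx⟩
  | succ j ih =>
    obtain ⟨ih1, ih2, ih3⟩ := ih
    have hlt : ∀ q ∈ Icc 0 (R ^ 2), phi m k (R ^ 2) M lam j q ≤ C := by
      intro q hq
      obtain ⟨x, hx⟩ := exists_norm_sq (m := m) hq.1
      have hxm : x ∈ Metric.closedBall (0 : Sp (m + 1)) R := by
        rw [mem_closedBall_iff hR, hx]; exact hq.2
      have := ih3 x hxm
      rw [hx] at this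
      exact this.trans (hv.le_C x hxm)
    have hg : Continuous (rhs (R ^ 2) M lam (phi m k (R ^ 2) M lam j)) :=
      continuous_rhs hQ ih1 fun q hq => lt_of_le_of_lt (hlt q hq) hv.C_lt
    have hgnn : ∀ p, 0 ≤ rhs (R ^ 2) M lam (phi m k (R ^ 2) M lam j) p := by
      intro p
      unfold rhs
      have := fM_ge_one hM (lt_of_le_of_lt (hlt _ (clp_mem hQ p)) hv.C_lt)
      positivity
    refine ⟨continuous_Tg hg, ?_, ?_⟩
    · intro q hq
      exact Tg_nonneg hq.1 hq.2 fun p _ _ => hgnn p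
    · refine uT_le hR hg hv.regular hv.cont hv.nonneg ?_
      intro x hx
      refine le_trans ?_ (hv.sup x hx)
      have hx' := Metric.ball_subset_closedBall hx
      have hx2 := (mem_closedBall_iff hR).mp hx'
      have hmem : ‖x‖ ^ 2 ∈ Icc 0 (R ^ 2) := ⟨by positivity, hx2⟩
      unfold rhs
      rw [clp_eq hmem]
      have h1 := fM_mono hM (ih2 _ hmem) (ih3 x hx') (lt_of_le_of_lt (hv.le_C x hx') hv.C_lt)
      exact mul_le_mul_of_nonneg_left h1 hlam

lemma phi_le_C (hR : 0 < R) (hM : 0 ≤ M) (hlam : 0 ≤ lam) {C : ℝ} {v : Sp (m + 1) → ℝ}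
    (hv : IsSuper m k R M lam C v) (j : ℕ) {q : ℝ} (hq : q ∈ Icc 0 (R ^ 2)) :
    phi m k (R ^ 2) M lam j q ≤ C := by
  obtain ⟨x, hx⟩ := exists_norm_sq (m := m) hq.1
  have hxm : x ∈ Metric.closedBall (0 : Sp (m + 1)) R := by
    rw [mem_closedBall_iff hR, hx]; exact hq.2
  have := (phi_props hR hM hlam hv j).2.2 x hxm
  rw [hx] at this
  exact this.trans (hv.le_C x hxm)

lemma continuous_rhs_phi (hR : 0 < R) (hM : 0 ≤ M) (hlam : 0 ≤ lam) {C : ℝ} {v : Sp (m + 1) → ℝ}
    (hv : IsSuper m k R M lam C v) (j : ℕ) :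
    Continuous (rhs (R ^ 2) M lam (phi m k (R ^ 2) M lam j)) :=
  continuous_rhs (by positivity) (phi_props hR hM hlam hv j).1
    fun _ hq => lt_of_le_of_lt (phi_le_C hR hM hlam hv j hq) hv.C_lt

lemma phi_step (hR : 0 < R) (hM : 0 ≤ M) (hlam : 0 ≤ lam) {C : ℝ} {v : Sp (m + 1) → ℝ}
    (hv : IsSuper m k R M lam C v) (j : ℕ) :
    ∀ q ∈ Icc 0 (R ^ 2), phi m k (R ^ 2) M lam j q ≤ phi m k (R ^ 2) M lam (j + 1) q := by
  have hQ : 0 ≤ R ^ 2 := by positivity
  induction j with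
  | zero =>
    intro q hq
    exact (phi_props hR hM hlam hv 1).2.1 q hq
  | succ j ih =>
    intro q hq
    refine Tg_mono (continuous_rhs_phi hR hM hlam hv j) (continuous_rhs_phi hR hM hlam hv (j + 1))
      hq.1 hq.2 ?_
    intro p _ _
    unfold rhs
    refine mul_le_mul_of_nonneg_left ?_ hlam
    have hm := clp_mem hQ p
    exact fM_mono hM ((phi_props hR hM hlam hv j).2.1 _ hm) (ih _ hm)
      (lt_of_le_of_lt (phi_le_C hR hM hlam hv (j + 1) hm) hv.C_lt)

lemma phi_monotone (hR : 0 < R) (hM : 0 ≤ M) (hlam : 0 ≤ lam) {C : ℝ} {v : Sp (m + 1) → ℝ}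
    (hv : IsSuper m k R M lam C v) {q : ℝ} (hq : q ∈ Icc 0 (R ^ 2)) :
    Monotone fun j => phi m k (R ^ 2) M lam j q :=
  monotone_nat_of_le_succ fun j => phi_step hR hM hlam hv j q hq

lemma rhs_bound (hR : 0 < R) (hM : 0 ≤ M) (hlam : 0 ≤ lam) {C : ℝ} {v : Sp (m + 1) → ℝ}
    (hv : IsSuper m k R M lam C v) (j : ℕ) (p : ℝ) :
    0 ≤ rhs (R ^ 2) M lam (phi m k (R ^ 2) M lam j) p ∧
      rhs (R ^ 2) M lam (phi m k (R ^ 2) M lam j) p ≤ lam * fM M C := by
  have hQ : 0 ≤ R ^ 2 := by positivity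
  have hm := clp_mem hQ p
  have h1 := phi_le_C hR hM hlam hv j hm
  have h2 := (phi_props hR hM hlam hv j).2.1 _ hm
  unfold rhs
  constructor
  · have := fM_ge_one hM (lt_of_le_of_lt h1 hv.C_lt)
    positivity
  · exact mul_le_mul_of_nonneg_left (fM_mono hM h2 h1 hv.C_lt) hlam

lemma C_nonneg (hR : 0 < R) {C : ℝ} {v : Sp (m + 1) → ℝ}
    (hv : IsSuper m k R M lam C v) : 0 ≤ C := by
  have h0 : (0 : Sp (m + 1)) ∈ Metric.closedBall (0 : Sp (m + 1)) R := by simp [hR.le]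
  exact (hv.nonneg 0 h0).trans (hv.le_C 0 h0)

lemma phi_lip (hk : 0 ≤ k) (hR : 0 < R) (hM : 0 ≤ M) (hlam : 0 ≤ lam) {C : ℝ}
    {v : Sp (m + 1) → ℝ} (hv : IsSuper m k R M lam C v) (j : ℕ) {a b : ℝ}
    (ha : a ∈ Icc 0 (R ^ 2)) (hb : b ∈ Icc 0 (R ^ 2)) :
    |phi m k (R ^ 2) M lam j a - phi m k (R ^ 2) M lam j b|
      ≤ lam * fM M C / (2 * (m + 1)) * |a - b| := by
  have hCnn := C_nonneg hR hv
  have hB : 0 ≤ lam * fM M C := mul_nonneg hlam (by linarith [fM_ge_one hM hv.C_lt])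
  have hΛ : 0 ≤ lam * fM M C / (2 * (m + 1)) := by positivity
  cases j with
  | zero => simp only [phi, sub_self, abs_zero]; positivity
  | succ j =>
    have hg := continuous_rhs_phi hR hM hlam hv j
    have hc := continuous_Dg (m := m) (k := k) hg
    have e : phi m k (R ^ 2) M lam (j + 1) a - phi m k (R ^ 2) M lam (j + 1) b
        = ∫ p in a..b, Dg m k (rhs (R ^ 2) M lam (phi m k (R ^ 2) M lam j)) p := by
      simp only [phi, Tg]
      rw [intervalIntegral.integral_interval_sub_interval_comm']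
      · simp only [intervalIntegral.integral_same, zero_sub]
        exact (intervalIntegral.integral_symm b a).symm
      all_goals exact hc.intervalIntegrable _ _
    rw [e]
    have h1 := intervalIntegral.norm_integral_le_of_norm_le_const (a := a) (b := b)
      (f := Dg m k (rhs (R ^ 2) M lam (phi m k (R ^ 2) M lam j)))
      (C := lam * fM M C / (2 * (m + 1))) (by
        intro p hp
        have hp0 : 0 ≤ p := by
          have := uIoc_subset_uIcc hp
          rw [mem_uIcc] at this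
          rcases this with h | h
          · exact ha.1.trans h.1
          · exact hb.1.trans h.1
        have h2 := Dg_nonneg (m := m) (k := k) hp0 (fun r _ _ => (rhs_bound hR hM hlam hv j r).1)
        have h3 := Dg_le (m := m) hk hg hp0 hB (fun r _ _ => (rhs_bound hR hM hlam hv j r).2)
        rw [Real.norm_of_nonneg h2]
        exact h3)
    rw [Real.norm_eq_abs] at h1
    rw [abs_sub_comm a b]
    exact h1

/-- The limit profile. -/
noncomputable def Phi (m : ℕ) (k Q M lam : ℝ) (q : ℝ) : ℝ := ⨆ j, phi m k Q M lam j (clp Q q)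

lemma tendsto_Phi (hR : 0 < R) (hM : 0 ≤ M) (hlam : 0 ≤ lam) {C : ℝ}
    {v : Sp (m + 1) → ℝ} (hv : IsSuper m k R M lam C v) (q : ℝ) :
    Tendsto (fun j => phi m k (R ^ 2) M lam j (clp (R ^ 2) q)) atTop
      (𝓝 (Phi m k (R ^ 2) M lam q)) := by
  have hQ : 0 ≤ R ^ 2 := by positivity
  refine tendsto_atTop_ciSup (phi_monotone hR hM hlam hv (clp_mem hQ q)) ⟨C, ?_⟩
  rintro _ ⟨j, rfl⟩
  exact phi_le_C hR hM hlam hv j (clp_mem hQ q)

lemma Phi_le_C (hR : 0 < R) (hM : 0 ≤ M) (hlam : 0 ≤ lam) {C : ℝ}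
    {v : Sp (m + 1) → ℝ} (hv : IsSuper m k R M lam C v) (q : ℝ) : Phi m k (R ^ 2) M lam q ≤ C :=
  le_of_tendsto' (tendsto_Phi hR hM hlam hv q)
    fun j => phi_le_C hR hM hlam hv j (clp_mem (by positivity) q)

lemma Phi_nonneg (hR : 0 < R) (hM : 0 ≤ M) (hlam : 0 ≤ lam) {C : ℝ}
    {v : Sp (m + 1) → ℝ} (hv : IsSuper m k R M lam C v) (q : ℝ) : 0 ≤ Phi m k (R ^ 2) M lam q :=
  ge_of_tendsto' (tendsto_Phi hR hM hlam hv q)
    fun j => (phi_props hR hM hlam hv j).2.1 _ (clp_mem (by positivity) q)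

lemma Phi_le (hR : 0 < R) (hM : 0 ≤ M) (hlam : 0 ≤ lam) {C : ℝ}
    {v : Sp (m + 1) → ℝ} (hv : IsSuper m k R M lam C v) {x : Sp (m + 1)}
    (hx : x ∈ Metric.closedBall (0 : Sp (m + 1)) R) : Phi m k (R ^ 2) M lam (‖x‖ ^ 2) ≤ v x := by
  refine le_of_tendsto' (tendsto_Phi hR hM hlam hv (‖x‖ ^ 2)) fun j => ?_
  rw [clp_eq ⟨by positivity, (mem_closedBall_iff hR).mp hx⟩]
  exact (phi_props hR hM hlam hv j).2.2 x hx

lemma continuous_Phi (hk : 0 ≤ k) (hR : 0 < R) (hM : 0 ≤ M) (hlam : 0 ≤ lam) {C : ℝ}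
    {v : Sp (m + 1) → ℝ} (hv : IsSuper m k R M lam C v) : Continuous (Phi m k (R ^ 2) M lam) := by
  have hQ : 0 ≤ R ^ 2 := by positivity
  have hCnn := C_nonneg hR hv
  have hB : 0 ≤ lam * fM M C := mul_nonneg hlam (by linarith [fM_ge_one hM hv.C_lt])
  have hΛ : 0 ≤ lam * fM M C / (2 * (m + 1)) := by positivity
  have hlip : LipschitzWith ⟨lam * fM M C / (2 * (m + 1)), hΛ⟩ (Phi m k (R ^ 2) M lam) := by
    refine LipschitzWith.of_dist_le_mul fun a b => ?_
    rw [Real.dist_eq, Real.dist_eq]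
    show |_| ≤ lam * fM M C / (2 * (m + 1)) * |a - b|
    have h1 := ((tendsto_Phi hR hM hlam hv a).sub (tendsto_Phi hR hM hlam hv b)).abs
    refine le_of_tendsto' h1 fun j => ?_
    exact (phi_lip hk hR hM hlam hv j (clp_mem hQ a) (clp_mem hQ b)).trans
      (mul_le_mul_of_nonneg_left (clp_lip hQ a b) hΛ)
  exact hlip.continuous

lemma Phi_clp (Q q : ℝ) (hQ : 0 ≤ Q) : Phi m k Q M lam (clp Q q) = Phi m k Q M lam q := by
  unfold Phi
  rw [clp_eq (clp_mem hQ q)]

/-- The limit profile is a fixed point. -/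
lemma Phi_fix (hk : 0 ≤ k) (hR : 0 < R) (hM : 0 ≤ M) (hlam : 0 ≤ lam) {C : ℝ}
    {v : Sp (m + 1) → ℝ} (hv : IsSuper m k R M lam C v) {q : ℝ} (hq : q ∈ Icc 0 (R ^ 2)) :
    Phi m k (R ^ 2) M lam q
      = Tg m k (R ^ 2) (fun p => lam * fM M (Phi m k (R ^ 2) M lam p)) q := by
  have hQ : 0 ≤ R ^ 2 := by positivity
  have hcP := continuous_Phi hk hR hM hlam hv
  have hB : 0 ≤ lam * fM M C := mul_nonneg hlam (by linarith [fM_ge_one hM hv.C_lt])
  -- pointwise convergence of the right-hand sides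
  have hg : ∀ p, Tendsto (fun j => rhs (R ^ 2) M lam (phi m k (R ^ 2) M lam j) p) atTop
      (𝓝 (lam * fM M (Phi m k (R ^ 2) M lam p))) := by
    intro p
    have h1 := tendsto_Phi hR hM hlam hv p
    have h2 : ContinuousAt (fM M) (Phi m k (R ^ 2) M lam p) :=
      (hasDerivAt_fM (lt_of_le_of_lt (Phi_le_C hR hM hlam hv p) hv.C_lt)).continuousAt
    exact (h2.tendsto.comp h1).const_mul lam
  have hD : ∀ p, 0 ≤ p → Tendsto
      (fun j => Dg m k (rhs (R ^ 2) M lam (phi m k (R ^ 2) M lam j)) p) atTop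
      (𝓝 (Dg m k (fun p => lam * fM M (Phi m k (R ^ 2) M lam p)) p)) := by
    intro p hp
    unfold Dg
    refine Tendsto.const_mul (1 / 2) ?_
    refine intervalIntegral.tendsto_integral_filter_of_dominated_convergence
      (fun _ => lam * fM M C) ?_ ?_ ?_ ?_
    · refine Eventually.of_forall fun j => ?_
      exact (continuous_integrand (continuous_rhs_phi hR hM hlam hv j) p).aestronglyMeasurable
    · refine Eventually.of_forall fun j => Eventually.of_forall fun σ hσ => ?_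
      rw [uIoc_of_le zero_le_one] at hσ
      have h1 := rhs_bound hR hM hlam hv j (p * σ ^ 2)
      have h2 := kern_nonneg (m := m) (k := k) (q := p) hσ.1.le
      have h3 := (kern_le (m := m) hk hp hσ.1.le hσ.2).trans (pow_le_one₀ hσ.1.le hσ.2)
      rw [Real.norm_of_nonneg (mul_nonneg h2 h1.1)]
      calc _ ≤ 1 * (lam * fM M C) := mul_le_mul h3 h1.2 h1.1 zero_le_one
        _ = _ := one_mul _
    · exact intervalIntegrable_const
    · refine Eventually.of_forall fun σ _ => ?_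
      exact (hg (p * σ ^ 2)).const_mul _
  have hT : Tendsto (fun j => Tg m k (R ^ 2) (rhs (R ^ 2) M lam (phi m k (R ^ 2) M lam j)) q) atTop
      (𝓝 (Tg m k (R ^ 2) (fun p => lam * fM M (Phi m k (R ^ 2) M lam p)) q)) := by
    unfold Tg
    refine intervalIntegral.tendsto_integral_filter_of_dominated_convergence
      (fun _ => lam * fM M C / (2 * (m + 1))) ?_ ?_ ?_ ?_
    · refine Eventually.of_forall fun j => ?_
      exact (continuous_Dg (continuous_rhs_phi hR hM hlam hv j)).aestronglyMeasurable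
    · refine Eventually.of_forall fun j => Eventually.of_forall fun p hp => ?_
      rw [uIoc_of_le hq.2] at hp
      have hp0 : 0 ≤ p := hq.1.trans hp.1.le
      have h2 := Dg_nonneg (m := m) (k := k) hp0 (fun r _ _ => (rhs_bound hR hM hlam hv j r).1)
      have h3 := Dg_le (m := m) hk (continuous_rhs_phi hR hM hlam hv j) hp0 hB
        (fun r _ _ => (rhs_bound hR hM hlam hv j r).2)
      rw [Real.norm_of_nonneg h2]
      exact h3
    · exact intervalIntegrable_const
    · refine Eventually.of_forall fun p hp => ?_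
      rw [uIoc_of_le hq.2] at hp
      exact hD p (hq.1.trans hp.1.le)
  have h1 := tendsto_Phi hR hM hlam hv q
  rw [clp_eq hq] at h1
  exact tendsto_nhds_unique ((tendsto_add_atTop_iff_nat 1).mpr h1) hT

/-- The minimal solution, as a radial function. -/
noncomputable def uMin (m : ℕ) (k R M lam : ℝ) : Sp (m + 1) → ℝ :=
  uT m k (R ^ 2) (fun p => lam * fM M (Phi m k (R ^ 2) M lam p))

lemma uMin_eq (hk : 0 ≤ k) (hR : 0 < R) (hM : 0 ≤ M) (hlam : 0 ≤ lam) {C : ℝ}
    {v : Sp (m + 1) → ℝ} (hv : IsSuper m k R M lam C v) {x : Sp (m + 1)}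
    (hx : x ∈ Metric.closedBall (0 : Sp (m + 1)) R) :
    uMin m k R M lam x = Phi m k (R ^ 2) M lam (‖x‖ ^ 2) :=
  (Phi_fix hk hR hM hlam hv ⟨by positivity, (mem_closedBall_iff hR).mp hx⟩).symm

lemma isSuper_of_isSolution (hR : 0 < R) {lam' : ℝ} (hl : lam ≤ lam') (hM : 0 ≤ M)
    {v : Sp (m + 1) → ℝ}
    (hv : IsSolution (Metric.ball (0 : Sp (m + 1)) R) (drift m k) (fM M) lam' v) :
    ∃ C, IsSuper m k R M lam C v := by
  obtain ⟨C, _, hC1, hC⟩ := hv.exists_bound Metric.isBounded_ball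
  have hcl := closure_ball_eq (m := m) hR
  refine ⟨C, hv.regular, hcl ▸ hv.continuousOn, hC1, ?_, ?_, ?_⟩
  · intro x hx; exact (hv.range x (hcl ▸ hx)).1
  · intro x hx; exact hC x (hcl ▸ hx)
  · intro x hx
    rw [hv.lop hx]
    have := fM_ge_one hM (hv.range x (subset_closure hx)).2
    exact mul_le_mul_of_nonneg_right hl (by linarith)

/-- A supersolution gives the minimal solution. -/
theorem isMinimal_uMin (hk : 0 ≤ k) (hR : 0 < R) (hM : 0 ≤ M) (hlam : 0 ≤ lam) {C : ℝ}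
    {v : Sp (m + 1) → ℝ} (hv : IsSuper m k R M lam C v) :
    IsMinimalSolution (Metric.ball (0 : Sp (m + 1)) R) (drift m k) (fM M) lam
      (uMin m k R M lam) := by
  have hcl := closure_ball_eq (m := m) hR
  have hcP := continuous_Phi hk hR hM hlam hv
  have hlt : ∀ p, Phi m k (R ^ 2) M lam p < 1 := fun p =>
    lt_of_le_of_lt (Phi_le_C hR hM hlam hv p) hv.C_lt
  have hg : Continuous (fun p => lam * fM M (Phi m k (R ^ 2) M lam p)) :=
    continuous_const.mul (continuous_fM_comp hcP hlt)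
  have hC2 : ContDiff ℝ 2 (uMin m k R M lam) := contDiff_uT hg
  refine ⟨⟨hC2.contDiffOn, hC2.continuous.continuousOn, ?_, ?_, ?_⟩, ?_⟩
  · intro x hx
    rw [hcl] at hx
    rw [uMin_eq hk hR hM hlam hv hx]
    exact ⟨Phi_nonneg hR hM hlam hv _, hlt _⟩
  · intro x hx
    rw [inner_gradient]
    have h1 := Lop_uT (m := m) (k := k) (Q := R ^ 2) hg x
    have h2 := uMin_eq hk hR hM hlam hv (Metric.ball_subset_closedBall hx)
    show Lop (drift m k) (uMin m k R M lam) x = _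
    rw [h2]
    exact h1
  · intro x hx
    rw [frontier_ball (0 : Sp (m + 1)) hR.ne', mem_sphere_zero_iff_norm] at hx
    unfold uMin uT Tg
    rw [hx, intervalIntegral.integral_same]
  · intro w hw x hx
    obtain ⟨C', hC'⟩ := isSuper_of_isSolution hR le_rfl hM hw
    have hx' := Metric.ball_subset_closedBall hx
    rw [uMin_eq hk hR hM hlam hv hx']
    exact Phi_le hR hM hlam hC' hx'

end Pool.Agent.Lib.MP_2166fc_an
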