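import Mathlib
import Pool.Agent.Lib.MP_2166fc_an.Defs
import Pool.Agent.Lib.MP_2166fc_an.Calc
import Pool.Agent.Lib.MP_2166fc_an.FM
import Pool.Agent.Lib.MP_2166fc_an.Branch
import Pool.Agent.Lib.MP_2166fc_an.Radial
import Pool.Agent.Lib.MP_2166fc_an.Kern
import Pool.Agent.Lib.MP_2166fc_an.RadialSolve
import Pool.Agent.Lib.MP_2166fc_an.Picard

set_option autoImplicit false

open Set Filter Topology InnerProductSpace Laplacian MeasureTheory
open scoped ContDiff

namespace Pool.Agent.Lib.MP_2166fc_an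

variable {m : ℕ} {k R M lam : ℝ}

/-- `Θ(q) = ∫_0^q dσ / (2n + 2kσ)`, `n = m + 1`. -/
noncomputable def Th (m : ℕ) (k q : ℝ) : ℝ := ∫ s in (0:ℝ)..q, 1 / (2 * (m + 1) + 2 * k * s)

lemma Th_integrable (hk : 0 ≤ k) {a b : ℝ} (ha : 0 ≤ a) (hb : 0 ≤ b) :
    IntervalIntegrable (fun s : ℝ => 1 / (2 * ((m:ℝ) + 1) + 2 * k * s)) volume a b := by
  apply ContinuousOn.intervalIntegrable
  apply ContinuousOn.div continuousOn_const (by fun_prop)
  intro s hs
  have hs0 : 0 ≤ s := by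
    rw [mem_uIcc] at hs
    rcases hs with h | h
    · exact ha.trans h.1
    · exact hb.trans h.1
  have := mul_nonneg hk hs0
  positivity

lemma Th_ge (hk : 0 ≤ k) {q : ℝ} (hq : 0 ≤ q) : q / (2 * (m + 1) + 2 * k * q) ≤ Th m k q := by
  unfold Th
  have h1 : ∫ s in (0:ℝ)..q, 1 / (2 * ((m:ℝ) + 1) + 2 * k * q)
      ≤ ∫ s in (0:ℝ)..q, 1 / (2 * ((m:ℝ) + 1) + 2 * k * s) := by
    apply intervalIntegral.integral_mono_on hq (by simp) (Th_integrable hk le_rfl hq)
    intro s hs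
    have h2 : k * s ≤ k * q := mul_le_mul_of_nonneg_left hs.2 hk
    have h3 := mul_nonneg hk hs.1
    have h4 : (0:ℝ) < 2 * ((m:ℝ) + 1) := by positivity
    apply one_div_le_one_div_of_le
    · linarith
    · linarith
  rw [intervalIntegral.integral_const] at h1
  simpa [div_eq_mul_inv] using h1

lemma Th_pos (hk : 0 ≤ k) {q : ℝ} (hq : 0 < q) : 0 < Th m k q := by
  refine lt_of_lt_of_le ?_ (Th_ge hk hq.le)
  have := mul_nonneg hk hq.le
  positivity

lemma Phi_anti (hk : 0 ≤ k) (hR : 0 < R) (hM : 0 ≤ M) (hlam : 0 ≤ lam) {C : ℝ}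
    {v : Sp (m + 1) → ℝ} (hv : IsSuper m k R M lam C v) {a b : ℝ} (ha : 0 ≤ a) (hab : a ≤ b)
    (hb : b ≤ R ^ 2) : Phi m k (R ^ 2) M lam b ≤ Phi m k (R ^ 2) M lam a := by
  have hcP := continuous_Phi hk hR hM hlam hv
  have hlt : ∀ p, Phi m k (R ^ 2) M lam p < 1 := fun p =>
    lt_of_le_of_lt (Phi_le_C hR hM hlam hv p) hv.C_lt
  have hg : Continuous (fun p => lam * fM M (Phi m k (R ^ 2) M lam p)) :=
    continuous_const.mul (continuous_fM_comp hcP hlt)
  rw [Phi_fix hk hR hM hlam hv ⟨ha.trans hab, hb⟩, Phi_fix hk hR hM hlam hv ⟨ha, hab.trans hb⟩]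
  have hint : ∀ x y, IntervalIntegrable
      (Dg m k (fun p => lam * fM M (Phi m k (R ^ 2) M lam p))) volume x y :=
    fun x y => (continuous_Dg hg).intervalIntegrable _ _
  unfold Tg
  rw [← intervalIntegral.integral_add_adjacent_intervals (hint a b) (hint b (R ^ 2))]
  have h1 : 0 ≤ ∫ p in a..b, Dg m k (fun p => lam * fM M (Phi m k (R ^ 2) M lam p)) p := by
    apply intervalIntegral.integral_nonneg hab
    intro p hp
    refine Dg_nonneg (ha.trans hp.1) fun r _ _ => ?_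
    have := fM_ge_one hM (hlt r)
    positivity
  linarith

/-- The basic estimate. -/
lemma Phi_est (hk : 0 ≤ k) (hR : 0 < R) (hM : 0 ≤ M) (hlam : 0 ≤ lam) {C : ℝ}
    {v : Sp (m + 1) → ℝ} (hv : IsSuper m k R M lam C v) {q : ℝ} (hq : q ∈ Icc 0 (R ^ 2)) :
    lam * fM M (Phi m k (R ^ 2) M lam q) * Th m k q
      ≤ Phi m k (R ^ 2) M lam 0 - Phi m k (R ^ 2) M lam q := by
  have hcP := continuous_Phi hk hR hM hlam hv
  have hlt : ∀ p, Phi m k (R ^ 2) M lam p < 1 := fun p =>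
    lt_of_le_of_lt (Phi_le_C hR hM hlam hv p) hv.C_lt
  have hg : Continuous (fun p => lam * fM M (Phi m k (R ^ 2) M lam p)) :=
    continuous_const.mul (continuous_fM_comp hcP hlt)
  have hint : ∀ x y, IntervalIntegrable
      (Dg m k (fun p => lam * fM M (Phi m k (R ^ 2) M lam p))) volume x y :=
    fun x y => (continuous_Dg hg).intervalIntegrable _ _
  have hQ : 0 ≤ R ^ 2 := by positivity
  have e1 : Phi m k (R ^ 2) M lam 0 - Phi m k (R ^ 2) M lam q
      = ∫ p in (0:ℝ)..q, Dg m k (fun p => lam * fM M (Phi m k (R ^ 2) M lam p)) p := by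
    rw [Phi_fix hk hR hM hlam hv ⟨le_rfl, hQ⟩, Phi_fix hk hR hM hlam hv hq]
    unfold Tg
    rw [← intervalIntegral.integral_add_adjacent_intervals (hint 0 q) (hint q (R ^ 2))]
    ring
  rw [e1]
  unfold Th
  rw [← intervalIntegral.integral_const_mul]
  apply intervalIntegral.integral_mono_on hq.1 ((Th_integrable hk le_rfl hq.1).const_mul _)
    (hint 0 q)
  intro p hp
  have hkp := mul_nonneg hk hp.1
  have hden : (0:ℝ) < 2 * (m + 1) + 2 * k * p := by
    have h4 : (0:ℝ) < 2 * ((m:ℝ) + 1) := by positivity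
    linarith
  have hmono : ∀ r s, 0 ≤ r → r ≤ s → s ≤ R ^ 2 →
      lam * fM M (Phi m k (R ^ 2) M lam s) ≤ lam * fM M (Phi m k (R ^ 2) M lam r) := by
    intro r s hr hrs hs
    exact mul_le_mul_of_nonneg_left (fM_mono hM (Phi_nonneg hR hM hlam hv s)
      (Phi_anti hk hR hM hlam hv hr hrs hs) (hlt r)) hlam
  have h1 := Dg_ge (m := m) hk hg hp.1 (by
    have := fM_ge_one hM (hlt p)
    positivity) (fun r hr hrp => hmono r p hr hrp (hp.2.trans hq.2))
  refine le_trans ?_ h1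
  rw [mul_one_div]
  exact div_le_div_of_nonneg_right (hmono p q hp.1 hp.2 hq.2) hden.le

/-- Parameters for which a solution exists. -/
def SolSet (m : ℕ) (k R M : ℝ) : Set ℝ :=
  {lam | 0 < lam ∧ ∃ v, IsSolution (Metric.ball (0 : Sp (m + 1)) R) (drift m k) (fM M) lam v}

lemma solSet_lt (hk : 0 ≤ k) (hR : 0 < R) (hM : 0 ≤ M) {lam : ℝ} (h : lam ∈ SolSet m k R M) :
    lam * Th m k (R ^ 2) < 1 := by
  obtain ⟨h0, w, hw⟩ := h
  obtain ⟨C, hC⟩ := isSuper_of_isSolution hR le_rfl hM hw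
  have hQ : 0 ≤ R ^ 2 := by positivity
  have h1 := Phi_est hk hR hM h0.le hC (q := R ^ 2) ⟨hQ, le_rfl⟩
  have h2 := Phi_le_C hR hM h0.le hC 0
  have h3 := Phi_nonneg hR hM h0.le hC (R ^ 2)
  have h4 := fM_ge_one hM (lt_of_le_of_lt (Phi_le_C hR hM h0.le hC (R ^ 2)) hC.C_lt)
  have h5 : 0 < Th m k (R ^ 2) := Th_pos hk (by positivity)
  have h6 : lam * Th m k (R ^ 2) ≤ lam * fM M (Phi m k (R ^ 2) M lam (R ^ 2)) * Th m k (R ^ 2) := by
    have : lam * 1 ≤ lam * fM M (Phi m k (R ^ 2) M lam (R ^ 2)) :=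
      mul_le_mul_of_nonneg_left h4 h0.le
    rw [mul_one] at this
    exact mul_le_mul_of_nonneg_right this h5.le
  have := hC.C_lt
  linarith

lemma solSet_bddAbove (hk : 0 ≤ k) (hR : 0 < R) (hM : 0 ≤ M) : BddAbove (SolSet m k R M) := by
  have h5 : 0 < Th m k (R ^ 2) := Th_pos hk (by positivity)
  refine ⟨1 / Th m k (R ^ 2), fun lam h => ?_⟩
  rw [le_div_iff₀ h5]
  exact (solSet_lt hk hR hM h).le

lemma solSet_nonempty (hk : 0 ≤ k) (hR : 0 < R) (hM : 0 ≤ M) : (SolSet m k R M).Nonempty := by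
  have hQ : 0 < R ^ 2 := by positivity
  set ε := ((m:ℝ) + 1) / R ^ 2 with hε
  have hεpos : 0 < ε := by positivity
  have hone : Continuous fun _ : ℝ => ε := continuous_const
  set v := uT m k (R ^ 2) (fun _ => ε) with hv
  have hvC : ContDiff ℝ 2 v := contDiff_uT hone
  have hf : 0 < fM M (1 / 2) := by
    have := fM_ge_one hM (by norm_num : (1/2:ℝ) < 1)
    linarith
  have hvn : ∀ x ∈ Metric.closedBall (0 : Sp (m + 1)) R, 0 ≤ v x := by
    intro x hx
    exact Tg_nonneg (by positivity) ((mem_closedBall_iff hR).mp hx) (fun _ _ _ => hεpos.le)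
  have hvle : ∀ x ∈ Metric.closedBall (0 : Sp (m + 1)) R, v x ≤ 1 / 2 := by
    intro x hx
    have hx2 := (mem_closedBall_iff hR).mp hx
    have h1 : v x ≤ ∫ _p in (‖x‖ ^ 2)..(R ^ 2), ε / (2 * ((m:ℝ) + 1)) := by
      show Tg m k (R ^ 2) (fun _ => ε) (‖x‖ ^ 2) ≤ _
      unfold Tg
      apply intervalIntegral.integral_mono_on hx2 ((continuous_Dg hone).intervalIntegrable _ _)
        (by simp)
      intro p hp
      exact Dg_le hk hone ((by positivity : 0 ≤ ‖x‖ ^ 2).trans hp.1) hεpos.le (fun _ _ _ => le_rfl)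
    rw [intervalIntegral.integral_const, smul_eq_mul] at h1
    refine h1.trans ?_
    have h2 : ε / (2 * ((m:ℝ) + 1)) = 1 / (2 * R ^ 2) := by
      rw [hε]
      have : (m:ℝ) + 1 ≠ 0 := by positivity
      field_simp
    rw [h2]
    have h3 : 0 ≤ ‖x‖ ^ 2 := by positivity
    rw [mul_one_div, div_le_div_iff₀ (by positivity) (by norm_num)]
    nlinarith
  refine ⟨ε / fM M (1 / 2), by positivity, uMin m k R M (ε / fM M (1 / 2)), ?_⟩
  have hsup : IsSuper m k R M (ε / fM M (1 / 2)) (1 / 2) v := by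
    refine ⟨hvC.contDiffOn, hvC.continuous.continuousOn, by norm_num, hvn, hvle, ?_⟩
    intro x hx
    rw [hv, Lop_uT hone, ← hv]
    have hx' := Metric.ball_subset_closedBall hx
    have h1 := fM_mono hM (hvn x hx') (hvle x hx') (by norm_num)
    rw [div_mul_eq_mul_div, div_le_iff₀ hf]
    exact mul_le_mul_of_nonneg_left h1 hεpos.le
  exact (isMinimal_uMin hk hR hM (by positivity) hsup).1

/-- The critical parameter. -/
noncomputable def lamS (m : ℕ) (k R M : ℝ) : ℝ := sSup (SolSet m k R M)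

lemma lamS_pos (hk : 0 ≤ k) (hR : 0 < R) (hM : 0 ≤ M) : 0 < lamS m k R M := by
  obtain ⟨l, hl⟩ := solSet_nonempty (m := m) hk hR hM
  exact lt_of_lt_of_le hl.1 (le_csSup (solSet_bddAbove hk hR hM) hl)

lemma lamS_mul_Th_le (hk : 0 ≤ k) (hR : 0 < R) (hM : 0 ≤ M) :
    lamS m k R M * Th m k (R ^ 2) ≤ 1 := by
  have h5 : 0 < Th m k (R ^ 2) := Th_pos hk (by positivity)
  have h1 : lamS m k R M ≤ 1 / Th m k (R ^ 2) := by
    refine csSup_le (solSet_nonempty hk hR hM) fun lam h => ?_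
    rw [le_div_iff₀ h5]
    exact (solSet_lt hk hR hM h).le
  rwa [le_div_iff₀ h5] at h1

lemma exists_super (hk : 0 ≤ k) (hR : 0 < R) (hM : 0 ≤ M) {lam : ℝ}
    (h1 : lam < lamS m k R M) : ∃ C v, IsSuper m k R M lam C v := by
  obtain ⟨l, hl, hll⟩ := exists_lt_of_lt_csSup (solSet_nonempty (m := m) hk hR hM) h1
  obtain ⟨_, w, hw⟩ := hl
  obtain ⟨C, hC⟩ := isSuper_of_isSolution hR hll.le hM hw
  exact ⟨C, w, hC⟩

lemma isMinimal_of_lt (hk : 0 ≤ k) (hR : 0 < R) (hM : 0 ≤ M) {lam : ℝ} (h0 : 0 < lam)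
    (h1 : lam < lamS m k R M) :
    IsMinimalSolution (Metric.ball (0 : Sp (m + 1)) R) (drift m k) (fM M) lam
      (uMin m k R M lam) := by
  obtain ⟨C, v, hv⟩ := exists_super hk hR hM h1
  exact isMinimal_uMin hk hR hM h0.le hv

/-- The extremal function. -/
noncomputable def uStar (m : ℕ) (k R M : ℝ) (x : Sp (m + 1)) : ℝ :=
  sSup ((fun lam => uMin m k R M lam x) '' Ioo 0 (lamS m k R M))

lemma uMin_mono (hk : 0 ≤ k) (hR : 0 < R) (hM : 0 ≤ M) {lam mu : ℝ} (h0 : 0 < lam)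
    (h1 : lam ≤ mu) (h2 : mu < lamS m k R M) {x : Sp (m + 1)}
    (hx : x ∈ Metric.ball (0 : Sp (m + 1)) R) : uMin m k R M lam x ≤ uMin m k R M mu x := by
  have s2 := (isMinimal_of_lt hk hR hM (h0.trans_le h1) h2).1
  obtain ⟨C, hC⟩ := isSuper_of_isSolution hR h1 hM s2
  have hx' := Metric.ball_subset_closedBall hx
  rw [uMin_eq hk hR hM h0.le hC hx']
  exact Phi_le hR hM h0.le hC hx'

theorem isBranch_ball (hk : 0 ≤ k) (hR : 0 < R) (hM : 0 ≤ M) :
    IsBranch (Metric.ball (0 : Sp (m + 1)) R) (drift m k) (fM M) (lamS m k R M)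
      (uMin m k R M) (uStar m k R M) where
  pos := lamS_pos hk hR hM
  minimal := fun lam h0 h1 => isMinimal_of_lt hk hR hM h0 h1
  none_above := by
    intro lam hlam v hv
    have h0 := (lamS_pos (m := m) hk hR hM).trans hlam
    have : lam ∈ SolSet m k R M := ⟨h0, v, hv⟩
    exact absurd (le_csSup (solSet_bddAbove hk hR hM) this) (not_le.mpr hlam)
  mono := fun lam mu h0 h1 h2 x hx => uMin_mono hk hR hM h0 h1 h2 hx
  limit := by
    intro x hx
    refine MonotoneOn.tendsto_nhdsWithin_Ioo_left (nonempty_Ioo.mpr (lamS_pos hk hR hM)) ?_ ?_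
    · intro a ha b hb hab
      exact uMin_mono hk hR hM ha.1 hab hb.2 hx
    · refine ⟨1, ?_⟩
      rintro _ ⟨lam, hl, rfl⟩
      exact ((isMinimal_of_lt hk hR hM hl.1 hl.2).1.range x (subset_closure hx)).2.le

end Pool.Agent.Lib.MP_2166fc_an
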