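import Mathlib
import Pool.Agent.Lib.MP_2166fc_an.Defs
import Pool.Agent.Lib.MP_2166fc_an.Calc
import Pool.Agent.Lib.MP_2166fc_an.FM
import Pool.Agent.Lib.MP_2166fc_an.Branch
import Pool.Agent.Lib.MP_2166fc_an.Radial
import Pool.Agent.Lib.MP_2166fc_an.Kern
import Pool.Agent.Lib.MP_2166fc_an.RadialSolve
import Pool.Agent.Lib.MP_2166fc_an.Picard
import Pool.Agent.Lib.MP_2166fc_an.BallBranch

set_option autoImplicit false

open Set Filter Topology InnerProductSpace Laplacian MeasureTheory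
open scoped ContDiff

namespace Pool.Agent.Lib.MP_2166fc_an

variable {m : ℕ} {k R M : ℝ}

/-- Second order expansion of `f_M`. -/
lemma fM_expand {a s C : ℝ} (hM : 0 ≤ M) (hs : 0 ≤ s) (has : a + s ≤ C) (hC : C < 1) :
    fM M (a + s) ≤ fM M a + s * (M * (a / (1 - a))) + M * s ^ 2 / (1 - C) ^ 2 := by
  have h1 : 0 < 1 - (a + s) := by linarith
  have h2 : 0 < 1 - a := by linarith
  have h3 : 0 < 1 - C := by linarith
  have ht := fM_tangent hM (by linarith : a + s < 1) (by linarith : a < 1) (M := M)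
  have e1 : (a + s) / (1 - (a + s)) = a / (1 - a) + s / ((1 - a) * (1 - (a + s))) := by
    field_simp
    ring
  have h4 : s / ((1 - a) * (1 - (a + s))) ≤ s / (1 - C) ^ 2 := by
    apply div_le_div_of_nonneg_left hs (by positivity)
    rw [sq]
    exact mul_le_mul (by linarith) (by linarith) h3.le h2.le
  have h5 : s * (M * ((a + s) / (1 - (a + s)))) ≤ s * (M * (a / (1 - a) + s / (1 - C) ^ 2)) := by
    rw [e1]
    exact mul_le_mul_of_nonneg_left (mul_le_mul_of_nonneg_left (by linarith) hM) hs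
  have e2 : s * (M * (a / (1 - a) + s / (1 - C) ^ 2))
      = s * (M * (a / (1 - a))) + M * s ^ 2 / (1 - C) ^ 2 := by
    field_simp
  have e3 : M * ((a + s) / (1 - (a + s))) * (a - (a + s))
      = -(s * (M * ((a + s) / (1 - (a + s))))) := by ring
  linarith

lemma uMin_le_uStar (hk : 0 ≤ k) (hR : 0 < R) (hM : 0 ≤ M) {lam : ℝ} (h0 : 0 < lam)
    (h1 : lam < lamS m k R M) {x : Sp (m + 1)} (hx : x ∈ Metric.ball (0 : Sp (m + 1)) R) :
    uMin m k R M lam x ≤ uStar m k R M x := by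
  unfold uStar
  refine le_csSup ⟨1, ?_⟩ ⟨lam, ⟨h0, h1⟩, rfl⟩
  rintro _ ⟨l, hl, rfl⟩
  exact ((isMinimal_of_lt hk hR hM hl.1 hl.2).1.range x (subset_closure hx)).2.le

/-- A uniform strict barrier for the linearized operator makes the extremal function singular. -/
theorem not_classical (hk : 0 ≤ k) (hR : 0 < R) (hM : 0 < M) {C0 : ℝ} (hC00 : 0 ≤ C0)
    (hC01 : C0 < 1)
    (hC : ∀ lam, 0 < lam → lam < lamS m k R M → ∀ x ∈ Metric.closedBall (0 : Sp (m + 1)) R,
      uMin m k R M lam x ≤ C0)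
    {ψ : Sp (m + 1) → ℝ} (hψ : ContDiff ℝ 2 ψ) (hψpos : ∀ x, 0 < ψ x) {m0 : ℝ} (hm0 : 0 < m0)
    (hbar : ∀ lam, 0 < lam → lam < lamS m k R M → ∀ x ∈ Metric.ball (0 : Sp (m + 1)) R,
      lam * (M * (uMin m k R M lam x / (1 - uMin m k R M lam x))) * ψ x + m0 * ψ x
        ≤ Lop (drift m k) ψ x) : False := by
  have hcl := closure_ball_eq (m := m) hR
  have hcomp : IsCompact (Metric.closedBall (0 : Sp (m + 1)) R) := isCompact_closedBall 0 R
  have hne : (Metric.closedBall (0 : Sp (m + 1)) R).Nonempty := ⟨0, by simp [hR.le]⟩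
  obtain ⟨x1, hx1, hmin⟩ := hcomp.exists_isMinOn hne hψ.continuous.continuousOn
  obtain ⟨x2, hx2, hmax⟩ := hcomp.exists_isMaxOn hne hψ.continuous.continuousOn
  set pmin := ψ x1 with hpmin
  set pmax := ψ x2 with hpmax
  have hp1 : 0 < pmin := hψpos x1
  have hp2 : 0 < pmax := hψpos x2
  have hge : ∀ x ∈ Metric.closedBall (0 : Sp (m + 1)) R, pmin ≤ ψ x := fun x hx => hmin hx
  have hle : ∀ x ∈ Metric.closedBall (0 : Sp (m + 1)) R, ψ x ≤ pmax := fun x hx => hmax hx
  set L := lamS m k R M with hL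
  have hLpos : 0 < L := lamS_pos hk hR hM.le
  set C' := (1 + C0) / 2 with hC'
  have hC'1 : C' < 1 := by rw [hC']; linarith
  have hd' : 0 < 1 - C' := by linarith
  have hd0 : 0 < 1 - C0 := by linarith
  set th := min ((1 - C0) / (2 * pmax)) (m0 * (1 - C') ^ 2 / (4 * L * M * pmax)) with hth
  have hthpos : 0 < th := lt_min (by positivity) (by positivity)
  have hth1 : th * pmax ≤ (1 - C0) / 2 := by
    have : th ≤ (1 - C0) / (2 * pmax) := min_le_left _ _
    rw [le_div_iff₀ (by positivity)] at this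
    linarith
  have hth2 : 2 * L * M * (th * pmax) / (1 - C') ^ 2 ≤ m0 / 2 := by
    have : th ≤ m0 * (1 - C') ^ 2 / (4 * L * M * pmax) := min_le_right _ _
    rw [le_div_iff₀ (by positivity)] at this
    rw [div_le_iff₀ (by positivity)]
    linarith
  set A := fM M C0 + M * (C0 / (1 - C0)) with hA
  have hA1 : 1 ≤ A := by
    have h1 := fM_ge_one hM.le hC01
    have h2 : 0 ≤ M * (C0 / (1 - C0)) := by positivity
    linarith
  set d := min (L / 2) (m0 * (th * pmin) / (4 * A)) with hd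
  have hdpos : 0 < d := lt_min (by positivity) (by positivity)
  have hd1 : d ≤ L / 2 := min_le_left _ _
  have hd2 : 2 * d * A ≤ m0 / 2 * (th * pmin) := by
    have : d ≤ m0 * (th * pmin) / (4 * A) := min_le_right _ _
    rw [le_div_iff₀ (by positivity)] at this
    linarith
  set lam := L - d with hlam
  have hl0 : 0 < lam := by linarith
  have hl1 : lam < L := by linarith
  have hu := isMinimal_of_lt (m := m) hk hR hM.le hl0 hl1
  have hur := hu.1.regular
  have huc : ContinuousOn (uMin m k R M lam) (Metric.closedBall (0 : Sp (m + 1)) R) :=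
    hcl ▸ hu.1.continuousOn
  have hsuper : IsSuper m k R M (L + d) C' (fun x => uMin m k R M lam x + th * ψ x) := by
    refine ⟨hur.add (contDiffOn_const.mul hψ.contDiffOn),
      huc.add (continuousOn_const.mul hψ.continuous.continuousOn), hC'1, ?_, ?_, ?_⟩
    · intro x hx
      have h1 := (hu.1.range x (hcl ▸ hx)).1
      have h2 := hψpos x
      positivity
    · intro x hx
      have h1 := hC lam hl0 hl1 x hx
      have h2 : th * ψ x ≤ th * pmax := mul_le_mul_of_nonneg_left (hle x hx) hthpos.le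
      show uMin m k R M lam x + th * ψ x ≤ C'
      rw [hC']; linarith
    · intro x hx
      have hx' := Metric.ball_subset_closedBall hx
      have hnh := Metric.isOpen_ball.mem_nhds hx
      rw [Lop_add (hur.contDiffAt hnh) (ContDiffAt.mul contDiffAt_const hψ.contDiffAt),
        Lop_const_mul th hψ.contDiffAt, hu.1.lop hx]
      have hb := mul_le_mul_of_nonneg_left (hbar lam hl0 hl1 x hx) hthpos.le
      set a := uMin m k R M lam x with ha
      set s := th * ψ x with hs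
      have hs0 : 0 < s := mul_pos hthpos (hψpos x)
      have ha0 : 0 ≤ a := (hu.1.range x (hcl ▸ hx')).1
      have ha1 : a ≤ C0 := hC lam hl0 hl1 x hx'
      have hs1 : s ≤ th * pmax := mul_le_mul_of_nonneg_left (hle x hx') hthpos.le
      have hs2 : th * pmin ≤ s := mul_le_mul_of_nonneg_left (hge x hx') hthpos.le
      have hsC : a + s ≤ C' := by rw [hC']; linarith
      have hs3 : s ≤ 1 := by linarith
      have hexp := fM_expand (M := M) hM.le hs0.le hsC hC'1
      have hf1 : fM M a ≤ fM M C0 := fM_mono hM.le ha0 ha1 hC01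
      have hf0 : 1 ≤ fM M a := fM_ge_one hM.le (lt_of_le_of_lt ha1 hC01)
      have hg1 : a / (1 - a) ≤ C0 / (1 - C0) := by
        rw [div_le_div_iff₀ (by linarith) hd0]
        nlinarith
      have hg0 : 0 ≤ a / (1 - a) := div_nonneg ha0 (by linarith)
      have hA2 : fM M a + s * (M * (a / (1 - a))) ≤ A := by
        have q1 : M * (a / (1 - a)) ≤ M * (C0 / (1 - C0)) := mul_le_mul_of_nonneg_left hg1 hM.le
        have q2 : 0 ≤ M * (a / (1 - a)) := by positivity
        have q3 : s * (M * (a / (1 - a))) ≤ 1 * (M * (a / (1 - a))) :=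
          mul_le_mul_of_nonneg_right hs3 q2
        rw [hA]; linarith
      have hq : (L + d) * (M * s ^ 2 / (1 - C') ^ 2) ≤ m0 / 2 * s := by
        have q1 : (L + d) * (M * s ^ 2 / (1 - C') ^ 2) ≤ (2 * L) * (M * s ^ 2 / (1 - C') ^ 2) :=
          mul_le_mul_of_nonneg_right (by linarith) (by positivity)
        have q2 : (2 * L) * (M * s ^ 2 / (1 - C') ^ 2) = 2 * L * M * s / (1 - C') ^ 2 * s := by
          field_simp
        have q3 : 2 * L * M * s / (1 - C') ^ 2 ≤ 2 * L * M * (th * pmax) / (1 - C') ^ 2 := by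
          apply div_le_div_of_nonneg_right _ (by positivity)
          exact mul_le_mul_of_nonneg_left hs1 (by positivity)
        have q4 := mul_le_mul_of_nonneg_right (q3.trans hth2) hs0.le
        linarith
      have hLd : 0 < L + d := by linarith
      have h1 := mul_le_mul_of_nonneg_left hexp hLd.le
      have h2 : (2 * d) * (fM M a + s * (M * (a / (1 - a)))) ≤ (2 * d) * A :=
        mul_le_mul_of_nonneg_left hA2 (by linarith)
      have h3 : L + d = lam + 2 * d := by rw [hlam]; ring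
      have h4 : (L + d) * (fM M a + s * (M * (a / (1 - a))) + M * s ^ 2 / (1 - C') ^ 2)
          = lam * fM M a + lam * (s * (M * (a / (1 - a))))
            + (2 * d) * (fM M a + s * (M * (a / (1 - a))))
            + (L + d) * (M * s ^ 2 / (1 - C') ^ 2) := by
        rw [h3]; ring
      rw [h4] at h1
      have h5 : th * (lam * (M * (a / (1 - a))) * ψ x + m0 * ψ x)
          = lam * (s * (M * (a / (1 - a)))) + m0 * s := by
        rw [hs]; ring
      rw [h5] at hb
      have h6 : m0 / 2 * (th * pmin) ≤ m0 / 2 * s := mul_le_mul_of_nonneg_left hs2 (by positivity)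
      show (L + d) * fM M (a + s) ≤ _
      linarith
  have hsol := (isMinimal_uMin hk hR hM.le (by linarith : 0 ≤ L + d) hsuper).1
  have hmem : L + d ∈ SolSet m k R M := ⟨by linarith, _, hsol⟩
  have := le_csSup (solSet_bddAbove hk hR hM.le) hmem
  have h2 : L + d ≤ L := this
  linarith

/-- Estimate of the linearized potential. -/
lemma V_est (hk : 0 ≤ k) (hR : 0 < R) (hM : 0 < M) {lam : ℝ} (h0 : 0 < lam)
    (h1 : lam < lamS m k R M) {x : Sp (m + 1)} (hx : x ∈ Metric.closedBall (0 : Sp (m + 1)) R) :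
    lam * (M * (uMin m k R M lam x / (1 - uMin m k R M lam x)))
      * (fM M (uMin m k R M lam x) * Th m k (‖x‖ ^ 2)) ≤ M * uMin m k R M lam x := by
  obtain ⟨C, v, hv⟩ := exists_super (m := m) hk hR hM.le h1
  have hq : ‖x‖ ^ 2 ∈ Icc 0 (R ^ 2) := ⟨by positivity, (mem_closedBall_iff hR).mp hx⟩
  have hest := Phi_est hk hR hM.le h0.le hv hq
  rw [uMin_eq hk hR hM.le h0.le hv hx]
  set a := Phi m k (R ^ 2) M lam (‖x‖ ^ 2) with ha
  have ha0 : 0 ≤ a := Phi_nonneg hR hM.le h0.le hv _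
  have ha1 : a < 1 := lt_of_le_of_lt (Phi_le_C hR hM.le h0.le hv _) hv.C_lt
  have hP0 : Phi m k (R ^ 2) M lam 0 < 1 :=
    lt_of_le_of_lt (Phi_le_C hR hM.le h0.le hv _) hv.C_lt
  have hd : 0 < 1 - a := by linarith
  have h2 : lam * fM M a * Th m k (‖x‖ ^ 2) ≤ 1 - a := by linarith
  have e : lam * (M * (a / (1 - a))) * (fM M a * Th m k (‖x‖ ^ 2))
      = (M * a) * ((lam * fM M a * Th m k (‖x‖ ^ 2)) / (1 - a)) := by
    field_simp
  rw [e]
  have h3 : (lam * fM M a * Th m k (‖x‖ ^ 2)) / (1 - a) ≤ 1 := (div_le_one hd).mpr h2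
  have h4 : 0 ≤ M * a := by positivity
  calc (M * a) * ((lam * fM M a * Th m k (‖x‖ ^ 2)) / (1 - a)) ≤ (M * a) * 1 :=
        mul_le_mul_of_nonneg_left h3 h4
    _ = M * a := mul_one _

/-! ### The barrier `(|x|² + ρ)^(-b)` -/

/-- The barrier. -/
noncomputable def bar (m : ℕ) (ρ b : ℝ) (x : Sp (m + 1)) : ℝ := (‖x‖ ^ 2 + ρ) ^ (-b)

lemma bar_pos {ρ b : ℝ} (hρ : 0 < ρ) (x : Sp (m + 1)) : 0 < bar m ρ b x :=
  Real.rpow_pos_of_pos (by positivity) _

lemma contDiff_bar {ρ b : ℝ} (hρ : 0 < ρ) : ContDiff ℝ 2 (bar m ρ b) := by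
  unfold bar
  apply ContDiff.rpow_const_of_ne
  · exact (contDiff_id.norm_sq ℝ).add contDiff_const
  · intro x; positivity

lemma Lop_bar_ge {ρ b : ℝ} (hρ : 0 < ρ) (hb : 0 < b) (x : Sp (m + 1)) :
    b / (‖x‖ ^ 2 + ρ) * (2 * (m + 1) - 4 * b - 4 + 2 * k * ‖x‖ ^ 2) * bar m ρ b x
      ≤ Lop (drift m k) (bar m ρ b) x := by
  have hq0 : 0 ≤ ‖x‖ ^ 2 := by positivity
  have hpos : 0 < ‖x‖ ^ 2 + ρ := by positivity
  have hlin : ∀ q : ℝ, HasDerivAt (fun q : ℝ => q + ρ) 1 q := fun q => (hasDerivAt_id q).add_const ρ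
  have hev : ∀ᶠ q in 𝓝 (‖x - 0‖ ^ 2), 0 < q + ρ := by
    have hc : ContinuousAt (fun q : ℝ => q + ρ) (‖x - 0‖ ^ 2) := by fun_prop
    rw [sub_zero] at hc ⊢
    exact hc.eventually (lt_mem_nhds hpos)
  have h1 : ∀ q : ℝ, 0 < q + ρ → HasDerivAt (fun q : ℝ => (q + ρ) ^ (-b))
      (-b * (q + ρ) ^ (-b - 1)) q := by
    intro q hq
    have := (hlin q).rpow_const (p := -b) (Or.inl hq.ne')
    refine this.congr_deriv ?_
    ring
  have h2 : HasDerivAt (fun q : ℝ => -b * (q + ρ) ^ (-b - 1))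
      (b * (b + 1) * (‖x‖ ^ 2 + ρ) ^ (-b - 2)) (‖x - 0‖ ^ 2) := by
    rw [sub_zero]
    have := ((hlin (‖x‖ ^ 2)).rpow_const (p := -b - 1) (Or.inl hpos.ne')).const_mul (-b)
    refine this.congr_deriv ?_
    have e : -b - 1 - 1 = -b - 2 := by ring
    rw [e]; ring
  have hlap := lap_radial (x0 := (0 : Sp (m + 1))) (x := x)
    (by filter_upwards [hev] with q hq using h1 q hq) h2
  simp only [sub_zero] at hlap
  have hfd := hasFDerivAt_radial (x0 := (0 : Sp (m + 1))) (x := x)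
    (h1 (‖x - 0‖ ^ 2) (by rw [sub_zero]; exact hpos))
  simp only [sub_zero] at hfd
  have hbar : bar m ρ b = fun y : Sp (m + 1) => (‖y‖ ^ 2 + ρ) ^ (-b) := rfl
  unfold Lop
  rw [hbar, hlap, hfd.fderiv, _root_.smul_apply, BL_apply]
  unfold drift
  rw [inner_neg_right, inner_smul_right, real_inner_self_eq_norm_sq, smul_eq_mul]
  have e1 : (‖x‖ ^ 2 + ρ) ^ (-b - 1) = (‖x‖ ^ 2 + ρ) ^ (-b) / (‖x‖ ^ 2 + ρ) :=
    Real.rpow_sub_one hpos.ne' _
  have e2 : (‖x‖ ^ 2 + ρ) ^ (-b - 2) = (‖x‖ ^ 2 + ρ) ^ (-b) / (‖x‖ ^ 2 + ρ) ^ 2 := by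
    have := Real.rpow_sub_natCast hpos.ne' (-b) 2
    simpa using this
  rw [e1, e2]
  have hP : 0 < (‖x‖ ^ 2 + ρ) ^ (-b) := Real.rpow_pos_of_pos hpos _
  set P := (‖x‖ ^ 2 + ρ) ^ (-b)
  set q := ‖x‖ ^ 2 with hq
  push_cast
  have e3 : -(4 * q * (b * (b + 1) * (P / (q + ρ) ^ 2)) + 2 * (↑m + 1) * (-b * (P / (q + ρ))))
      + 2 * (-b * (P / (q + ρ))) * -(k * q)
      = b / (q + ρ) * (2 * (m + 1) + 2 * k * q - 4 * (b + 1) * (q / (q + ρ))) * P := by
    field_simp
    ring
  rw [e3]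
  apply mul_le_mul_of_nonneg_right _ hP.le
  apply mul_le_mul_of_nonneg_left _ (by positivity)
  have h5 : q / (q + ρ) ≤ 1 := (div_le_one hpos).mpr (by linarith)
  nlinarith

end Pool.Agent.Lib.MP_2166fc_an
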