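import Mathlib
import Pool.Agent.Lib.MP_2166fc_an.Defs
import Pool.Agent.Lib.MP_2166fc_an.Calc

set_option autoImplicit false

open Set Filter Topology InnerProductSpace Laplacian MeasureTheory
open scoped ContDiff

namespace Pool.Agent.Lib.MP_2166fc_an

variable {n : ℕ}

lemma integral_fderiv_eq_zero {X : Sp n → ℝ} (hX : ContDiff ℝ 1 X) (hc : HasCompactSupport X)
    (v : Sp n) : ∫ x, fderiv ℝ X x v = 0 := by
  have hcont : Continuous fun x => fderiv ℝ X x v :=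
    (hX.continuous_fderiv (by norm_num)).clm_apply continuous_const
  have hcs : HasCompactSupport fun x => fderiv ℝ X x v := hc.fderiv_apply (𝕜 := ℝ) v
  have key := integral_bilinear_hasLineDerivAt_right_eq_neg_left_of_integrable
    (μ := (volume : Measure (Sp n))) (B := ContinuousLinearMap.mul ℝ ℝ)
    (f := fun _ : Sp n => (1:ℝ)) (f' := fun _ => 0) (g := X) (g' := fun x => fderiv ℝ X x v)
    (v := v) (by simp) (by simpa using hcont.integrable_of_hasCompactSupport hcs)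
    (by simpa using hX.continuous.integrable_of_hasCompactSupport hc)
    (fun x _ => by
      have := (hasFDerivAt_const (1:ℝ) x).hasLineDerivAt v (𝕜 := ℝ) (E := Sp n)
      simpa using this)
    (fun x _ => ((hX.differentiable (by norm_num)) x).hasFDerivAt.hasLineDerivAt v)
  simpa using key

lemma contDiff_glue {Ω K : Set (Sp n)} (hΩ : IsOpen Ω) (hK : IsClosed K) (hKΩ : K ⊆ Ω)
    {X : Sp n → ℝ} {k : WithTop ℕ∞} (hX : ContDiffOn ℝ k X Ω) (h0 : ∀ x, x ∉ K → X x = 0) :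
    ContDiff ℝ k X := by
  rw [contDiff_iff_contDiffAt]
  intro x
  by_cases hx : x ∈ K
  · exact hX.contDiffAt (hΩ.mem_nhds (hKΩ hx))
  · have : X =ᶠ[𝓝 x] fun _ => 0 := by
      filter_upwards [hK.isOpen_compl.mem_nhds hx] with y hy
      exact h0 y hy
    exact contDiffAt_const.congr_of_eventuallyEq this

/-! ### Primitives of the test profile -/

/-- `G(s) = ∫_0^s g`. -/
noncomputable def Gp (g : ℝ → ℝ) (s : ℝ) : ℝ := ∫ t in (0:ℝ)..s, g t
/-- `H(s) = ∫_0^s g²`. -/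
noncomputable def Hp (g : ℝ → ℝ) (s : ℝ) : ℝ := ∫ t in (0:ℝ)..s, (g t) ^ 2
/-- `K(s) = ∫_0^s (G g - H)`. -/
noncomputable def Kp (g : ℝ → ℝ) (s : ℝ) : ℝ := ∫ t in (0:ℝ)..s, (Gp g t * g t - Hp g t)

section prim

variable {g : ℝ → ℝ} (hg : Continuous g)
include hg

lemma hasDerivAt_Gp (s : ℝ) : HasDerivAt (Gp g) (g s) s :=
  hg.integral_hasStrictDerivAt 0 s |>.hasDerivAt

lemma hasDerivAt_Hp (s : ℝ) : HasDerivAt (Hp g) ((g s) ^ 2) s :=
  (hg.pow 2).integral_hasStrictDerivAt 0 s |>.hasDerivAt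

lemma continuous_Gp : Continuous (Gp g) :=
  continuous_iff_continuousAt.mpr fun s => (hasDerivAt_Gp hg s).continuousAt

lemma continuous_Hp : Continuous (Hp g) :=
  continuous_iff_continuousAt.mpr fun s => (hasDerivAt_Hp hg s).continuousAt

lemma hasDerivAt_Kp (s : ℝ) : HasDerivAt (Kp g) (Gp g s * g s - Hp g s) s :=
  (((continuous_Gp hg).mul hg).sub (continuous_Hp hg)).integral_hasStrictDerivAt 0 s |>.hasDerivAt

lemma contDiff_Gp : ContDiff ℝ 1 (Gp g) := by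
  rw [contDiff_one_iff_deriv]
  refine ⟨fun s => (hasDerivAt_Gp hg s).differentiableAt, ?_⟩
  have : deriv (Gp g) = g := by ext s; exact (hasDerivAt_Gp hg s).deriv
  rw [this]; exact hg

lemma contDiff_Hp : ContDiff ℝ 1 (Hp g) := by
  rw [contDiff_one_iff_deriv]
  refine ⟨fun s => (hasDerivAt_Hp hg s).differentiableAt, ?_⟩
  have : deriv (Hp g) = fun s => (g s) ^ 2 := by ext s; exact (hasDerivAt_Hp hg s).deriv
  rw [this]; exact hg.pow 2

lemma contDiff_Kp : ContDiff ℝ 1 (Kp g) := by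
  rw [contDiff_one_iff_deriv]
  refine ⟨fun s => (hasDerivAt_Kp hg s).differentiableAt, ?_⟩
  have : deriv (Kp g) = fun s => Gp g s * g s - Hp g s := by
    ext s; exact (hasDerivAt_Kp hg s).deriv
  rw [this]; exact ((continuous_Gp hg).mul hg).sub (continuous_Hp hg)

end prim

section bounds

variable {g : ℝ → ℝ} {δ : ℝ}

lemma Gp_zero (hg0 : ∀ s ≤ δ, g s = 0) (hδ : 0 ≤ δ) {s : ℝ} (hs : s ≤ δ) : Gp g s = 0 := by
  unfold Gp
  rw [intervalIntegral.integral_congr (g := fun _ => (0:ℝ))]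
  · simp
  · intro t ht
    apply hg0
    rcases le_total 0 s with h | h
    · rw [uIcc_of_le h] at ht; exact ht.2.trans hs
    · rw [uIcc_of_ge h] at ht; exact ht.2.trans hδ

lemma Hp_zero (hg0 : ∀ s ≤ δ, g s = 0) (hδ : 0 ≤ δ) {s : ℝ} (hs : s ≤ δ) : Hp g s = 0 := by
  unfold Hp
  rw [intervalIntegral.integral_congr (g := fun _ => (0:ℝ))]
  · simp
  · intro t ht
    have : g t = 0 := by
      apply hg0
      rcases le_total 0 s with h | h
      · rw [uIcc_of_le h] at ht; exact ht.2.trans hs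
      · rw [uIcc_of_ge h] at ht; exact ht.2.trans hδ
    simp [this]

lemma Kp_zero (hg0 : ∀ s ≤ δ, g s = 0) (hδ : 0 ≤ δ) {s : ℝ} (hs : s ≤ δ) : Kp g s = 0 := by
  unfold Kp
  rw [intervalIntegral.integral_congr (g := fun _ => (0:ℝ))]
  · simp
  · intro t ht
    have htδ : t ≤ δ := by
      rcases le_total 0 s with h | h
      · rw [uIcc_of_le h] at ht; exact ht.2.trans hs
      · rw [uIcc_of_ge h] at ht; exact ht.2.trans hδ
    simp [hg0 t htδ, Hp_zero hg0 hδ htδ]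

lemma Gp_nonneg (hgn : ∀ s, 0 ≤ s → 0 ≤ g s) {s : ℝ} (hs : 0 ≤ s) : 0 ≤ Gp g s :=
  intervalIntegral.integral_nonneg hs fun t ht => hgn t ht.1

lemma Hp_nonneg {s : ℝ} (hs : 0 ≤ s) : 0 ≤ Hp g s :=
  intervalIntegral.integral_nonneg hs fun _ _ => sq_nonneg _

lemma Hp_le (hg : Continuous g) (hgn : ∀ s, 0 ≤ s → 0 ≤ g s) {s : ℝ}
    (hmono : ∀ t, 0 ≤ t → t ≤ s → g t ≤ g s) (hs : 0 ≤ s) : Hp g s ≤ g s * Gp g s := by
  unfold Hp Gp
  rw [← intervalIntegral.integral_const_mul]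
  apply intervalIntegral.integral_mono_on hs ((hg.pow 2).intervalIntegrable _ _)
    ((continuous_const.mul hg).intervalIntegrable _ _)
  intro t ht
  rw [sq]
  exact mul_le_mul_of_nonneg_right (hmono t ht.1 ht.2) (hgn t ht.1)

lemma Kp_nonneg (hg : Continuous g) (hgn : ∀ s, 0 ≤ s → 0 ≤ g s) {s : ℝ}
    (hmono : ∀ t r, 0 ≤ t → t ≤ r → r ≤ s → g t ≤ g r) (hs : 0 ≤ s) : 0 ≤ Kp g s := by
  unfold Kp
  apply intervalIntegral.integral_nonneg hs
  intro t ht
  have := Hp_le hg hgn (fun r hr hrt => hmono r t hr hrt ht.2) ht.1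
  linarith [mul_comm (g t) (Gp g t)]

lemma Kp_le (hg : Continuous g) {s : ℝ} (hs : 0 ≤ s) : Kp g s ≤ (Gp g s) ^ 2 / 2 := by
  have h1 : ∫ t in (0:ℝ)..s, Gp g t * g t = (Gp g s) ^ 2 / 2 := by
    have hd : ∀ t ∈ uIcc 0 s, HasDerivAt (fun t => (Gp g t) ^ 2 / 2) (Gp g t * g t) t := by
      intro t _
      refine (((hasDerivAt_Gp hg t).pow 2).div_const 2).congr_deriv ?_
      simp; ring
    rw [intervalIntegral.integral_eq_sub_of_hasDerivAt hd
      (((continuous_Gp hg).mul hg).intervalIntegrable _ _)]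
    have : Gp g 0 = 0 := by simp [Gp]
    rw [this]; ring
  rw [← h1]
  unfold Kp
  apply intervalIntegral.integral_mono_on hs
    ((((continuous_Gp hg).mul hg).sub (continuous_Hp hg)).intervalIntegrable _ _)
    (((continuous_Gp hg).mul hg).intervalIntegrable _ _)
  intro t ht
  have := Hp_nonneg (g := g) ht.1
  simp only [Pi.mul_apply, Pi.sub_apply]
  linarith

end bounds

/-! ### The vector field and the pointwise inequality -/

lemma hasDerivAt_line0 {w : Sp n → ℝ} {x : Sp n} (v : Sp n) (h : ContDiffAt ℝ 1 w x) :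
    HasDerivAt (fun t : ℝ => w (x + t • v)) (fderiv ℝ w x v) 0 := by
  have h1 : DifferentiableAt ℝ w (x + (0:ℝ) • v) := by
    simpa using h.differentiableAt (by norm_num)
  have := deriv_line h1
  simpa using this

lemma hasDerivAt_line1 {w : Sp n → ℝ} {x : Sp n} (v : Sp n) (h : ContDiffAt ℝ 2 w x) :
    HasDerivAt (fun t : ℝ => fderiv ℝ w (x + t • v) v) (fderiv ℝ (fderiv ℝ w) x v v) 0 := by
  have h2 : HasDerivAt (fun s : ℝ => x + s • v) v 0 := by
    have := ((hasDerivAt_id (0:ℝ)).smul_const v).const_add x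
    simpa using this
  have h3 : HasFDerivAt (fderiv ℝ w) (fderiv ℝ (fderiv ℝ w) x) (x + (0:ℝ) • v) := by
    simpa using (fderiv_differentiableAt h).hasFDerivAt
  have h4 := h3.comp_hasDerivAt (0:ℝ) h2
  have := h4.clm_apply (hasDerivAt_const (0:ℝ) v)
  simpa using this

/-- Components of the vector field used in the integral inequality. -/
noncomputable def Xf (g : ℝ → ℝ) (u z η : Sp n → ℝ) (v : Sp n) (x : Sp n) : ℝ :=
  (Gp g (u x)) ^ 2 * (η x) ^ 2 * (fderiv ℝ z x v) / z x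
    - Hp g (u x) * (η x) ^ 2 * (fderiv ℝ u x v)
    - Kp g (u x) * (fderiv ℝ (fun y => (η y) ^ 2) x v)

lemma Xf_line {g : ℝ → ℝ} (hg : Continuous g) {u z η : Sp n → ℝ} {x v : Sp n}
    (hu : ContDiffAt ℝ 2 u x) (hz : ContDiffAt ℝ 2 z x) (hη : ContDiffAt ℝ 2 η x)
    (hzpos : 0 < z x) :
    ∃ X' : ℝ, HasDerivAt (fun t : ℝ => Xf g u z η v (x + t • v)) X' 0 ∧
      X' ≤ (Gp g (u x)) ^ 2 * (η x) ^ 2 * (fderiv ℝ (fderiv ℝ z) x v v) / z x
        - Hp g (u x) * (η x) ^ 2 * (fderiv ℝ (fderiv ℝ u) x v v)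
        - Kp g (u x) * (fderiv ℝ (fderiv ℝ (fun y => (η y) ^ 2)) x v v)
        + (Gp g (u x)) ^ 2 * (fderiv ℝ η x v) ^ 2 := by
  have one_le_two' : (1 : WithTop ℕ∞) ≤ 2 := by norm_num
  have u0 := hasDerivAt_line0 v (hu.of_le one_le_two')
  have u1 := hasDerivAt_line1 v hu
  have z0 := hasDerivAt_line0 v (hz.of_le one_le_two')
  have z1 := hasDerivAt_line1 v hz
  have η0 := hasDerivAt_line0 v (hη.of_le one_le_two')
  have he : ContDiffAt ℝ 2 (fun y => (η y) ^ 2) x := hη.pow 2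
  have e1 := hasDerivAt_line1 v he
  have e0 : fderiv ℝ (fun y => (η y) ^ 2) x v = 2 * η x * fderiv ℝ η x v := by
    have h1 := hasDerivAt_line0 v (he.of_le one_le_two')
    have h2 := η0.pow 2
    have h3 := h1.unique h2
    rw [h3]; simp
  have x0 : x + (0:ℝ) • v = x := by simp
  have G0 := (hasDerivAt_Gp hg (u (x + (0:ℝ) • v))).comp (0:ℝ) u0
  have H0 := (hasDerivAt_Hp hg (u (x + (0:ℝ) • v))).comp (0:ℝ) u0
  have K0 := (hasDerivAt_Kp hg (u (x + (0:ℝ) • v))).comp (0:ℝ) u0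
  have zne : z (x + (0:ℝ) • v) ≠ 0 := by rw [x0]; exact hzpos.ne'
  have T1 := (((G0.pow 2).mul (η0.pow 2)).mul z1).div z0 zne
  have T2 := (H0.mul (η0.pow 2)).mul u1
  have T3 := K0.mul e1
  have T := (T1.sub T2).sub T3
  refine ⟨_, T, ?_⟩
  simp only [Function.comp_apply, x0, Pi.mul_apply, Pi.pow_apply, e0]
  set G := Gp g (u x)
  set H := Hp g (u x)
  set K := Kp g (u x)
  set gg := g (u x)
  set a := fderiv ℝ u x v
  set b := fderiv ℝ z x v
  set c := fderiv ℝ η x v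
  set zz := fderiv ℝ (fderiv ℝ z) x v v
  set uu := fderiv ℝ (fderiv ℝ u) x v v
  set ee := fderiv ℝ (fderiv ℝ (fun y => (η y) ^ 2)) x v v
  have hsq : 0 ≤ (gg * η x * a + G * c - G * η x * b / z x) ^ 2 := sq_nonneg _
  have hz0 : z x ≠ 0 := hzpos.ne'
  rw [← sub_nonneg]
  refine hsq.trans (le_of_eq ?_)
  field_simp
  push_cast
  ring

lemma contDiffOn_fderiv_apply {Ω : Set (Sp n)} (hΩ : IsOpen Ω) {w : Sp n → ℝ}
    (hw : ContDiffOn ℝ 2 w Ω) (v : Sp n) : ContDiffOn ℝ 1 (fun x => fderiv ℝ w x v) Ω :=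
  (hw.fderiv_of_isOpen hΩ (m := 1) (by norm_num)).clm_apply contDiffOn_const

lemma continuousOn_lap {Ω : Set (Sp n)} (hΩ : IsOpen Ω) {w : Sp n → ℝ}
    (hw : ContDiffOn ℝ 2 w Ω) : ContinuousOn (fun x => Δ w x) Ω := by
  have h1 : ContDiffOn ℝ 1 (fderiv ℝ w) Ω := hw.fderiv_of_isOpen hΩ (m := 1) (by norm_num)
  have h2 : ContinuousOn (fderiv ℝ (fderiv ℝ w)) Ω := by
    have := h1.fderiv_of_isOpen hΩ (m := 0) (by norm_num)
    exact this.continuousOn
  have h3 : (fun x => Δ w x) = fun x => ∑ i, fderiv ℝ (fderiv ℝ w) x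
      (EuclideanSpace.basisFun (Fin n) ℝ i) (EuclideanSpace.basisFun (Fin n) ℝ i) := by
    ext x; exact lap_eq w x
  rw [h3]
  refine continuousOn_finsetSum _ fun i _ => ?_
  exact (h2.clm_apply continuousOn_const).clm_apply continuousOn_const

lemma integrableOn_of_support {Ω K : Set (Sp n)} (hΩ : IsOpen Ω) (hK : IsCompact K) (hKΩ : K ⊆ Ω)
    {F : Sp n → ℝ} (hF : ContinuousOn F Ω) (h0 : ∀ x ∈ Ω, x ∉ K → F x = 0) :
    IntegrableOn F Ω := by
  have h1 : IntegrableOn F K := (hF.mono hKΩ).integrableOn_compact hK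
  have h2 : IntegrableOn F (Ω \ K) := by
    have h20 : IntegrableOn (fun _ : Sp n => (0:ℝ)) (Ω \ K) := integrableOn_zero
    refine h20.congr_fun ?_ (hΩ.measurableSet.diff hK.measurableSet)
    intro x hx
    exact (h0 x hx.1 hx.2).symm
  have h3 : Ω = K ∪ (Ω \ K) := (Set.union_sdiff_cancel hKΩ).symm
  rw [h3]
  exact h1.union h2

/-- The integral stability inequality. -/
theorem stab_integral {Ω : Set (Sp n)} (hΩ : IsOpen Ω) (hb : Bornology.IsBounded Ω)
    {u z η F V : Sp n → ℝ} (hu : ContDiffOn ℝ 2 u Ω) (huc : ContinuousOn u (closure Ω))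
    (hubd : ∀ x ∈ frontier Ω, u x = 0) (hz : ContDiffOn ℝ 2 z Ω) (hzpos : ∀ x ∈ Ω, 0 < z x)
    (hη : ContDiff ℝ 2 η) {g : ℝ → ℝ} (hg : Continuous g) {δ : ℝ} (hδ : 0 < δ)
    (hg0 : ∀ s ≤ δ, g s = 0) (hF : ∀ x ∈ Ω, -(Δ u x) = F x)
    (hVc : ContinuousOn V Ω) (hV : ∀ x ∈ Ω, V x * z x ≤ -(Δ z x)) :
    0 ≤ ∫ x in Ω, (F x * Hp g (u x) * (η x) ^ 2 - V x * (Gp g (u x)) ^ 2 * (η x) ^ 2
      - Kp g (u x) * Δ (fun y => (η y) ^ 2) x
      + (Gp g (u x)) ^ 2 * ∑ i, (fderiv ℝ η x (EuclideanSpace.basisFun (Fin n) ℝ i)) ^ 2) := by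
  -- the compact set
  set K : Set (Sp n) := closure Ω ∩ {x | δ ≤ u x} with hKdef
  have hKclosed : IsClosed K := huc.preimage_isClosed_of_isClosed isClosed_closure isClosed_Ici
  have hKcomp : IsCompact K := hb.isCompact_closure.of_isClosed_subset hKclosed inter_subset_left
  have hKΩ : K ⊆ Ω := by
    rintro x ⟨hx1, hx2⟩
    by_contra hnot
    have : x ∈ frontier Ω := by rw [frontier, hΩ.interior_eq]; exact ⟨hx1, hnot⟩
    have h1 := hubd x this
    have h2 : δ ≤ u x := hx2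
    linarith
  have hsmall : ∀ x ∈ Ω, x ∉ K → u x ≤ δ := by
    intro x hx hxK
    by_contra hcon
    push Not at hcon
    exact hxK ⟨subset_closure hx, hcon.le⟩
  have hG0 : ∀ x ∈ Ω, x ∉ K → Gp g (u x) = 0 := fun x hx hxK => Gp_zero hg0 hδ.le (hsmall x hx hxK)
  have hH0 : ∀ x ∈ Ω, x ∉ K → Hp g (u x) = 0 := fun x hx hxK => Hp_zero hg0 hδ.le (hsmall x hx hxK)
  have hK0 : ∀ x ∈ Ω, x ∉ K → Kp g (u x) = 0 := fun x hx hxK => Kp_zero hg0 hδ.le (hsmall x hx hxK)
  -- regularity of the components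
  have u1 : ContDiffOn ℝ 1 u Ω := hu.of_le (by norm_num)
  have z1 : ContDiffOn ℝ 1 z Ω := hz.of_le (by norm_num)
  have η1 : ContDiffOn ℝ 1 η Ω := (hη.of_le (by norm_num)).contDiffOn
  have he : ContDiff ℝ 2 (fun y => (η y) ^ 2) := hη.pow 2
  have hGu : ContDiffOn ℝ 1 (fun x => Gp g (u x)) Ω := (contDiff_Gp hg).comp_contDiffOn u1
  have hHu : ContDiffOn ℝ 1 (fun x => Hp g (u x)) Ω := (contDiff_Hp hg).comp_contDiffOn u1
  have hKu : ContDiffOn ℝ 1 (fun x => Kp g (u x)) Ω := (contDiff_Kp hg).comp_contDiffOn u1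
  have hXf : ∀ v, ContDiffOn ℝ 1 (Xf g u z η v) Ω := by
    intro v
    unfold Xf
    refine ContDiffOn.sub (ContDiffOn.sub ?_ ?_) ?_
    · exact (((hGu.pow 2).mul (η1.pow 2)).mul (contDiffOn_fderiv_apply hΩ hz v)).div z1
        (fun x hx => (hzpos x hx).ne')
    · exact (hHu.mul (η1.pow 2)).mul (contDiffOn_fderiv_apply hΩ hu v)
    · exact hKu.mul (contDiffOn_fderiv_apply hΩ he.contDiffOn v)
  have hX : ∀ v, ContDiff ℝ 1 (Ω.indicator (Xf g u z η v)) := by
    intro v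
    refine contDiff_glue hΩ hKclosed hKΩ ((hXf v).congr fun x hx => indicator_of_mem hx _) ?_
    intro x hx
    by_cases hxΩ : x ∈ Ω
    · rw [indicator_of_mem hxΩ]
      unfold Xf
      rw [hG0 x hxΩ hx, hH0 x hxΩ hx, hK0 x hxΩ hx]; simp
    · exact indicator_of_notMem hxΩ _
  have hXzero : ∀ v x, x ∉ K → Ω.indicator (Xf g u z η v) x = 0 := by
    intro v x hx
    by_cases hxΩ : x ∈ Ω
    · rw [indicator_of_mem hxΩ]
      unfold Xf
      rw [hG0 x hxΩ hx, hH0 x hxΩ hx, hK0 x hxΩ hx]; simp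
    · exact indicator_of_notMem hxΩ _
  have hXc : ∀ v, HasCompactSupport (Ω.indicator (Xf g u z η v)) := fun v =>
    HasCompactSupport.intro hKcomp (fun x hx => hXzero v x hx)
  -- pointwise bound on each component
  have hpt : ∀ v, ∀ x ∈ Ω, fderiv ℝ (Ω.indicator (Xf g u z η v)) x v ≤
      (Gp g (u x)) ^ 2 * (η x) ^ 2 * (fderiv ℝ (fderiv ℝ z) x v v) / z x
        - Hp g (u x) * (η x) ^ 2 * (fderiv ℝ (fderiv ℝ u) x v v)
        - Kp g (u x) * (fderiv ℝ (fderiv ℝ (fun y => (η y) ^ 2)) x v v)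
        + (Gp g (u x)) ^ 2 * (fderiv ℝ η x v) ^ 2 := by
    intro v x hx
    obtain ⟨X', hX', hle⟩ := Xf_line (v := v) hg (hu.contDiffAt (hΩ.mem_nhds hx))
      (hz.contDiffAt (hΩ.mem_nhds hx)) hη.contDiffAt (hzpos x hx)
    have h1 : HasDerivAt (fun t : ℝ => Ω.indicator (Xf g u z η v) (x + t • v))
        (fderiv ℝ (Ω.indicator (Xf g u z η v)) x v) 0 := hasDerivAt_line0 v (hX v).contDiffAt
    have hline : Tendsto (fun s : ℝ => x + s • v) (𝓝 0) (𝓝 x) := by
      have : Continuous (fun s : ℝ => x + s • v) := by fun_prop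
      simpa using this.tendsto 0
    have h2 : (fun t : ℝ => Ω.indicator (Xf g u z η v) (x + t • v)) =ᶠ[𝓝 0]
        fun t : ℝ => Xf g u z η v (x + t • v) := by
      filter_upwards [hline.eventually (hΩ.mem_nhds hx)] with t ht
      exact indicator_of_mem ht _
    have h3 := h1.congr_of_eventuallyEq h2.symm
    rw [h3.unique hX']
    exact hle
  set b : Fin n → Sp n := fun i => EuclideanSpace.basisFun (Fin n) ℝ i with hbdef
  -- the integral of the divergence vanishes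
  have hint : ∀ i, Integrable (fun x => fderiv ℝ (Ω.indicator (Xf g u z η (b i))) x (b i)) := by
    intro i
    have hcont : Continuous fun x => fderiv ℝ (Ω.indicator (Xf g u z η (b i))) x (b i) :=
      ((hX (b i)).continuous_fderiv (by norm_num)).clm_apply continuous_const
    exact hcont.integrable_of_hasCompactSupport ((hXc (b i)).fderiv_apply (𝕜 := ℝ) (b i))
  have hzero : ∫ x, ∑ i, fderiv ℝ (Ω.indicator (Xf g u z η (b i))) x (b i) = 0 := by
    rw [integral_finsetSum _ fun i _ => hint i]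
    exact Finset.sum_eq_zero fun i _ => integral_fderiv_eq_zero (hX (b i)) (hXc (b i)) (b i)
  have hzeroΩ : ∫ x in Ω, ∑ i, fderiv ℝ (Ω.indicator (Xf g u z η (b i))) x (b i) = 0 := by
    rw [setIntegral_eq_integral_of_forall_compl_eq_zero, hzero]
    intro x hx
    refine Finset.sum_eq_zero fun i _ => ?_
    have hxK : x ∉ K := fun h => hx (hKΩ h)
    have : Ω.indicator (Xf g u z η (b i)) =ᶠ[𝓝 x] fun _ => (0:ℝ) := by
      filter_upwards [hKclosed.isOpen_compl.mem_nhds hxK] with y hy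
      exact hXzero _ y hy
    rw [this.fderiv_eq]
    simp
  rw [← hzeroΩ]
  refine setIntegral_mono_on ?_ ?_ hΩ.measurableSet ?_
  · exact (integrable_finsetSum _ fun i _ => hint i).integrableOn
  · refine integrableOn_of_support hΩ hKcomp hKΩ ?_ ?_
    · have hFc : ContinuousOn F Ω := ((continuousOn_lap hΩ hu).neg).congr
        fun x hx => (hF x hx).symm
      refine ContinuousOn.add (ContinuousOn.sub (ContinuousOn.sub ?_ ?_) ?_) ?_
      · exact (hFc.mul hHu.continuousOn).mul (η1.continuousOn.pow 2)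
      · exact (hVc.mul (hGu.continuousOn.pow 2)).mul (η1.continuousOn.pow 2)
      · exact hKu.continuousOn.mul (continuousOn_lap hΩ he.contDiffOn)
      · refine (hGu.continuousOn.pow 2).mul (continuousOn_finsetSum _ fun i _ => ?_)
        exact ((contDiffOn_fderiv_apply hΩ hη.contDiffOn _).continuousOn).pow 2
    · intro x hx hxK
      rw [hG0 x hx hxK, hH0 x hx hxK, hK0 x hx hxK]; simp
  · intro x hx
    have hsum := Finset.sum_le_sum fun (i : Fin n) (_ : i ∈ Finset.univ) => hpt (b i) x hx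
    refine hsum.trans ?_
    have hzx := hzpos x hx
    have e1 : ∑ i, ((Gp g (u x)) ^ 2 * (η x) ^ 2 * (fderiv ℝ (fderiv ℝ z) x (b i) (b i)) / z x
        - Hp g (u x) * (η x) ^ 2 * (fderiv ℝ (fderiv ℝ u) x (b i) (b i))
        - Kp g (u x) * (fderiv ℝ (fderiv ℝ (fun y => (η y) ^ 2)) x (b i) (b i))
        + (Gp g (u x)) ^ 2 * (fderiv ℝ η x (b i)) ^ 2)
        = (Gp g (u x)) ^ 2 * (η x) ^ 2 * (Δ z x) / z x
          - Hp g (u x) * (η x) ^ 2 * (Δ u x)
          - Kp g (u x) * (Δ (fun y => (η y) ^ 2) x)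
          + (Gp g (u x)) ^ 2 * ∑ i, (fderiv ℝ η x (b i)) ^ 2 := by
      rw [lap_eq z, lap_eq u, lap_eq (fun y => (η y) ^ 2), Finset.sum_add_distrib,
        Finset.sum_sub_distrib, Finset.sum_sub_distrib]
      simp only [Finset.mul_sum, Finset.sum_div]
      rfl
    rw [e1]
    have h1 : (Gp g (u x)) ^ 2 * (η x) ^ 2 * (Δ z x) / z x
        ≤ - (V x * (Gp g (u x)) ^ 2 * (η x) ^ 2) := by
      rw [div_le_iff₀ hzx]
      have := mul_le_mul_of_nonneg_left (hV x hx)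
        (mul_nonneg (sq_nonneg (Gp g (u x))) (sq_nonneg (η x)))
      nlinarith
    have h2 : - (Hp g (u x) * (η x) ^ 2 * (Δ u x)) = F x * Hp g (u x) * (η x) ^ 2 := by
      rw [← hF x hx]; ring
    linarith

end Pool.Agent.Lib.MP_2166fc_an
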