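import Mathlib
import Pool.Agent.Lib.MP_2166fc_an.Defs
import Pool.Agent.Lib.MP_2166fc_an.Calc
import Pool.Agent.Lib.MP_2166fc_an.Radial
import Pool.Agent.Lib.MP_2166fc_an.IntIneq

set_option autoImplicit false

open Set Filter Topology InnerProductSpace Laplacian MeasureTheory
open scoped ContDiff

namespace Pool.Agent.Lib.MP_2166fc_an

variable {n : ℕ}

/-- The weight `(1 + |y|²)⁻²`. -/
noncomputable def w2 (n : ℕ) (y : Sp n) : ℝ := ((1 + ‖y‖ ^ 2) ^ 2)⁻¹
/-- The weight `(1 + |y|²)⁻³`. -/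
noncomputable def w3 (n : ℕ) (y : Sp n) : ℝ := ((1 + ‖y‖ ^ 2) ^ 3)⁻¹

lemma one_le_q (y : Sp n) : 1 ≤ 1 + ‖y‖ ^ 2 := by nlinarith [sq_nonneg ‖y‖]

lemma w2_pos (y : Sp n) : 0 < w2 n y := by
  unfold w2; have := one_le_q y; positivity

lemma w3_pos (y : Sp n) : 0 < w3 n y := by
  unfold w3; have := one_le_q y; positivity

lemma w2_le_one (y : Sp n) : w2 n y ≤ 1 := by
  unfold w2
  exact inv_le_one_of_one_le₀ (one_le_pow₀ (one_le_q y))

lemma w3_le_w2 (y : Sp n) : w3 n y ≤ w2 n y := by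
  unfold w3 w2
  have h := one_le_q y
  apply inv_anti₀ (by positivity)
  exact pow_le_pow_right₀ h (by norm_num)

lemma norm_mul_w3_le (y : Sp n) : ‖y‖ * w3 n y ≤ w2 n y := by
  have h := one_le_q y
  have h1 : ‖y‖ ≤ 1 + ‖y‖ ^ 2 := by nlinarith [sq_nonneg (‖y‖ - 1), norm_nonneg y]
  unfold w3 w2
  rw [pow_succ (1 + ‖y‖ ^ 2) 2, mul_inv, mul_comm _ ((1 + ‖y‖ ^ 2)⁻¹), ← mul_assoc]
  have h2 : ‖y‖ * (1 + ‖y‖ ^ 2)⁻¹ ≤ 1 := by
    rw [← div_eq_mul_inv, div_le_one (by linarith)]; exact h1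
  have h3 : 0 < ((1 + ‖y‖ ^ 2) ^ 2)⁻¹ := by positivity
  nlinarith

lemma continuous_w2 : Continuous (w2 n) := by
  unfold w2
  apply Continuous.inv₀ (by fun_prop)
  intro y; have := one_le_q y; positivity

lemma continuous_w3 : Continuous (w3 n) := by
  unfold w3
  apply Continuous.inv₀ (by fun_prop)
  intro y; have := one_le_q y; positivity

lemma integrable_w2 (hn : n < 4) : Integrable (w2 n) := by
  have h := integrable_rpow_neg_one_add_norm_sq (E := Sp n) (μ := volume) (r := 4)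
    (by simp; exact_mod_cast hn)
  refine h.congr (Eventually.of_forall fun y => ?_)
  unfold w2
  have h1 : (0:ℝ) ≤ 1 + ‖y‖ ^ 2 := by have := one_le_q y; linarith
  show (1 + ‖y‖ ^ 2) ^ (-(4:ℝ) / 2) = _
  have : (-(4:ℝ) / 2) = -((2 : ℕ) : ℝ) := by norm_num
  rw [this, Real.rpow_neg h1, Real.rpow_natCast]

lemma integrable_w3 (hn : n < 4) : Integrable (w3 n) := by
  refine (integrable_w2 hn).mono' continuous_w3.aestronglyMeasurable
    (Eventually.of_forall fun y => ?_)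
  rw [Real.norm_of_nonneg (w3_pos y).le]
  exact w3_le_w2 y

lemma integral_w2_pos (hn : n < 4) : 0 < ∫ y, w2 n y := by
  rw [integral_pos_iff_support_of_nonneg (fun y => (w2_pos y).le) (integrable_w2 hn)]
  have : Function.support (w2 n) = univ := by
    ext y; simp [(w2_pos y).ne']
  rw [this]
  exact isOpen_univ.measure_pos volume univ_nonempty

lemma integral_w3_pos (hn : n < 4) : 0 < ∫ y, w3 n y := by
  rw [integral_pos_iff_support_of_nonneg (fun y => (w3_pos y).le) (integrable_w3 hn)]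
  have : Function.support (w3 n) = univ := by
    ext y; simp [(w3_pos y).ne']
  rw [this]
  exact isOpen_univ.measure_pos volume univ_nonempty

lemma integral_w3_le (hn : n < 4) : ∫ y, w3 n y ≤ ∫ y, w2 n y :=
  integral_mono (integrable_w3 hn) (integrable_w2 hn) fun y => w3_le_w2 y

/-- derivative of `w2`. -/
lemma hasFDerivAt_w2 (y : Sp n) : HasFDerivAt (w2 n) ((-4 * w3 n y) • BL n y) y := by
  have hq : (1 + ‖y - 0‖ ^ 2) ≠ 0 := by
    have := one_le_q (y - 0); linarith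
  have h1 : HasDerivAt (fun q : ℝ => ((1 + q) ^ 2)⁻¹) (-2 * ((1 + ‖y - 0‖ ^ 2) ^ 3)⁻¹)
      (‖y - 0‖ ^ 2) := by
    have h2 : HasDerivAt (fun q : ℝ => (1 + q) ^ 2) (2 * (1 + ‖y - 0‖ ^ 2)) (‖y - 0‖ ^ 2) := by
      have := ((hasDerivAt_id (‖y - 0‖ ^ 2)).const_add 1).pow 2
      refine this.congr_deriv ?_
      simp
    refine (h2.inv (pow_ne_zero 2 hq)).congr_deriv ?_
    field_simp
  have h3 := hasFDerivAt_radial (x0 := (0 : Sp n)) (x := y) h1
  have e : w2 n = fun y : Sp n => ((1 + ‖y - 0‖ ^ 2) ^ 2)⁻¹ := by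
    ext y; simp [w2]
  rw [e]
  refine h3.congr_fderiv ?_
  ext v
  simp only [sub_zero, _root_.smul_apply, BL_apply, smul_eq_mul, w3]
  ring

/-- Laplacian lower bound for convex compositions. -/
lemma lap_comp_ge {P P1 : ℝ → ℝ} {P2 : ℝ} {u : Sp n → ℝ} {x : Sp n} (hu : ContDiffAt ℝ 2 u x)
    (h1 : ∀ s, HasDerivAt P (P1 s) s) (h2 : HasDerivAt P1 P2 (u x)) (hP2 : 0 ≤ P2)
    (hP : ContDiffAt ℝ 2 (fun y => P (u y)) x) :
    P1 (u x) * Δ u x ≤ Δ (fun y => P (u y)) x := by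
  rw [lap_eq, lap_eq, Finset.mul_sum]
  refine Finset.sum_le_sum fun i _ => ?_
  set v := EuclideanSpace.basisFun (Fin n) ℝ i
  have hline : Tendsto (fun s : ℝ => x + s • v) (𝓝 0) (𝓝 x) := by
    have : Continuous (fun s : ℝ => x + s • v) := by fun_prop
    simpa using this.tendsto 0
  have k1 := hasDerivAt_line1 v hP
  have e : (fun t : ℝ => fderiv ℝ (fun y => P (u y)) (x + t • v) v) =ᶠ[𝓝 0]
      fun t : ℝ => P1 (u (x + t • v)) * fderiv ℝ u (x + t • v) v := by
    filter_upwards [hline.eventually (eventually_differentiableAt hu)] with t ht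
    have := (h1 (u (x + t • v))).comp_hasFDerivAt (x + t • v) ht.hasFDerivAt
    have h3 : fderiv ℝ (fun y => P (u y)) (x + t • v) = P1 (u (x + t • v)) • fderiv ℝ u (x + t • v) :=
      this.fderiv
    rw [h3]; simp
  have u0 := hasDerivAt_line0 v (hu.of_le (by norm_num : (1 : WithTop ℕ∞) ≤ 2))
  have u1 := hasDerivAt_line1 v hu
  have x0 : x + (0:ℝ) • v = x := by simp
  have h2' : HasDerivAt P1 P2 (u (x + (0:ℝ) • v)) := by rw [x0]; exact h2
  have k2 := (h2'.comp (0:ℝ) u0).mul u1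
  have k3 := (k1.congr_of_eventuallyEq e.symm).unique k2
  rw [k3]
  simp only [Function.comp_apply, x0]
  nlinarith [mul_nonneg hP2 (sq_nonneg (fderiv ℝ u x v))]

lemma integrable_mul_w3 (hn : n < 4) {F : Sp n → ℝ} (hF : Continuous F) {B : ℝ}
    (hB : ∀ y, ‖F y‖ ≤ B) : Integrable (fun y => F y * w3 n y) :=
  (integrable_w3 hn).bdd_mul hF.aestronglyMeasurable (Eventually.of_forall hB)

lemma integrable_mul_w2 (hn : n < 4) {F : Sp n → ℝ} (hF : Continuous F) {B : ℝ}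
    (hB : ∀ y, ‖F y‖ ≤ B) : Integrable (fun y => F y * w2 n y) :=
  (integrable_w2 hn).bdd_mul hF.aestronglyMeasurable (Eventually.of_forall hB)

lemma norm_inner_w3_le {v : Sp n} (hv : ‖v‖ = 1) (y : Sp n) :
    ‖inner ℝ y v * w3 n y‖ ≤ w2 n y := by
  rw [norm_mul, Real.norm_of_nonneg (w3_pos y).le]
  have h1 : ‖inner ℝ y v‖ ≤ ‖y‖ := by
    have := norm_inner_le_norm (𝕜 := ℝ) y v
    rwa [hv, mul_one] at this
  exact (mul_le_mul_of_nonneg_right h1 (w3_pos y).le).trans (norm_mul_w3_le y)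

lemma integrable_inner_w3 (hn : n < 4) {v : Sp n} (hv : ‖v‖ = 1) :
    Integrable fun y : Sp n => inner ℝ y v * w3 n y :=
  (integrable_w2 hn).mono' ((continuous_id.inner continuous_const).mul
    continuous_w3).aestronglyMeasurable (Eventually.of_forall (norm_inner_w3_le hv))

/-- One-directional integration by parts against `w2`. -/
lemma part_w2 (hn : n < 4) {f f' : Sp n → ℝ} {v : Sp n} (hv : ‖v‖ = 1) (hf : Continuous f)
    (hf' : Continuous f') {B B' : ℝ} (hB : ∀ y, ‖f y‖ ≤ B) (hB' : ∀ y, ‖f' y‖ ≤ B')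
    (hline : ∀ y, HasLineDerivAt ℝ f (f' y) y v) :
    ∫ y, f y * (inner ℝ y v * w3 n y) = 1 / 4 * ∫ y, f' y * w2 n y := by
  have hw : ∀ y : Sp n, HasLineDerivAt ℝ (w2 n) (-4 * (inner ℝ y v * w3 n y)) y v := by
    intro y
    have := (hasFDerivAt_w2 y).hasLineDerivAt v
    have e : ((-4 * w3 n y) • BL n y) v = -4 * (inner ℝ y v * w3 n y) := by
      rw [_root_.smul_apply, BL_apply, smul_eq_mul]; ring
    rwa [e] at this
  have i1 : Integrable fun y => f' y * w2 n y := integrable_mul_w2 hn hf' hB'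
  have i3 : Integrable fun y => f y * w2 n y := integrable_mul_w2 hn hf hB
  have i2 : Integrable fun y => f y * (inner ℝ y v * w3 n y) :=
    (integrable_inner_w3 hn hv).bdd_mul hf.aestronglyMeasurable (Eventually.of_forall hB)
  have i2' : Integrable fun y => f y * (-4 * (inner ℝ y v * w3 n y)) := by
    refine (i2.const_mul (-4)).congr (Eventually.of_forall fun y => ?_)
    show -4 * (f y * (inner ℝ y v * w3 n y)) = f y * (-4 * (inner ℝ y v * w3 n y))
    ring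
  have key := integral_bilinear_hasLineDerivAt_right_eq_neg_left_of_integrable
    (μ := (volume : Measure (Sp n))) (B := ContinuousLinearMap.mul ℝ ℝ)
    (f := f) (f' := f') (g := w2 n) (g' := fun y => -4 * (inner ℝ y v * w3 n y)) (v := v)
    i1 i2' i3 (fun y _ => hline y) (fun y _ => hw y)
  simp only [ContinuousLinearMap.mul_apply'] at key
  have e1 : ∫ y, f y * (-4 * (inner ℝ y v * w3 n y))
      = -4 * ∫ y, f y * (inner ℝ y v * w3 n y) := by
    rw [← integral_const_mul]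
    congr 1; ext y; ring
  rw [e1] at key
  linarith

lemma basis_norm (i : Fin n) : ‖EuclideanSpace.basisFun (Fin n) ℝ i‖ = 1 := by simp

lemma norm_fderiv_apply_le {U : Sp n → ℝ} {B : ℝ} (hB : ∀ x, ‖fderiv ℝ U x‖ ≤ B) {v : Sp n}
    (hv : ‖v‖ = 1) (x : Sp n) : ‖fderiv ℝ U x v‖ ≤ B := by
  have := (ContinuousLinearMap.le_opNorm (fderiv ℝ U x) v)
  rw [hv, mul_one] at this
  exact this.trans (hB _)

lemma line_fderiv {U : Sp n → ℝ} (hU : ContDiff ℝ 2 U) (x0 : Sp n) (r : ℝ) (v y : Sp n) :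
    HasLineDerivAt ℝ (fun y : Sp n => fderiv ℝ U (x0 + r • y) v)
      (r * fderiv ℝ (fderiv ℝ U) (x0 + r • y) v v) y v := by
  have hU1 : ContDiff ℝ 1 (fderiv ℝ U) := hU.fderiv_right (by norm_num)
  have h1 : HasFDerivAt (fun y : Sp n => x0 + r • y) (r • ContinuousLinearMap.id ℝ (Sp n)) y :=
    ((hasFDerivAt_id y).const_smul r).const_add x0
  have h2 := ((hU1.differentiable (by norm_num)) (x0 + r • y)).hasFDerivAt.comp y h1
  have h3 := h2.clm_apply (hasFDerivAt_const v y)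
  have h4 := h3.hasLineDerivAt v
  have e : (((fderiv ℝ U ∘ fun y => x0 + r • y) y ∘SL (0 : Sp n →L[ℝ] Sp n) +
        (fderiv ℝ (fderiv ℝ U) (x0 + r • y) ∘SL (r • ContinuousLinearMap.id ℝ (Sp n))).flip v)
      v) = r * fderiv ℝ (fderiv ℝ U) (x0 + r • y) v v := by
    simp
  rw [e] at h4
  exact h4

lemma sum_repr_basis (y : Sp n) :
    ∑ i, (inner ℝ y (EuclideanSpace.basisFun (Fin n) ℝ i)) • EuclideanSpace.basisFun (Fin n) ℝ i
      = y := by
  have := (EuclideanSpace.basisFun (Fin n) ℝ).sum_repr' y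
  nth_rewrite 2 [← this]
  refine Finset.sum_congr rfl fun i _ => ?_
  rw [real_inner_comm]

lemma avg_deriv_value (hn : n < 4) {U : Sp n → ℝ} (hU : ContDiff ℝ 2 U) {B1 B2 : ℝ}
    (hB1 : ∀ x, ‖fderiv ℝ U x‖ ≤ B1) (hB2 : ∀ (x : Sp n) (i : Fin n), ‖fderiv ℝ (fderiv ℝ U) x (EuclideanSpace.basisFun (Fin n) ℝ i)
      (EuclideanSpace.basisFun (Fin n) ℝ i)‖ ≤ B2)
    (x0 : Sp n) (r : ℝ) :
    ∫ y, fderiv ℝ U (x0 + r • y) y * w3 n y = r / 4 * ∫ y, Δ U (x0 + r • y) * w2 n y := by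
  have hU1 : ContDiff ℝ 1 (fderiv ℝ U) := hU.fderiv_right (by norm_num)
  have hfc : Continuous (fderiv ℝ U) := hU1.continuous
  have hffc : Continuous (fderiv ℝ (fderiv ℝ U)) := hU1.continuous_fderiv (by norm_num)
  have haff : Continuous fun y : Sp n => x0 + r • y := by fun_prop
  have hc1 : ∀ v : Sp n, Continuous fun y : Sp n => fderiv ℝ U (x0 + r • y) v := fun v =>
    (hfc.comp haff).clm_apply continuous_const
  have hc2 : ∀ v : Sp n, Continuous fun y : Sp n => fderiv ℝ (fderiv ℝ U) (x0 + r • y) v v :=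
    fun v => ((hffc.comp haff).clm_apply continuous_const).clm_apply continuous_const
  have hpart : ∀ i, ∫ y, fderiv ℝ U (x0 + r • y) (EuclideanSpace.basisFun (Fin n) ℝ i)
        * (inner ℝ y (EuclideanSpace.basisFun (Fin n) ℝ i) * w3 n y)
      = r / 4 * ∫ y, fderiv ℝ (fderiv ℝ U) (x0 + r • y) (EuclideanSpace.basisFun (Fin n) ℝ i)
          (EuclideanSpace.basisFun (Fin n) ℝ i) * w2 n y := by
    intro i
    have key := part_w2 hn (basis_norm i) (hc1 (EuclideanSpace.basisFun (Fin n) ℝ i))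
      ((hc2 (EuclideanSpace.basisFun (Fin n) ℝ i)).const_mul r) (B := B1) (B' := |r| * B2)
      (fun y => norm_fderiv_apply_le hB1 (basis_norm i) _)
      (fun y => by
        rw [norm_mul, Real.norm_eq_abs]
        exact mul_le_mul_of_nonneg_left (hB2 _ i) (abs_nonneg r))
      (fun y => line_fderiv hU x0 r _ y)
    rw [key]
    have : ∫ y, r * fderiv ℝ (fderiv ℝ U) (x0 + r • y) (EuclideanSpace.basisFun (Fin n) ℝ i)
          (EuclideanSpace.basisFun (Fin n) ℝ i) * w2 n y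
        = r * ∫ y, fderiv ℝ (fderiv ℝ U) (x0 + r • y) (EuclideanSpace.basisFun (Fin n) ℝ i)
          (EuclideanSpace.basisFun (Fin n) ℝ i) * w2 n y := by
      rw [← integral_const_mul]
      congr 1; ext y; ring
    rw [this]; ring
  have e3 : (fun y : Sp n => fderiv ℝ U (x0 + r • y) y * w3 n y)
      = fun y : Sp n => ∑ i, fderiv ℝ U (x0 + r • y) (EuclideanSpace.basisFun (Fin n) ℝ i)
        * (inner ℝ y (EuclideanSpace.basisFun (Fin n) ℝ i) * w3 n y) := by
    ext y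
    have h1 : fderiv ℝ U (x0 + r • y) y = ∑ i, inner ℝ y (EuclideanSpace.basisFun (Fin n) ℝ i)
        * fderiv ℝ U (x0 + r • y) (EuclideanSpace.basisFun (Fin n) ℝ i) := by
      have h2 := congrArg (fderiv ℝ U (x0 + r • y)) (sum_repr_basis y)
      rw [map_sum] at h2
      rw [← h2]
      refine Finset.sum_congr rfl fun i _ => ?_
      rw [map_smul, smul_eq_mul]
    rw [h1, Finset.sum_mul]
    refine Finset.sum_congr rfl fun i _ => ?_
    ring
  have e4 : (fun y : Sp n => Δ U (x0 + r • y) * w2 n y)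
      = fun y : Sp n => ∑ i, fderiv ℝ (fderiv ℝ U) (x0 + r • y)
        (EuclideanSpace.basisFun (Fin n) ℝ i) (EuclideanSpace.basisFun (Fin n) ℝ i) * w2 n y := by
    ext y
    rw [lap_eq, Finset.sum_mul]
  rw [e3, integral_finsetSum _ fun i _ => ?_, e4, integral_finsetSum _ fun i _ => ?_,
    Finset.mul_sum]
  · exact Finset.sum_congr rfl fun i _ => hpart i
  · exact integrable_mul_w2 hn (hc2 _) (fun y => hB2 _ i)
  · exact (integrable_inner_w3 hn (basis_norm i)).bdd_mul (hc1 _).aestronglyMeasurable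
      (Eventually.of_forall fun y => norm_fderiv_apply_le hB1 (basis_norm i) _)

lemma avg_hasDerivAt (hn : n < 4) {U : Sp n → ℝ} (hU : ContDiff ℝ 2 U) {B0 B1 : ℝ}
    (hB0 : ∀ x, ‖U x‖ ≤ B0) (hB1 : ∀ x, ‖fderiv ℝ U x‖ ≤ B1) (x0 : Sp n) (r : ℝ) :
    HasDerivAt (fun r : ℝ => ∫ y, U (x0 + r • y) * w3 n y)
      (∫ y, fderiv ℝ U (x0 + r • y) y * w3 n y) r := by
  have hB1' : 0 ≤ B1 := (norm_nonneg _).trans (hB1 0)
  have hfc : Continuous (fderiv ℝ U) := (hU.fderiv_right (m := 1) (by norm_num)).continuous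
  have hbd : Integrable (fun y => B1 * w2 n y) := (integrable_w2 hn).const_mul B1
  refine (hasDerivAt_integral_of_dominated_loc_of_deriv_le (μ := volume)
    (bound := fun y => B1 * w2 n y)
    (F := fun (r : ℝ) (y : Sp n) => U (x0 + r • y) * w3 n y)
    (F' := fun (r : ℝ) (y : Sp n) => fderiv ℝ U (x0 + r • y) y * w3 n y)
    (x₀ := r) (s := univ) univ_mem ?_ ?_ ?_ ?_ hbd ?_).2
  · refine Eventually.of_forall fun q => ?_
    exact ((hU.continuous.comp (by fun_prop)).mul continuous_w3).aestronglyMeasurable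
  · exact integrable_mul_w3 hn (hU.continuous.comp (by fun_prop)) (fun y => hB0 _)
  · have : Continuous fun y : Sp n => fderiv ℝ U (x0 + r • y) y :=
      (hfc.comp (by fun_prop)).clm_apply continuous_id
    exact (this.mul continuous_w3).aestronglyMeasurable
  · refine Eventually.of_forall fun y q _ => ?_
    rw [norm_mul, Real.norm_of_nonneg (w3_pos y).le]
    have h1 : ‖fderiv ℝ U (x0 + q • y) y‖ ≤ B1 * ‖y‖ :=
      (ContinuousLinearMap.le_opNorm _ _).trans
        (mul_le_mul_of_nonneg_right (hB1 _) (norm_nonneg y))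
    calc ‖fderiv ℝ U (x0 + q • y) y‖ * w3 n y ≤ B1 * ‖y‖ * w3 n y :=
          mul_le_mul_of_nonneg_right h1 (w3_pos y).le
      _ = B1 * (‖y‖ * w3 n y) := by ring
      _ ≤ B1 * w2 n y := mul_le_mul_of_nonneg_left (norm_mul_w3_le y) hB1'
  · refine Eventually.of_forall fun y q _ => ?_
    have h1 : HasDerivAt (fun q : ℝ => x0 + q • y) y q := by
      have := ((hasDerivAt_id q).smul_const y).const_add x0
      simpa using this
    have h2 := ((hU.differentiable (by norm_num)) (x0 + q • y)).hasFDerivAt.comp_hasDerivAt q h1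
    exact h2.mul_const _

lemma w2_avg_lower (hn : n < 4) {F : Sp n → ℝ} (hF : Continuous F) {B C : ℝ}
    (hB : ∀ y, ‖F y‖ ≤ B) (hC : ∀ x, -F x ≤ C) :
    -C * ∫ y, w2 n y ≤ ∫ y, F y * w2 n y := by
  rw [← integral_const_mul]
  refine integral_mono ((integrable_w2 hn).const_mul _) (integrable_mul_w2 hn hF hB) fun y => ?_
  have := hC y
  have h2 := w2_pos y
  show -C * w2 n y ≤ F y * w2 n y
  nlinarith

lemma lap_continuous {U : Sp n → ℝ} (hffc : Continuous (fderiv ℝ (fderiv ℝ U))) :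
    Continuous fun x => Δ U x := by
  have h3 : (fun x => Δ U x) = fun x => ∑ i, fderiv ℝ (fderiv ℝ U) x
    (EuclideanSpace.basisFun (Fin n) ℝ i) (EuclideanSpace.basisFun (Fin n) ℝ i) := by
    ext x; exact lap_eq U x
  rw [h3]
  refine continuous_finsetSum _ fun i _ => ?_
  exact (hffc.clm_apply continuous_const).clm_apply continuous_const

lemma lap_bounded {U : Sp n → ℝ} {B2 : ℝ} (hB2 : ∀ (x : Sp n) (i : Fin n), ‖fderiv ℝ (fderiv ℝ U) x (EuclideanSpace.basisFun (Fin n) ℝ i)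
      (EuclideanSpace.basisFun (Fin n) ℝ i)‖ ≤ B2) :
    ∀ x, ‖Δ U x‖ ≤ ∑ _i : Fin n, B2 := by
  intro x
  rw [lap_eq]
  exact (norm_sum_le _ _).trans (Finset.sum_le_sum fun i _ =>
    hB2 x i)

lemma mass_mono (hn : n < 4) {U : Sp n → ℝ} (hU : ContDiff ℝ 2 U) {B0 B1 B2 C : ℝ}
    (hB0 : ∀ x, ‖U x‖ ≤ B0) (hB1 : ∀ x, ‖fderiv ℝ U x‖ ≤ B1)
    (hB2 : ∀ (x : Sp n) (i : Fin n), ‖fderiv ℝ (fderiv ℝ U) x (EuclideanSpace.basisFun (Fin n) ℝ i)
      (EuclideanSpace.basisFun (Fin n) ℝ i)‖ ≤ B2)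
    (hC : ∀ x, -(Δ U x) ≤ C) (x0 : Sp n) (I2 : ℝ) (hI2 : I2 = ∫ y, w2 n y) :
    MonotoneOn (fun r : ℝ => (∫ y, U (x0 + r • y) * w3 n y) + C * I2 * r ^ 2 / 8) (Ici 0) := by
  have hU1 : ContDiff ℝ 1 (fderiv ℝ U) := hU.fderiv_right (by norm_num)
  have hffc : Continuous (fderiv ℝ (fderiv ℝ U)) := hU1.continuous_fderiv (by norm_num)
  refine monotoneOn_of_hasDerivWithinAt_nonneg (convex_Ici 0)
    (f' := fun r => (∫ y, fderiv ℝ U (x0 + r • y) y * w3 n y) + C * I2 * r / 4) ?_ ?_ ?_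
  · intro r _
    have h1 := (avg_hasDerivAt hn hU hB0 hB1 x0 r).continuousAt
    have h2 : ContinuousAt (fun r : ℝ => C * I2 * r ^ 2 / 8) r := by fun_prop
    exact (h1.add h2).continuousWithinAt
  · intro r _
    have h2 : HasDerivAt (fun r : ℝ => C * I2 * r ^ 2 / 8) (C * I2 * r / 4) r := by
      have := (((hasDerivAt_id r).pow 2).const_mul (C * I2)).div_const 8
      refine this.congr_deriv ?_
      simp; ring
    exact ((avg_hasDerivAt hn hU hB0 hB1 x0 r).add h2).hasDerivWithinAt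
  · intro r hr
    rw [interior_Ici] at hr
    have hr0 : 0 < r := hr
    rw [avg_deriv_value hn hU hB1 hB2 x0 r]
    have h1 := w2_avg_lower hn (C := C)
      ((lap_continuous hffc).comp (by fun_prop : Continuous fun y : Sp n => x0 + r • y))
      (fun y => lap_bounded hB2 _) (fun y => hC _)
    rw [← hI2] at h1
    simp only [Function.comp_apply] at h1
    have h2 := mul_le_mul_of_nonneg_left h1 (by positivity : 0 ≤ r / 4)
    linarith

lemma exists_bound_U {U : Sp n → ℝ} (hU : ContDiff ℝ 2 U) (hUc : HasCompactSupport U) :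
    ∃ B0 : ℝ, ∀ x, ‖U x‖ ≤ B0 :=
  hU.continuous.bounded_above_of_compact_support hUc

lemma exists_bound_fderiv {U : Sp n → ℝ} (hU : ContDiff ℝ 2 U) (hUc : HasCompactSupport U) :
    ∃ B0 : ℝ, ∀ x, ‖fderiv ℝ U x‖ ≤ B0 := by
  have hfc : Continuous (fderiv ℝ U) := (hU.fderiv_right (m := 1) (by norm_num)).continuous
  exact hfc.bounded_above_of_compact_support (hUc.fderiv (𝕜 := ℝ))

lemma exists_bound_fderiv2 {U : Sp n → ℝ} (hU : ContDiff ℝ 2 U) (hUc : HasCompactSupport U) :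
    ∃ B2 : ℝ, ∀ (x : Sp n) (i : Fin n), ‖fderiv ℝ (fderiv ℝ U) x
      (EuclideanSpace.basisFun (Fin n) ℝ i) (EuclideanSpace.basisFun (Fin n) ℝ i)‖ ≤ B2 := by
  have hU1 : ContDiff ℝ 1 (fderiv ℝ U) := hU.fderiv_right (by norm_num)
  have hffc : Continuous (fderiv ℝ (fderiv ℝ U)) := hU1.continuous_fderiv (by norm_num)
  have hex : ∀ i : Fin n, ∃ B : ℝ, ∀ x : Sp n, ‖fderiv ℝ (fderiv ℝ U) x
      (EuclideanSpace.basisFun (Fin n) ℝ i) (EuclideanSpace.basisFun (Fin n) ℝ i)‖ ≤ B := by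
    intro i
    have hc : Continuous fun x => fderiv ℝ (fderiv ℝ U) x (EuclideanSpace.basisFun (Fin n) ℝ i)
        (EuclideanSpace.basisFun (Fin n) ℝ i) :=
      (hffc.clm_apply continuous_const).clm_apply continuous_const
    refine hc.bounded_above_of_compact_support ?_
    refine HasCompactSupport.intro hUc.isCompact fun x hx => ?_
    have h1 : U =ᶠ[𝓝 x] fun _ => 0 := notMem_tsupport_iff_eventuallyEq.mp hx
    have h2 : fderiv ℝ U =ᶠ[𝓝 x] fderiv ℝ (fun _ : Sp n => (0:ℝ)) := h1.fderiv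
    rw [h2.fderiv_eq]
    simp
  choose B hB using hex
  refine ⟨∑ i, |B i|, fun x i => (hB i x).trans ?_⟩
  exact (le_abs_self _).trans
    (Finset.single_le_sum (f := fun i => |B i|) (fun j _ => abs_nonneg (B j)) (Finset.mem_univ i))

/-- Mass lower bound: averages of `U` around `x0` control `U x0` when `-Δ U ≤ C`. -/
theorem mass_lower (hn : n < 4) {U : Sp n → ℝ} (hU : ContDiff ℝ 2 U) (hUc : HasCompactSupport U)
    {C : ℝ} (hC : ∀ x, -(Δ U x) ≤ C) (x0 : Sp n) {s : ℝ} (hs : 0 ≤ s) (I2 I3 : ℝ)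
    (hI2 : I2 = ∫ y, w2 n y) (hI3 : I3 = ∫ y, w3 n y) :
    I3 * U x0 - C * I2 * s ^ 2 / 8 ≤ ∫ y, U (x0 + s • y) * w3 n y := by
  obtain ⟨B0, hB0⟩ := exists_bound_U hU hUc
  obtain ⟨B1, hB1⟩ := exists_bound_fderiv hU hUc
  obtain ⟨B2, hB2⟩ := exists_bound_fderiv2 hU hUc
  have hmono := mass_mono hn hU hB0 hB1 hB2 hC x0 I2 hI2
  have hfin := hmono (mem_Ici.mpr le_rfl) (show s ∈ Ici (0:ℝ) from hs) hs
  simp only [zero_smul, add_zero] at hfin
  have e5 : ∫ y, U x0 * w3 n y = I3 * U x0 := by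
    rw [integral_const_mul, hI3, mul_comm]
  rw [e5] at hfin
  linarith

end Pool.Agent.Lib.MP_2166fc_an
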