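import Mathlib
import Pool.Agent.Lib.MP_2166fc_an.Defs
import Pool.Agent.Lib.MP_2166fc_an.FM
import Pool.Agent.Lib.MP_2166fc_an.IntIneq

set_option autoImplicit false

open Set Filter Topology MeasureTheory
open scoped ContDiff

namespace Pool.Agent.Lib.MP_2166fc_an

/-! ### Elementary facts on `f0` -/

lemma le_of_deriv_nonneg {F F' : ℝ → ℝ} (hF : ∀ s, 0 ≤ s → s < 1 → HasDerivAt F (F' s) s)
    (hpos : ∀ s, 0 ≤ s → s < 1 → 0 ≤ F' s) {s : ℝ} (hs : 0 ≤ s) (hs1 : s < 1) : F 0 ≤ F s := by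
  have hm : MonotoneOn F (Icc 0 s) := by
    refine monotoneOn_of_hasDerivWithinAt_nonneg (convex_Icc 0 s) (f' := F') ?_ ?_ ?_
    · intro x hx
      exact (hF x hx.1 (lt_of_le_of_lt hx.2 hs1)).continuousAt.continuousWithinAt
    · intro x hx
      rw [interior_Icc] at hx
      exact (hF x hx.1.le (hx.2.trans hs1)).hasDerivWithinAt
    · intro x hx
      rw [interior_Icc] at hx
      exact hpos x hx.1.le (hx.2.trans hs1)
  exact hm ⟨le_rfl, hs⟩ ⟨hs, le_rfl⟩ hs

lemma f0_ge_sq {s : ℝ} (hs : 0 ≤ s) (hs1 : s < 1) : s ^ 2 / 2 ≤ f0 s := by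
  have h := le_of_deriv_nonneg (F := fun s => f0 s - s ^ 2 / 2) (F' := fun s => s / (1 - s) - s)
    (fun s _ h1 => by
      have h2 := (hasDerivAt_f0 h1).sub ((hasDerivAt_pow 2 s).div_const 2)
      refine h2.congr_deriv ?_
      simp) (fun s h0 h1 => by
      have : 0 < 1 - s := by linarith
      have h2 : s ≤ s / (1 - s) := by
        rw [le_div_iff₀ this]; nlinarith
      linarith) hs hs1
  simp only [f0_zero] at h
  linarith

lemma two_f0_le {s : ℝ} (hs : 0 ≤ s) (hs1 : s < 1) : 2 * f0 s ≤ s / (1 - s) * s := by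
  have h := le_of_deriv_nonneg (F := fun s => s / (1 - s) * s - 2 * f0 s)
    (F' := fun s => s ^ 2 / (1 - s) ^ 2)
    (fun s _ h1 => by
      have hne : (1 - s) ≠ 0 := by linarith
      have hd : HasDerivAt (fun s : ℝ => 1 - s) (-1) s := by
        simpa using (hasDerivAt_id s).const_sub 1
      have h2 := (((hasDerivAt_id s).div hd hne).mul (hasDerivAt_id s)).sub
        ((hasDerivAt_f0 h1).const_mul 2)
      refine h2.congr_deriv ?_
      simp only [id, Pi.div_apply]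
      field_simp
      ring) (fun s h0 h1 => by positivity) hs hs1
  simp only [f0_zero] at h
  linarith

lemma f0_le_self {s : ℝ} (hs : 0 ≤ s) (hs1 : s ≤ 1 / 2) : f0 s ≤ s := by
  have h := two_f0_le hs (by linarith)
  have h1 : s / (1 - s) ≤ 1 := by
    rw [div_le_one (by linarith)]; linarith
  have h2 := mul_le_mul_of_nonneg_right h1 hs
  linarith

lemma f0_le_quarter {s : ℝ} (hs : 0 ≤ s) (hs1 : s ≤ 1 / 2) : f0 s ≤ 1 / 4 := by
  have h := f0_mono hs hs1 (by norm_num)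
  have h1 : f0 (1 / 2) = Real.log 2 - 1 / 2 := by
    unfold f0
    have : (1 - 1 / 2 : ℝ) = (2 : ℝ)⁻¹ := by norm_num
    rw [this, Real.log_inv]; ring
  have h2 := Real.log_two_lt_d9
  rw [h1] at h
  linarith

/-! ### The test profile -/

/-- The clipped slope `s / (1 - s)`. -/
noncomputable def aclip (s : ℝ) : ℝ := max 0 (min s (1 / 2)) / (1 - max 0 (min s (1 / 2)))

/-- The cutoff. -/
noncomputable def chi (δ s : ℝ) : ℝ := max 0 (min 1 ((s - δ) / δ))

/-- The test profile. -/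
noncomputable def gfun (t δ s : ℝ) : ℝ := (aclip s + t) * chi δ s

lemma clip_le (s : ℝ) : max 0 (min s (1 / 2)) ≤ (1 / 2 : ℝ) :=
  max_le (by norm_num) (min_le_right _ _)

lemma continuous_aclip : Continuous aclip := by
  unfold aclip
  apply Continuous.div (by fun_prop) (by fun_prop)
  intro s; have := clip_le s; linarith

lemma continuous_chi (δ : ℝ) : Continuous (chi δ) := by
  unfold chi
  fun_prop

lemma continuous_gfun (t δ : ℝ) : Continuous (gfun t δ) :=
  (continuous_aclip.add continuous_const).mul (continuous_chi δ)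

lemma aclip_eq {s : ℝ} (hs : 0 ≤ s) (hs1 : s ≤ 1 / 2) : aclip s = s / (1 - s) := by
  unfold aclip
  rw [min_eq_left hs1, max_eq_right hs]

lemma aclip_nonneg (s : ℝ) : 0 ≤ aclip s := by
  unfold aclip
  have := clip_le s
  exact div_nonneg (le_max_left _ _) (by linarith)

lemma aclip_mono : Monotone aclip := by
  intro a b hab
  unfold aclip
  have h1 := clip_le a
  have h2 := clip_le b
  have h3 : max 0 (min a (1 / 2)) ≤ max 0 (min b (1 / 2)) :=
    max_le_max le_rfl (min_le_min hab le_rfl)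
  have h4 : 0 ≤ max 0 (min a (1 / 2)) := le_max_left _ _
  rw [div_le_div_iff₀ (by linarith) (by linarith)]
  nlinarith

lemma chi_nonneg (δ s : ℝ) : 0 ≤ chi δ s := le_max_left _ _

lemma chi_le_one (δ s : ℝ) : chi δ s ≤ 1 := max_le (by norm_num) (min_le_left _ _)

lemma chi_mono {δ : ℝ} (hδ : 0 < δ) : Monotone (chi δ) := by
  intro a b hab
  unfold chi
  refine max_le_max le_rfl (min_le_min le_rfl ?_)
  exact div_le_div_of_nonneg_right (by linarith) hδ.le

lemma chi_zero {δ s : ℝ} (hδ : 0 < δ) (hs : s ≤ δ) : chi δ s = 0 := by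
  unfold chi
  apply max_eq_left
  apply (min_le_right _ _).trans
  exact div_nonpos_of_nonpos_of_nonneg (by linarith) hδ.le

lemma chi_one {δ s : ℝ} (hδ : 0 < δ) (hs : 2 * δ ≤ s) : chi δ s = 1 := by
  unfold chi
  have : 1 ≤ (s - δ) / δ := by rw [le_div_iff₀ hδ]; linarith
  rw [min_eq_left this]; norm_num

section gf

variable {t δ : ℝ} (ht : 0 ≤ t) (hδ : 0 < δ)
include ht hδ

lemma gfun_nonneg (s : ℝ) : 0 ≤ gfun t δ s :=
  mul_nonneg (add_nonneg (aclip_nonneg s) ht) (chi_nonneg δ s)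

omit ht in
lemma gfun_zero {s : ℝ} (hs : s ≤ δ) : gfun t δ s = 0 := by
  unfold gfun; rw [chi_zero hδ hs, mul_zero]

lemma gfun_mono : Monotone (gfun t δ) := by
  intro a b hab
  exact mul_le_mul (by linarith [aclip_mono hab]) (chi_mono hδ hab) (chi_nonneg _ _)
    (add_nonneg (aclip_nonneg b) ht)

omit hδ in
lemma gfun_le (s : ℝ) : gfun t δ s ≤ aclip s + t := by
  have h1 := chi_le_one δ s
  have h2 := add_nonneg (aclip_nonneg s) ht
  unfold gfun
  nlinarith

end gf

lemma integral_aclip {t x s : ℝ} (hx : 0 ≤ x) (hxs : x ≤ s) (hs1 : s ≤ 1 / 2) :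
    ∫ r in x..s, (aclip r + t) = (f0 s + t * s) - (f0 x + t * x) := by
  have hd : ∀ r ∈ uIcc x s, HasDerivAt (fun r => f0 r + t * r) (aclip r + t) r := by
    intro r hr
    rw [uIcc_of_le hxs] at hr
    rw [aclip_eq (hx.trans hr.1) (hr.2.trans hs1)]
    have h1 : r < 1 := by linarith [hr.2]
    have h2 := (hasDerivAt_f0 h1).add ((hasDerivAt_id r).const_mul t)
    refine h2.congr_deriv ?_
    simp
  rw [intervalIntegral.integral_eq_sub_of_hasDerivAt hd
    ((continuous_aclip.add continuous_const).intervalIntegrable _ _)]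

lemma G_upper {t δ s : ℝ} (ht : 0 ≤ t) (hs : 0 ≤ s) (hs1 : s ≤ 1 / 2) :
    Gp (gfun t δ) s ≤ f0 s + t * s := by
  have h1 : Gp (gfun t δ) s ≤ ∫ r in (0:ℝ)..s, (aclip r + t) := by
    unfold Gp
    apply intervalIntegral.integral_mono_on hs ((continuous_gfun t δ).intervalIntegrable _ _)
      ((continuous_aclip.add continuous_const).intervalIntegrable _ _)
    intro r _
    exact gfun_le ht r
  rw [integral_aclip le_rfl hs hs1, f0_zero] at h1
  linarith

lemma G_lower {t δ s : ℝ} (ht : 0 ≤ t) (ht1 : t ≤ 1) (hδ : 0 < δ) (hδ1 : δ ≤ 1 / 4) (hs : 0 ≤ s)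
    (hs1 : s ≤ 1 / 2) : f0 s + t * s - 4 * δ ≤ Gp (gfun t δ) s := by
  rcases le_total s (2 * δ) with h | h
  · have h1 := f0_le_self hs hs1
    have h2 : 0 ≤ Gp (gfun t δ) s := Gp_nonneg (fun r _ => gfun_nonneg ht hδ r) hs
    nlinarith
  · have h2 : Gp (gfun t δ) s = Gp (gfun t δ) (2 * δ) + ∫ r in (2 * δ)..s, gfun t δ r := by
      unfold Gp
      rw [intervalIntegral.integral_add_adjacent_intervals
        ((continuous_gfun t δ).intervalIntegrable _ _)
        ((continuous_gfun t δ).intervalIntegrable _ _)]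
    have h3 : ∫ r in (2 * δ)..s, gfun t δ r = ∫ r in (2 * δ)..s, (aclip r + t) := by
      apply intervalIntegral.integral_congr
      intro r hr
      rw [uIcc_of_le h] at hr
      show gfun t δ r = aclip r + t
      unfold gfun
      rw [chi_one hδ hr.1, mul_one]
    have h4 := integral_aclip (t := t) (by linarith : 0 ≤ 2 * δ) h hs1
    have h5 : 0 ≤ Gp (gfun t δ) (2 * δ) :=
      Gp_nonneg (fun r _ => gfun_nonneg ht hδ r) (by linarith)
    have h6 := f0_le_self (by linarith : 0 ≤ 2 * δ) (by linarith)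
    rw [h2, h3, h4]
    nlinarith

lemma H_upper {t δ s : ℝ} (ht : 0 ≤ t) (hδ : 0 < δ) (hs : 0 ≤ s) :
    Hp (gfun t δ) s ≤ (aclip s + t) * Gp (gfun t δ) s := by
  have h1 := Hp_le (continuous_gfun t δ) (fun r _ => gfun_nonneg ht hδ r)
    (fun r _ hrs => gfun_mono ht hδ hrs) hs
  have h2 : 0 ≤ Gp (gfun t δ) s := Gp_nonneg (fun r _ => gfun_nonneg ht hδ r) hs
  have h3 := mul_le_mul_of_nonneg_right (gfun_le (δ := δ) ht s) h2
  linarith

/-- The pointwise inequality. -/
lemma pointwise {M c δ s : ℝ} (hM : 0 < M) (hc : 0 < c) (hc1 : c ≤ 1 / 4) (hδ : 0 < δ)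
    (hδ1 : δ ≤ 1 / 4) (hs : 0 ≤ s) (hs1 : s ≤ 1 / 2) :
    Hp (gfun (4 * c) δ) s / M + f0 s * Hp (gfun (4 * c) δ) s
      - s / (1 - s) * (Gp (gfun (4 * c) δ) s) ^ 2 + c * (Gp (gfun (4 * c) δ) s) ^ 2
      ≤ 2 / M + 4 * c ^ 3 + 5 * δ - 2 * c * (f0 s) ^ 2 := by
  have ht : 0 ≤ 4 * c := by linarith
  have k1 := H_upper (t := 4 * c) ht hδ hs
  have k2 := G_upper (t := 4 * c) (δ := δ) ht hs hs1
  have k3 := G_lower (t := 4 * c) ht (by linarith) hδ hδ1 hs hs1
  have k4 : 0 ≤ Gp (gfun (4 * c) δ) s := Gp_nonneg (fun r _ => gfun_nonneg ht hδ r) hs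
  have k5 : 0 ≤ Hp (gfun (4 * c) δ) s := Hp_nonneg hs
  have k6 := f0_le_quarter hs hs1
  have k7 := f0_nonneg (t := s) (by linarith)
  have k8 := two_f0_le hs (by linarith : s < 1)
  rw [aclip_eq hs hs1] at k1
  set G := Gp (gfun (4 * c) δ) s with hG
  set H := Hp (gfun (4 * c) δ) s with hH
  set f := f0 s with hf
  have ha0 : 0 ≤ s / (1 - s) := div_nonneg hs (by linarith)
  have ha1 : s / (1 - s) ≤ 1 := by rw [div_le_one (by linarith)]; linarith
  set a := s / (1 - s) with ha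
  have hG1 : G ≤ 1 := by nlinarith
  have hH2 : H ≤ 2 := by nlinarith
  have e1 : H / M ≤ 2 / M := div_le_div_of_nonneg_right hH2 hM.le
  have e2 : f * H ≤ f * ((a + 4 * c) * G) := mul_le_mul_of_nonneg_left k1 k7
  -- bracket
  have e3 : f * (a + 4 * c) - a * G + c * G ≤ -(3 * c * f) + 4 * c ^ 2 * s + 4 * δ * a := by
    have q1 : a * (f + 4 * c * s - 4 * δ) ≤ a * G := mul_le_mul_of_nonneg_left k3 ha0
    have q2 : c * G ≤ c * (f + 4 * c * s) := mul_le_mul_of_nonneg_left k2 hc.le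
    have q3 : 4 * c * (2 * f) ≤ 4 * c * (a * s) := mul_le_mul_of_nonneg_left k8 ht
    nlinarith
  have e4 := mul_le_mul_of_nonneg_left e3 k4
  have e5 : G * (-(3 * c * f)) ≤ -(3 * c * f) * (f + 4 * c * s - 4 * δ) := by
    have : 3 * c * f * (f + 4 * c * s - 4 * δ) ≤ 3 * c * f * G :=
      mul_le_mul_of_nonneg_left k3 (by positivity)
    linarith
  have e6 : G * (4 * c ^ 2 * s) ≤ (f + 4 * c * s) * (4 * c ^ 2 * s) :=
    mul_le_mul_of_nonneg_right k2 (by positivity)
  have e7 : G * (4 * δ * a) ≤ 4 * δ := by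
    have : G * a ≤ 1 := by nlinarith
    nlinarith
  have e8 : 16 * c ^ 3 * s ^ 2 ≤ 4 * c ^ 3 := by
    have : s ^ 2 ≤ 1 / 4 := by nlinarith
    nlinarith [pow_pos hc 3]
  have e9 : 12 * c * f * δ ≤ δ := by
    have : c * f ≤ 1 / 16 := by nlinarith
    nlinarith
  have e10 : 0 ≤ 8 * c ^ 2 * s * f := by positivity
  have e11 : 0 ≤ c * f ^ 2 := by positivity
  have e12 : f * ((a + 4 * c) * G) - a * G ^ 2 + c * G ^ 2
      = G * (f * (a + 4 * c) - a * G + c * G) := by ring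
  have e13 : G * (-(3 * c * f) + 4 * c ^ 2 * s + 4 * δ * a)
      = G * (-(3 * c * f)) + G * (4 * c ^ 2 * s) + G * (4 * δ * a) := by ring
  nlinarith

end Pool.Agent.Lib.MP_2166fc_an
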