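import Mathlib
import Pool.Agent.Lib.MP_2166fc_an.Defs
import Pool.Agent.Lib.MP_2166fc_an.Calc
import Pool.Agent.Lib.MP_2166fc_an.Radial
import Pool.Agent.Lib.MP_2166fc_an.Mass

set_option autoImplicit false

open Set Filter Topology InnerProductSpace Laplacian MeasureTheory
open scoped ContDiff

namespace Pool.Agent.Lib.MP_2166fc_an

variable {n : ℕ}

/-- The weight `η(x) = (1 + ν²|x - x0|²)⁻¹`. -/
noncomputable def eta (nu : ℝ) (x0 x : Sp n) : ℝ := (1 + nu ^ 2 * ‖x - x0‖ ^ 2)⁻¹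

lemma eta_den_pos (nu : ℝ) (q : ℝ) (hq : 0 ≤ q) : 0 < 1 + nu ^ 2 * q := by positivity

lemma eta_pos (nu : ℝ) (x0 x : Sp n) : 0 < eta nu x0 x := by
  unfold eta; positivity

lemma contDiff_eta (nu : ℝ) (x0 : Sp n) : ContDiff ℝ 2 (eta nu x0) := by
  unfold eta
  apply ContDiff.inv
  · apply ContDiff.add contDiff_const
    apply ContDiff.mul contDiff_const
    exact (contDiff_id.sub contDiff_const).norm_sq ℝ
  · intro x; positivity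

lemma eta_sq (nu : ℝ) (x0 x : Sp n) : (eta nu x0 x) ^ 2 = w2 n (nu • (x - x0)) := by
  unfold eta w2
  rw [norm_smul, mul_pow, Real.norm_eq_abs, sq_abs, inv_pow]

lemma fderiv_eta (nu : ℝ) (x0 x v : Sp n) :
    fderiv ℝ (eta nu x0) x v
      = -2 * nu ^ 2 * ((1 + nu ^ 2 * ‖x - x0‖ ^ 2) ^ 2)⁻¹ * inner ℝ (x - x0) v := by
  have hq : (1 + nu ^ 2 * ‖x - x0‖ ^ 2) ≠ 0 := by positivity
  have h1 : HasDerivAt (fun q : ℝ => (1 + nu ^ 2 * q)⁻¹)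
      (-nu ^ 2 * ((1 + nu ^ 2 * ‖x - x0‖ ^ 2) ^ 2)⁻¹) (‖x - x0‖ ^ 2) := by
    have h2 : HasDerivAt (fun q : ℝ => 1 + nu ^ 2 * q) (nu ^ 2) (‖x - x0‖ ^ 2) := by
      have := ((hasDerivAt_id (‖x - x0‖ ^ 2)).const_mul (nu ^ 2)).const_add 1
      simpa using this
    refine (h2.inv hq).congr_deriv ?_
    field_simp
  have h3 : HasFDerivAt (eta nu x0) _ x := hasFDerivAt_radial (x0 := x0) (x := x) h1
  rw [h3.fderiv, _root_.smul_apply, BL_apply, smul_eq_mul]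
  ring

lemma sum_fderiv_eta_sq (nu : ℝ) (x0 x : Sp n) :
    ∑ i, (fderiv ℝ (eta nu x0) x (EuclideanSpace.basisFun (Fin n) ℝ i)) ^ 2
      ≤ nu ^ 2 * (eta nu x0 x) ^ 2 := by
  have e : ∑ i, (fderiv ℝ (eta nu x0) x (EuclideanSpace.basisFun (Fin n) ℝ i)) ^ 2
      = 4 * nu ^ 4 * (((1 + nu ^ 2 * ‖x - x0‖ ^ 2) ^ 2)⁻¹) ^ 2 * ‖x - x0‖ ^ 2 := by
    have hs := sum_inner_sq (x - x0)
    have e0 : ∑ i, (fderiv ℝ (eta nu x0) x (EuclideanSpace.basisFun (Fin n) ℝ i)) ^ 2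
        = 4 * nu ^ 4 * (((1 + nu ^ 2 * ‖x - x0‖ ^ 2) ^ 2)⁻¹) ^ 2
          * ∑ i, (inner ℝ (x - x0) (EuclideanSpace.basisFun (Fin n) ℝ i)) ^ 2 := by
      rw [Finset.mul_sum]
      refine Finset.sum_congr rfl fun i _ => ?_
      rw [fderiv_eta]; ring
    rw [e0, hs]
  rw [e]
  unfold eta
  set q := ‖x - x0‖ ^ 2 with hq
  have hq0 : 0 ≤ q := by positivity
  have hd : 0 < 1 + nu ^ 2 * q := by positivity
  have h1 : 4 * (nu ^ 2 * q) ≤ (1 + nu ^ 2 * q) ^ 2 := by nlinarith [sq_nonneg (1 - nu ^ 2 * q)]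
  have e2 : 4 * nu ^ 4 * (((1 + nu ^ 2 * q) ^ 2)⁻¹) ^ 2 * q
      = nu ^ 2 * ((1 + nu ^ 2 * q)⁻¹) ^ 2 * (4 * (nu ^ 2 * q) / (1 + nu ^ 2 * q) ^ 2) := by
    field_simp
  rw [e2]
  have h2 : 4 * (nu ^ 2 * q) / (1 + nu ^ 2 * q) ^ 2 ≤ 1 := (div_le_one (by positivity)).mpr h1
  have h3 : 0 ≤ nu ^ 2 * ((1 + nu ^ 2 * q)⁻¹) ^ 2 := by positivity
  nlinarith

lemma lap_eta_sq_ge (nu : ℝ) (x0 x : Sp n) :
    -(4 * n * nu ^ 2 * (eta nu x0 x) ^ 2) ≤ Δ (fun y => (eta nu x0 y) ^ 2) x := by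
  set Ψ1 : ℝ → ℝ := fun q => -2 * nu ^ 2 * ((1 + nu ^ 2 * q) ^ 3)⁻¹ with hΨ1
  have hlin : ∀ q : ℝ, HasDerivAt (fun q : ℝ => 1 + nu ^ 2 * q) (nu ^ 2) q := by
    intro q
    have := ((hasDerivAt_id q).const_mul (nu ^ 2)).const_add 1
    simpa using this
  have hpos : 0 < 1 + nu ^ 2 * ‖x - x0‖ ^ 2 := by positivity
  have hev : ∀ᶠ q in 𝓝 (‖x - x0‖ ^ 2), 0 < 1 + nu ^ 2 * q := by
    have hc : ContinuousAt (fun q : ℝ => 1 + nu ^ 2 * q) (‖x - x0‖ ^ 2) := by fun_prop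
    exact hc.eventually (lt_mem_nhds hpos)
  have h1 : ∀ᶠ q in 𝓝 (‖x - x0‖ ^ 2),
      HasDerivAt (fun q : ℝ => ((1 + nu ^ 2 * q) ^ 2)⁻¹) (Ψ1 q) q := by
    filter_upwards [hev] with q hq
    have hp : HasDerivAt (fun q : ℝ => (1 + nu ^ 2 * q) ^ 2) (2 * (1 + nu ^ 2 * q) * nu ^ 2) q := by
      refine ((hlin q).pow 2).congr_deriv ?_
      simp
    have hne : (1 + nu ^ 2 * q) ^ 2 ≠ 0 := pow_ne_zero _ hq.ne'
    have hne1 : (1 + nu ^ 2 * q) ≠ 0 := hq.ne'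
    refine (hp.inv hne).congr_deriv ?_
    simp only [hΨ1]
    field_simp
  have h2 : HasDerivAt Ψ1 (6 * nu ^ 4 * ((1 + nu ^ 2 * ‖x - x0‖ ^ 2) ^ 4)⁻¹) (‖x - x0‖ ^ 2) := by
    have hp : HasDerivAt (fun q : ℝ => (1 + nu ^ 2 * q) ^ 3)
        (3 * (1 + nu ^ 2 * ‖x - x0‖ ^ 2) ^ 2 * nu ^ 2) (‖x - x0‖ ^ 2) := by
      refine ((hlin (‖x - x0‖ ^ 2)).pow 3).congr_deriv ?_
      simp
    have hne : (1 + nu ^ 2 * ‖x - x0‖ ^ 2) ^ 3 ≠ 0 := pow_ne_zero _ hpos.ne'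
    have hne1 : (1 + nu ^ 2 * ‖x - x0‖ ^ 2) ≠ 0 := hpos.ne'
    refine ((hp.inv hne).const_mul (-2 * nu ^ 2)).congr_deriv ?_
    field_simp
    try ring
  have h3 := lap_radial (x0 := x0) (x := x) h1 h2
  have e : (fun y : Sp n => (eta nu x0 y) ^ 2)
      = fun y : Sp n => ((1 + nu ^ 2 * ‖y - x0‖ ^ 2) ^ 2)⁻¹ := by
    ext y; unfold eta; rw [inv_pow]
  rw [e, h3]
  unfold eta
  simp only [hΨ1]
  set q := ‖x - x0‖ ^ 2 with hq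
  have hq0 : 0 ≤ q := by positivity
  have k1 : 0 ≤ 4 * q * (6 * nu ^ 4 * ((1 + nu ^ 2 * q) ^ 4)⁻¹) := by positivity
  have k2 : ((1 + nu ^ 2 * q) ^ 3)⁻¹ ≤ ((1 + nu ^ 2 * q)⁻¹) ^ 2 := by
    rw [inv_pow]
    apply inv_anti₀ (by positivity)
    apply pow_le_pow_right₀ _ (by norm_num)
    nlinarith [mul_nonneg (sq_nonneg nu) hq0]
  have k3 := mul_le_mul_of_nonneg_left k2 (by positivity : 0 ≤ 4 * (n:ℝ) * nu ^ 2)
  nlinarith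

lemma integrable_eta_sq (hn : n < 4) {nu : ℝ} (hnu : 0 < nu) (x0 : Sp n) :
    Integrable (fun x => (eta nu x0 x) ^ 2) := by
  have e : (fun x : Sp n => (eta nu x0 x) ^ 2) = fun x => w2 n (nu • (x - x0)) := by
    ext x; exact eta_sq nu x0 x
  rw [e]
  have h1 : Integrable (fun x : Sp n => w2 n (nu • x)) := (integrable_w2 hn).comp_smul hnu.ne'
  exact h1.comp_sub_right x0

lemma integral_eta_sq {nu : ℝ} (hnu : 0 < nu) (x0 : Sp n) :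
    ∫ x, (eta nu x0 x) ^ 2 = (nu ^ n)⁻¹ * ∫ y, w2 n y := by
  have e : (fun x : Sp n => (eta nu x0 x) ^ 2) = fun x => w2 n (nu • (x - x0)) := by
    ext x; exact eta_sq nu x0 x
  rw [e, integral_sub_right_eq_self (fun x => w2 n (nu • x)) x0,
    Measure.integral_comp_smul]
  rw [smul_eq_mul, abs_of_pos (by positivity)]
  simp

end Pool.Agent.Lib.MP_2166fc_an
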