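import Mathlib
import Pool.Agent.Lib.MP_2166fc_an.Defs
import Pool.Agent.Lib.MP_2166fc_an.Calc
import Pool.Agent.Lib.MP_2166fc_an.FM
import Pool.Agent.Lib.MP_2166fc_an.Branch
import Pool.Agent.Lib.MP_2166fc_an.IntIneq
import Pool.Agent.Lib.MP_2166fc_an.Weight
import Pool.Agent.Lib.MP_2166fc_an.Profile

set_option autoImplicit false

open Set Filter Topology InnerProductSpace Laplacian MeasureTheory
open scoped ContDiff

namespace Pool.Agent.Lib.MP_2166fc_an

variable {n : ℕ} {Ω : Set (Sp n)} {M lamStar : ℝ} {u : ℝ → Sp n → ℝ} {ustar : Sp n → ℝ}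

lemma continuousOn_comp_f0 {w : Sp n → ℝ} {S : Set (Sp n)} (hw : ContinuousOn w S)
    (h1 : ∀ x ∈ S, w x < 1) : ContinuousOn (fun x => f0 (w x)) S :=
  (contDiffOn_f0.continuousOn).comp hw h1

lemma Lop_zero (w : Sp n → ℝ) (x : Sp n) : Lop 0 w x = -(Δ w x) := by
  simp [Lop]

theorem mass_upper (hΩ : IsOpen Ω) (hb : Bornology.IsBounded Ω) (hn : n < 4) (hM : 0 < M)
    (hbr : IsBranch Ω 0 (fM M) lamStar u ustar) {lam mu : ℝ} (h0 : 0 < lam) (h1 : lam < mu)
    (h2 : mu < lamStar) (hle : ∀ y ∈ closure Ω, u lam y ≤ 1 / 2) {nu c : ℝ} (hnu : 0 < nu)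
    (hc : 0 < c) (hc1 : c ≤ 1 / 4) (hcn : (2 * n + 1) * nu ^ 2 ≤ c * (lam * M)) (x0 : Sp n) :
    2 * c * ∫ x in Ω, (f0 (u lam x)) ^ 2 * (eta nu x0 x) ^ 2
      ≤ (2 / M + 9 * c ^ 3) * ∫ x, (eta nu x0 x) ^ 2 := by
  have s1 := (hbr.minimal lam h0 (h1.trans h2)).1
  have s2 := (hbr.minimal mu (h0.trans h1) h2).1
  have hδ : 0 < c ^ 3 := pow_pos hc 3
  have hδ1 : c ^ 3 ≤ 1 / 4 := by
    have : c ^ 3 ≤ (1 / 4) ^ 3 := pow_le_pow_left₀ hc.le hc1 3
    linarith [this, (by norm_num : ((1:ℝ) / 4) ^ 3 ≤ 1 / 4)]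
  set g := gfun (4 * c) (c ^ 3) with hgdef
  have hg : Continuous g := continuous_gfun _ _
  have ht : 0 ≤ 4 * c := by linarith
  have hgn : ∀ s, 0 ≤ s → 0 ≤ g s := fun s _ => gfun_nonneg ht hδ s
  have hgm : Monotone g := gfun_mono ht hδ
  have cu := s1.continuousOn
  have cf0 : ContinuousOn (fun x => f0 (u lam x)) (closure Ω) :=
    continuousOn_comp_f0 cu fun x hx => (s1.range x hx).2
  have cfM : ContinuousOn (fun x => lam * fM M (u lam x)) (closure Ω) := by
    have : (fun x => lam * fM M (u lam x)) = fun x => lam * (1 + M * f0 (u lam x)) := by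
      ext x; rw [fM_eq]
    rw [this]
    exact continuousOn_const.mul (continuousOn_const.add (continuousOn_const.mul cf0))
  have cV : ContinuousOn (fun x => lam * (M * (u lam x / (1 - u lam x)))) (closure Ω) := by
    refine continuousOn_const.mul (continuousOn_const.mul (cu.div (continuousOn_const.sub cu) ?_))
    intro x hx
    have := (s1.range x hx).2
    linarith
  have cη : ContDiff ℝ 2 (eta nu x0) := contDiff_eta nu x0
  have key := stab_integral (u := u lam) (z := fun y => u mu y - u lam y) (η := eta nu x0)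
    (F := fun x => lam * fM M (u lam x)) (V := fun x => lam * (M * (u lam x / (1 - u lam x))))
    hΩ hb s1.regular cu s1.boundary (s2.regular.sub s1.regular)
    (fun x hx => branch_diff_pos hΩ hM.le hbr h0 h1 h2 hx) cη hg hδ
    (fun s hs => gfun_zero hδ hs) (fun x hx => by
      have := s1.lop hx
      rwa [Lop_zero] at this) (cV.mono subset_closure) (fun x hx => by
      have := branch_diff_lop hΩ hM.le hbr h0 h1 h2 hx
      rw [Lop_zero] at this
      show lam * (M * (u lam x / (1 - u lam x))) * (u mu x - u lam x) ≤ _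
      linarith)
  have cG : ContinuousOn (fun x => Gp g (u lam x)) (closure Ω) := (continuous_Gp hg).comp_continuousOn cu
  have cH : ContinuousOn (fun x => Hp g (u lam x)) (closure Ω) := (continuous_Hp hg).comp_continuousOn cu
  have cK : ContinuousOn (fun x => Kp g (u lam x)) (closure Ω) :=
    (continuous_iff_continuousAt.mpr fun s => (hasDerivAt_Kp hg s).continuousAt).comp_continuousOn cu
  have cη2 : ContDiff ℝ 2 (fun y => (eta nu x0 y) ^ 2) := cη.pow 2
  have clap : Continuous fun x => Δ (fun y => (eta nu x0 y) ^ 2) x := by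
    apply lap_continuous
    have hU1 : ContDiff ℝ 1 (fderiv ℝ (fun y => (eta nu x0 y) ^ 2)) :=
      cη2.fderiv_right (by norm_num)
    exact hU1.continuous_fderiv (by norm_num)
  have cgrad : Continuous fun x => ∑ i, (fderiv ℝ (eta nu x0) x
      (EuclideanSpace.basisFun (Fin n) ℝ i)) ^ 2 := by
    refine continuous_finsetSum _ fun i _ => ?_
    exact (((cη.continuous_fderiv (by norm_num)).clm_apply continuous_const)).pow 2
  have ceta : Continuous (eta nu x0) := cη.continuous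
  have hcomp : IsCompact (closure Ω) := hb.isCompact_closure
  have int1 : IntegrableOn (fun x => lam * fM M (u lam x) * Hp g (u lam x) * (eta nu x0 x) ^ 2
      - lam * (M * (u lam x / (1 - u lam x))) * (Gp g (u lam x)) ^ 2 * (eta nu x0 x) ^ 2
      - Kp g (u lam x) * Δ (fun y => (eta nu x0 y) ^ 2) x
      + (Gp g (u lam x)) ^ 2 * ∑ i, (fderiv ℝ (eta nu x0) x
        (EuclideanSpace.basisFun (Fin n) ℝ i)) ^ 2) Ω := by
    refine IntegrableOn.mono_set (ContinuousOn.integrableOn_compact hcomp ?_) subset_closure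
    refine ContinuousOn.add (ContinuousOn.sub (ContinuousOn.sub ?_ ?_) ?_) ?_
    · exact (cfM.mul cH).mul (ceta.continuousOn.pow 2)
    · exact (cV.mul (cG.pow 2)).mul (ceta.continuousOn.pow 2)
    · exact cK.mul clap.continuousOn
    · exact (cG.pow 2).mul cgrad.continuousOn
  have int2 : IntegrableOn (fun x => (f0 (u lam x)) ^ 2 * (eta nu x0 x) ^ 2) Ω := by
    refine IntegrableOn.mono_set (ContinuousOn.integrableOn_compact hcomp ?_) subset_closure
    exact (cf0.pow 2).mul (ceta.continuousOn.pow 2)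
  have int3 : IntegrableOn (fun x => (eta nu x0 x) ^ 2) Ω :=
    (integrable_eta_sq hn hnu x0).integrableOn
  have hκ : 0 < lam * M := mul_pos h0 hM
  have hmono : ∫ x in Ω, (lam * fM M (u lam x) * Hp g (u lam x) * (eta nu x0 x) ^ 2
      - lam * (M * (u lam x / (1 - u lam x))) * (Gp g (u lam x)) ^ 2 * (eta nu x0 x) ^ 2
      - Kp g (u lam x) * Δ (fun y => (eta nu x0 y) ^ 2) x
      + (Gp g (u lam x)) ^ 2 * ∑ i, (fderiv ℝ (eta nu x0) x
        (EuclideanSpace.basisFun (Fin n) ℝ i)) ^ 2) ≤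
      ∫ x in Ω, ((lam * M) * (2 / M + 9 * c ^ 3) * (eta nu x0 x) ^ 2
        - (lam * M) * (2 * c) * ((f0 (u lam x)) ^ 2 * (eta nu x0 x) ^ 2)) := by
    refine setIntegral_mono_on int1 ((int3.const_mul _).sub (int2.const_mul _))
      hΩ.measurableSet ?_
    intro x hx
    have hx' := subset_closure hx
    have hs := (s1.range x hx').1
    have hs1 := hle x hx'
    have hpw := pointwise (δ := c ^ 3) hM hc hc1 hδ hδ1 hs hs1
    rw [← hgdef] at hpw
    have hK1 : 0 ≤ Kp g (u lam x) := Kp_nonneg hg hgn (fun a b _ hab _ => hgm hab) hs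
    have hK2 : Kp g (u lam x) ≤ (Gp g (u lam x)) ^ 2 / 2 := Kp_le hg hs
    have hlap := lap_eta_sq_ge nu x0 x
    have hgr := sum_fderiv_eta_sq nu x0 x
    set G := Gp g (u lam x)
    set H := Hp g (u lam x)
    set K := Kp g (u lam x)
    set L := Δ (fun y => (eta nu x0 y) ^ 2) x
    set S := ∑ i, (fderiv ℝ (eta nu x0) x (EuclideanSpace.basisFun (Fin n) ℝ i)) ^ 2
    set e := (eta nu x0 x) ^ 2
    have he : 0 ≤ e := sq_nonneg _
    have hn0 : (0:ℝ) ≤ n := Nat.cast_nonneg n
    have q1 : -(K * L) ≤ K * (4 * n * nu ^ 2 * e) := by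
      have := mul_le_mul_of_nonneg_left hlap hK1
      linarith
    have q2 : K * (4 * n * nu ^ 2 * e) ≤ G ^ 2 / 2 * (4 * n * nu ^ 2 * e) :=
      mul_le_mul_of_nonneg_right hK2 (by positivity)
    have q3 : G ^ 2 * S ≤ G ^ 2 * (nu ^ 2 * e) := mul_le_mul_of_nonneg_left hgr (sq_nonneg G)
    have q4 : G ^ 2 * e * ((2 * n + 1) * nu ^ 2) ≤ G ^ 2 * e * (c * (lam * M)) :=
      mul_le_mul_of_nonneg_left hcn (by positivity)
    have q5 := mul_le_mul_of_nonneg_left hpw (mul_nonneg hκ.le he)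
    rw [fM_eq]
    have q6 : lam * (1 + M * f0 (u lam x)) * H * e
        - lam * (M * (u lam x / (1 - u lam x))) * G ^ 2 * e
        + G ^ 2 * e * (c * (lam * M))
        = lam * M * e * (H / M + f0 (u lam x) * H - u lam x / (1 - u lam x) * G ^ 2 + c * G ^ 2) := by
      field_simp
    linarith
  have h3 := key.trans hmono
  rw [integral_sub (int3.const_mul _) (int2.const_mul _), integral_const_mul,
    integral_const_mul] at h3
  have h4 : ∫ x in Ω, (eta nu x0 x) ^ 2 ≤ ∫ x, (eta nu x0 x) ^ 2 :=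
    setIntegral_le_integral (integrable_eta_sq hn hnu x0)
      (Eventually.of_forall fun x => sq_nonneg _)
  have h5 : 0 ≤ 2 / M + 9 * c ^ 3 := by positivity
  have h6 := mul_le_mul_of_nonneg_left h4 h5
  have h7 : (lam * M) * (2 * c * ∫ x in Ω, (f0 (u lam x)) ^ 2 * (eta nu x0 x) ^ 2)
      ≤ (lam * M) * ((2 / M + 9 * c ^ 3) * ∫ x in Ω, (eta nu x0 x) ^ 2) := by
    linarith
  have h8 := le_of_mul_le_mul_left h7 hκ
  exact h8.trans h6

end Pool.Agent.Lib.MP_2166fc_an
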