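import Mathlib
import Pool.Agent.Lib.MP_2166fc_an.Defs
import Pool.Agent.Lib.MP_2166fc_an.Calc
import Pool.Agent.Lib.MP_2166fc_an.FM
import Pool.Agent.Lib.MP_2166fc_an.Branch
import Pool.Agent.Lib.MP_2166fc_an.IntIneq
import Pool.Agent.Lib.MP_2166fc_an.Mass
import Pool.Agent.Lib.MP_2166fc_an.Weight
import Pool.Agent.Lib.MP_2166fc_an.Profile
import Pool.Agent.Lib.MP_2166fc_an.Upper

set_option autoImplicit false

open Set Filter Topology InnerProductSpace Laplacian MeasureTheory
open scoped ContDiff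

namespace Pool.Agent.Lib.MP_2166fc_an

/-! ### Powers of the positive part -/

lemma hasDerivAt_pospow (a : ℝ) (k : ℕ) (hk : 1 ≤ k) (s : ℝ) :
    HasDerivAt (fun s : ℝ => (max (s - a) 0) ^ (k + 1)) ((k + 1) * (max (s - a) 0) ^ k) s := by
  rcases lt_trichotomy s a with h | h | h
  · have h1 : (fun s : ℝ => (max (s - a) 0) ^ (k + 1)) =ᶠ[𝓝 s] fun _ => 0 := by
      filter_upwards [Iio_mem_nhds h] with r hr
      have : r - a ≤ 0 := by have : r < a := hr; linarith
      rw [max_eq_right this]; simp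
    have h2 : max (s - a) 0 = 0 := max_eq_right (by linarith)
    rw [h2, zero_pow (by omega), mul_zero]
    exact (hasDerivAt_const s (0:ℝ)).congr_of_eventuallyEq h1
  · subst h
    have h2 : max (s - s) 0 = (0:ℝ) := by simp
    rw [h2, zero_pow (by omega), mul_zero]
    have hl : HasDerivWithinAt (fun r : ℝ => (max (r - s) 0) ^ (k + 1)) 0 (Iic s) s := by
      refine (hasDerivWithinAt_const s (Iic s) (0:ℝ)).congr ?_ (by simp)
      intro r hr
      have : r - s ≤ 0 := by have : r ≤ s := hr; linarith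
      rw [max_eq_right this]; simp
    have hr : HasDerivWithinAt (fun r : ℝ => (max (r - s) 0) ^ (k + 1)) 0 (Ici s) s := by
      have h3 : HasDerivAt (fun r : ℝ => (r - s) ^ (k + 1)) 0 s := by
        have := ((hasDerivAt_id s).sub_const s).pow (k + 1)
        refine this.congr_deriv ?_
        simp; omega
      refine h3.hasDerivWithinAt.congr ?_ (by simp)
      intro r hr
      have : 0 ≤ r - s := by have : s ≤ r := hr; linarith
      rw [max_eq_left this]
    have := hl.union hr
    rw [Iic_union_Ici] at this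
    exact hasDerivWithinAt_univ.mp this
  · have h1 : (fun s : ℝ => (max (s - a) 0) ^ (k + 1)) =ᶠ[𝓝 s] fun s => (s - a) ^ (k + 1) := by
      filter_upwards [Ioi_mem_nhds h] with r hr
      have : 0 ≤ r - a := by have : a < r := hr; linarith
      rw [max_eq_left this]
    have h2 : max (s - a) 0 = s - a := max_eq_left (by linarith)
    rw [h2]
    have h3 : HasDerivAt (fun s : ℝ => (s - a) ^ (k + 1)) ((k + 1) * (s - a) ^ k) s := by
      have := ((hasDerivAt_id s).sub_const a).pow (k + 1)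
      refine this.congr_deriv ?_
      simp
    exact h3.congr_of_eventuallyEq h1

/-- The profile `((s - 1/10)₊)⁴`. -/
noncomputable def Pf (s : ℝ) : ℝ := (max (s - 1 / 10) 0) ^ 4

lemma hasDerivAt_Pf (s : ℝ) : HasDerivAt Pf (4 * (max (s - 1 / 10) 0) ^ 3) s := by
  refine (hasDerivAt_pospow (1 / 10) 3 (by norm_num) s).congr_deriv ?_
  push_cast; ring

lemma hasDerivAt_Pf1 (s : ℝ) : HasDerivAt (fun s : ℝ => 4 * (max (s - 1 / 10) 0) ^ 3)
    (12 * (max (s - 1 / 10) 0) ^ 2) s := by
  refine ((hasDerivAt_pospow (1 / 10) 2 (by norm_num) s).const_mul 4).congr_deriv ?_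
  push_cast; ring

lemma contDiff_Pf : ContDiff ℝ 2 Pf := by
  have e : (2 : WithTop ℕ∞) = 1 + 1 := by norm_num
  rw [e, contDiff_succ_iff_deriv]
  refine ⟨fun s => (hasDerivAt_Pf s).differentiableAt, by simp, ?_⟩
  have h1 : deriv Pf = fun s => 4 * (max (s - 1 / 10) 0) ^ 3 := by
    ext s; exact (hasDerivAt_Pf s).deriv
  rw [h1, contDiff_one_iff_deriv]
  refine ⟨fun s => (hasDerivAt_Pf1 s).differentiableAt, ?_⟩
  have h2 : deriv (fun s : ℝ => 4 * (max (s - 1 / 10) 0) ^ 3)
      = fun s => 12 * (max (s - 1 / 10) 0) ^ 2 := by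
    ext s; exact (hasDerivAt_Pf1 s).deriv
  rw [h2]
  fun_prop

lemma Pf_nonneg (s : ℝ) : 0 ≤ Pf s := by unfold Pf; positivity

lemma Pf_zero {s : ℝ} (hs : s ≤ 1 / 10) : Pf s = 0 := by
  unfold Pf
  rw [max_eq_right (by linarith)]; norm_num

lemma Pf_le {s : ℝ} (hs : 0 ≤ s) (hs1 : s < 1) : Pf s / 4 ≤ (f0 s) ^ 2 := by
  have h1 := f0_ge_sq hs hs1
  have h2 : max (s - 1 / 10) 0 ≤ s := max_le (by linarith) hs
  have h3 : Pf s ≤ s ^ 4 := pow_le_pow_left₀ (le_max_right _ _) h2 4
  have h4 : (s ^ 2 / 2) ^ 2 ≤ (f0 s) ^ 2 := pow_le_pow_left₀ (by positivity) h1 2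
  nlinarith

variable {n : ℕ} {Ω : Set (Sp n)} {M lamStar : ℝ} {u : ℝ → Sp n → ℝ} {ustar : Sp n → ℝ}

theorem mass_below (hΩ : IsOpen Ω) (hb : Bornology.IsBounded Ω) (hn : n < 4) (hM : 4 ≤ M)
    {v : Sp n → ℝ} {lam : ℝ} (h0 : 0 < lam) (s1 : IsSolution Ω 0 (fM M) lam v)
    (hle : ∀ y ∈ closure Ω, v y ≤ 1 / 2) {x0 : Sp n} (hx0 : x0 ∈ Ω) (hv0 : v x0 = 1 / 2)
    {nu s : ℝ} (hnu : 0 < nu) (hs : 0 < s) (hnus : nu * s ≤ 1)
    (I2 I3 : ℝ) (hI2 : I2 = ∫ y, w2 n y) (hI3 : I3 = ∫ y, w3 n y)
    (hsκ : lam * M * s ^ 2 * I2 = I3 / 4) :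
    s ^ n * (I3 / 400) ≤ ∫ x in Ω, (f0 (v x)) ^ 2 * (eta nu x0 x) ^ 2 := by
  have hM0 : 0 < M := by linarith
  have hI3pos : 0 < I3 := by rw [hI3]; exact integral_w3_pos hn
  have cu := s1.continuousOn
  have cf0 : ContinuousOn (fun x => f0 (v x)) (closure Ω) :=
    continuousOn_comp_f0 cu fun x hx => (s1.range x hx).2
  -- compact set
  set K : Set (Sp n) := closure Ω ∩ {x | 1 / 10 ≤ v x} with hKdef
  have hKclosed : IsClosed K := cu.preimage_isClosed_of_isClosed isClosed_closure isClosed_Ici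
  have hKcomp : IsCompact K := hb.isCompact_closure.of_isClosed_subset hKclosed inter_subset_left
  have hKΩ : K ⊆ Ω := by
    rintro x ⟨hx1, hx2⟩
    rcases mem_or_frontier hΩ hx1 with h | h
    · exact h
    · have h1 := s1.boundary x h
      have h2 : 1 / 10 ≤ v x := hx2
      rw [h1] at h2
      norm_num at h2
  set U : Sp n → ℝ := Ω.indicator (fun x => Pf (v x)) with hU
  have hU0 : ∀ x, x ∉ K → U x = 0 := by
    intro x hx
    by_cases hxΩ : x ∈ Ω
    · rw [hU, indicator_of_mem hxΩ]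
      apply Pf_zero
      by_contra hcon
      push Not at hcon
      exact hx ⟨subset_closure hxΩ, hcon.le⟩
    · rw [hU]; exact indicator_of_notMem hxΩ _
  have hUon : ContDiffOn ℝ 2 (fun x => Pf (v x)) Ω := contDiff_Pf.comp_contDiffOn s1.regular
  have hUC : ContDiff ℝ 2 U :=
    contDiff_glue hΩ hKclosed hKΩ (hUon.congr fun x hx => indicator_of_mem hx _) hU0
  have hUcs : HasCompactSupport U := HasCompactSupport.intro hKcomp hU0
  have hUnn : ∀ x, 0 ≤ U x := by
    intro x
    by_cases hxΩ : x ∈ Ω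
    · rw [hU, indicator_of_mem hxΩ]; exact Pf_nonneg _
    · rw [hU, indicator_of_notMem hxΩ]
  -- bound on the Laplacian
  have hκ : 0 < lam * M := mul_pos h0 hM0
  have hlapU : ∀ x, -(Δ U x) ≤ lam * M / 4 := by
    intro x
    by_cases hx : x ∈ Ω
    · have he : U =ᶠ[𝓝 x] fun y => Pf (v y) := by
        filter_upwards [hΩ.mem_nhds hx] with y hy
        rw [hU]; exact indicator_of_mem hy _
      rw [(laplacian_congr_nhds he).eq_of_nhds]
      have h1 := lap_comp_ge (P := Pf) (P1 := fun s => 4 * (max (s - 1 / 10) 0) ^ 3)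
        (P2 := 12 * (max (v x - 1 / 10) 0) ^ 2) (s1.regular.contDiffAt (hΩ.mem_nhds hx))
        hasDerivAt_Pf (hasDerivAt_Pf1 (v x)) (by positivity) (hUon.contDiffAt (hΩ.mem_nhds hx))
      have h2 := s1.lop hx
      rw [Lop_zero] at h2
      have h3 : Δ v x = -(lam * fM M (v x)) := by linarith
      rw [h3] at h1
      have hx' := subset_closure hx
      have h4 : max (v x - 1 / 10) 0 ≤ 4 / 10 :=
        max_le (by linarith [hle x hx']) (by norm_num)
      have h5 : (max (v x - 1 / 10) 0) ^ 3 ≤ (4 / 10) ^ 3 :=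
        pow_le_pow_left₀ (le_max_right _ _) h4 3
      have h6 : 0 ≤ (max (v x - 1 / 10) 0) ^ 3 := by positivity
      have h7 : lam * fM M (v x) ≤ lam * M / 2 := by
        rw [fM_eq]
        have q := f0_le_quarter (s1.range x hx').1 (hle x hx')
        nlinarith
      have h8 : 0 ≤ lam * fM M (v x) := by
        have := fM_ge_one hM0.le (s1.range x hx').2
        positivity
      have h9 : 4 * (max (v x - 1 / 10) 0) ^ 3 * (lam * fM M (v x)) ≤
          4 * (4 / 10) ^ 3 * (lam * M / 2) :=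
        mul_le_mul (by linarith) h7 h8 (by norm_num)
      nlinarith
    · have hxK : x ∉ K := fun h => hx (hKΩ h)
      have he : U =ᶠ[𝓝 x] fun _ => (0:ℝ) := by
        filter_upwards [hKclosed.isOpen_compl.mem_nhds hxK] with y hy
        exact hU0 y hy
      rw [(laplacian_congr_nhds he).eq_of_nhds]
      have : Δ (fun _ : Sp n => (0:ℝ)) x = 0 := by
        rw [lap_eq]; simp
      rw [this]
      linarith
  -- lower bound at scale s
  have h1 := mass_lower hn hUC hUcs hlapU x0 hs.le I2 I3 hI2 hI3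
  have h2 : U x0 = (4 / 10) ^ 4 := by
    rw [hU, indicator_of_mem hx0, hv0]
    unfold Pf
    rw [max_eq_left (by norm_num)]; norm_num
  have h3 : I3 / 100 ≤ ∫ y, U (x0 + s • y) * w3 n y := by
    refine le_trans ?_ h1
    rw [h2]
    have : lam * M / 4 * I2 * s ^ 2 / 8 = (lam * M * s ^ 2 * I2) / 32 := by ring
    rw [this, hsκ]
    nlinarith
  -- comparison of integrals
  set F : Sp n → ℝ := fun x => U x / 4 * (eta nu x0 x) ^ 2 with hF
  have ceta : Continuous (eta nu x0) := (contDiff_eta nu x0).continuous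
  have hFc : Continuous F := (hUC.continuous.div_const 4).mul (ceta.pow 2)
  have hF0 : ∀ x, x ∉ Ω → F x = 0 := by
    intro x hx
    have : U x = 0 := by rw [hU]; exact indicator_of_notMem hx _
    simp [hF, this]
  have hFint : Integrable F := by
    refine hFc.integrable_of_hasCompactSupport ?_
    refine HasCompactSupport.intro hKcomp fun x hx => ?_
    simp [hF, hU0 x hx]
  have int2 : IntegrableOn (fun x => (f0 (v x)) ^ 2 * (eta nu x0 x) ^ 2) Ω := by
    refine IntegrableOn.mono_set (ContinuousOn.integrableOn_compact hb.isCompact_closure ?_)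
      subset_closure
    exact (cf0.pow 2).mul (ceta.continuousOn.pow 2)
  have h4 : ∫ x, F x ≤ ∫ x in Ω, (f0 (v x)) ^ 2 * (eta nu x0 x) ^ 2 := by
    rw [← setIntegral_eq_integral_of_forall_compl_eq_zero hF0]
    refine setIntegral_mono_on hFint.integrableOn int2 hΩ.measurableSet ?_
    intro x hx
    have hx' := subset_closure hx
    show U x / 4 * (eta nu x0 x) ^ 2 ≤ _
    rw [hU, indicator_of_mem hx]
    exact mul_le_mul_of_nonneg_right (Pf_le (s1.range x hx').1 (s1.range x hx').2) (sq_nonneg _)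
  have h5 : ∫ x, F x = s ^ n * ∫ y, F (x0 + s • y) := by
    have e1 : ∫ y, F (x0 + s • y) = (s ^ n)⁻¹ * ∫ x, F x := by
      have e2 := Measure.integral_comp_smul (volume : Measure (Sp n)) (fun x => F (x0 + x)) s
      rw [e2, integral_add_left_eq_self F x0]
      rw [smul_eq_mul, abs_of_pos (by positivity)]
      simp
    rw [e1]
    field_simp
  have h6 : ∫ y, U (x0 + s • y) * w3 n y ≤ 4 * ∫ y, F (x0 + s • y) := by
    rw [← integral_const_mul]
    obtain ⟨B0, hB0⟩ := exists_bound_U hUC hUcs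
    have haff : Continuous fun y : Sp n => x0 + s • y := by fun_prop
    refine integral_mono (integrable_mul_w3 hn (hUC.continuous.comp haff) (fun y => hB0 _)) ?_ ?_
    · have : Integrable fun y => F (x0 + s • y) :=
        (hFint.comp_add_left x0).comp_smul hs.ne'
      exact this.const_mul 4
    · intro y
      show U (x0 + s • y) * w3 n y ≤ 4 * F (x0 + s • y)
      have e1 : (eta nu x0 (x0 + s • y)) ^ 2 = w2 n ((nu * s) • y) := by
        rw [eta_sq, add_sub_cancel_left, smul_smul]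
      have e2 : w3 n y ≤ w2 n ((nu * s) • y) := by
        refine (w3_le_w2 y).trans ?_
        unfold w2
        apply inv_anti₀ (by positivity)
        apply pow_le_pow_left₀ (by positivity)
        have : ‖(nu * s) • y‖ ≤ ‖y‖ := by
          rw [norm_smul, Real.norm_of_nonneg (by positivity)]
          nlinarith [norm_nonneg y]
        have := pow_le_pow_left₀ (norm_nonneg _) this 2
        linarith
      rw [hF]
      simp only
      rw [e1]
      have := mul_le_mul_of_nonneg_left e2 (hUnn (x0 + s • y))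
      linarith
  have h7 : 0 ≤ s ^ n := by positivity
  have h8 := mul_le_mul_of_nonneg_left (h3.trans h6) h7
  linarith

end Pool.Agent.Lib.MP_2166fc_an
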