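import Mathlib
import Pool.Agent.Lib.MP_2166fc_an.Defs
import Pool.Agent.Lib.MP_2166fc_an.FM
import Pool.Agent.Lib.MP_2166fc_an.Branch
import Pool.Agent.Lib.MP_2166fc_an.Mass
import Pool.Agent.Lib.MP_2166fc_an.Weight
import Pool.Agent.Lib.MP_2166fc_an.Upper
import Pool.Agent.Lib.MP_2166fc_an.Lower

set_option autoImplicit false

open Set Filter Topology InnerProductSpace Laplacian MeasureTheory
open scoped ContDiff

namespace Pool.Agent.Lib.MP_2166fc_an

variable {n : ℕ} {Ω : Set (Sp n)} {M lamStar : ℝ} {u : ℝ → Sp n → ℝ} {ustar : Sp n → ℝ}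

theorem core (hΩ : IsOpen Ω) (hb : Bornology.IsBounded Ω) (hn : n < 4) (hM : 4 ≤ M)
    (hbr : IsBranch Ω 0 (fM M) lamStar u ustar) {lam : ℝ} (h0 : 0 < lam) (h1 : lam < lamStar)
    (hle : ∀ y ∈ closure Ω, u lam y ≤ 1 / 2) {x0 : Sp n} (hx0 : x0 ∈ Ω) (hv0 : u lam x0 = 1 / 2)
    (I2 I3 : ℝ) (hI2 : I2 = ∫ y, w2 n y) (hI3 : I3 = ∫ y, w3 n y)
    {th : ℝ} (hth : 0 < th) (hth1 : th ≤ 1) (hc1 : 28 * th ^ 2 * (I2 / I3) ≤ 1 / 4) :
    th ^ n * (I3 / I2) / 200 * (28 * th ^ 2 * (I2 / I3)) ≤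
      2 / M + 9 * (28 * th ^ 2 * (I2 / I3)) ^ 3 := by
  obtain ⟨mu, hmu1, hmu2⟩ := exists_between h1
  have hM0 : 0 < M := by linarith
  have hI2pos : 0 < I2 := by rw [hI2]; exact integral_w2_pos hn
  have hI3pos : 0 < I3 := by rw [hI3]; exact integral_w3_pos hn
  have hκ : 0 < lam * M := mul_pos h0 hM0
  set c := 28 * th ^ 2 * (I2 / I3) with hc
  have hcpos : 0 < c := by positivity
  set s := Real.sqrt (I3 / (4 * I2 * (lam * M))) with hs
  have hs2 : s ^ 2 = I3 / (4 * I2 * (lam * M)) := Real.sq_sqrt (by positivity)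
  have hspos : 0 < s := Real.sqrt_pos.mpr (by positivity)
  set nu := th / s with hnu
  have hnupos : 0 < nu := by positivity
  have hnus : nu * s = th := by rw [hnu]; field_simp
  have hsκ : lam * M * s ^ 2 * I2 = I3 / 4 := by
    rw [hs2]; field_simp
  have hnu2 : nu ^ 2 = c * (lam * M) / 7 := by
    rw [hnu, div_pow, hs2, hc]; field_simp; ring
  have hcn : (2 * n + 1) * nu ^ 2 ≤ c * (lam * M) := by
    have hn3 : (n:ℝ) ≤ 3 := by
      have : n ≤ 3 := by omega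
      exact_mod_cast this
    rw [hnu2]
    have : 0 < c * (lam * M) := by positivity
    nlinarith
  have hup := mass_upper hΩ hb hn hM0 hbr h0 hmu1 hmu2 hle hnupos hcpos hc1 hcn x0
  have hlow := mass_below hΩ hb hn hM h0 (hbr.minimal lam h0 h1).1 hle hx0 hv0 hnupos hspos
    (by rw [hnus]; exact hth1) I2 I3 hI2 hI3 hsκ
  rw [integral_eta_sq hnupos, ← hI2] at hup
  have h2 : 2 * c * (s ^ n * (I3 / 400)) ≤ (2 / M + 9 * c ^ 3) * ((nu ^ n)⁻¹ * I2) :=
    (mul_le_mul_of_nonneg_left hlow (by positivity)).trans hup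
  have hnun : 0 < nu ^ n := by positivity
  have h3 := mul_le_mul_of_nonneg_left h2 hnun.le
  have h4 : nu ^ n * ((2 / M + 9 * c ^ 3) * ((nu ^ n)⁻¹ * I2)) = (2 / M + 9 * c ^ 3) * I2 := by
    field_simp
  have h5 : nu ^ n * (2 * c * (s ^ n * (I3 / 400))) = th ^ n * (I3 / I2) / 200 * c * I2 := by
    rw [← hnus, mul_pow]; field_simp; norm_num
  rw [h4, h5] at h3
  exact le_of_mul_le_mul_right h3 hI2pos

/-- For `n < 4` and `M` large, all extremal solutions without advection are classical. -/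
theorem partA (n : ℕ) (hn : n < 4) : ∃ M0 : ℝ, 0 < M0 ∧ ∀ M, M0 ≤ M → ∀ Ω : Set (Sp n),
    IsOpen Ω → Bornology.IsBounded Ω → ∀ ustar : Sp n → ℝ,
    IsExtremalSolution Ω 0 (fM M) ustar → IsClassical Ω ustar := by
  set I2 := ∫ y, w2 n y with hI2
  set I3 := ∫ y, w3 n y with hI3
  have hI2pos : 0 < I2 := integral_w2_pos hn
  have hI3pos : 0 < I3 := integral_w3_pos hn
  have hle : I3 ≤ I2 := integral_w3_le hn
  set ρ := I3 / I2 with hρ
  have hρpos : 0 < ρ := by positivity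
  have hρ1 : ρ ≤ 1 := by rw [hρ, div_le_one hI2pos]; exact hle
  have hρinv : I2 / I3 = ρ⁻¹ := by rw [hρ, inv_div]
  set th := ρ ^ 3 / 2822400 with hth
  have hthpos : 0 < th := by positivity
  have hρ3 : ρ ^ 3 ≤ ρ := by
    have : ρ ^ 3 ≤ ρ ^ 1 := pow_le_pow_of_le_one hρpos.le hρ1 (by norm_num)
    simpa using this
  have hth1 : th ≤ ρ / 2822400 := by
    rw [hth]; exact div_le_div_of_nonneg_right hρ3 (by norm_num)
  have hth2 : th ≤ 1 := by linarith
  set c := 28 * th ^ 2 * (I2 / I3) with hc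
  have hcpos : 0 < c := by positivity
  have hc1 : c ≤ 1 / 4 := by
    rw [hc, hρinv, ← div_eq_mul_inv, div_le_iff₀ hρpos]
    nlinarith
  refine ⟨4 + 1000 / (c * th ^ 3 * ρ), by positivity, ?_⟩
  intro M hM Ω hΩ hb ustar hext
  obtain ⟨lamStar, u, hbr⟩ := hext
  have hpos1 : 0 < 1000 / (c * th ^ 3 * ρ) := by positivity
  have hM4 : 4 ≤ M := by linarith
  have hM0 : 0 < M := by linarith
  have hsmall : ∀ lam, 0 < lam → lam < lamStar → ∀ x ∈ Ω, u lam x < 1 / 2 := by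
    by_contra hcon
    push Not at hcon
    obtain ⟨lam0, h0, h1, x, hx, hge⟩ := hcon
    obtain ⟨lam, l0, l1, x0, hx0, hv0, hle2⟩ := exists_max_half hΩ hb hM0 hbr h0 h1 hx hge
    have hcore := core hΩ hb hn hM4 hbr l0 l1 hle2 hx0 hv0 I2 I3 rfl rfl hthpos hth2 hc1
    rw [← hc, ← hρ] at hcore
    -- arithmetic contradiction
    have hpow : th ^ 3 ≤ th ^ n := pow_le_pow_of_le_one hthpos.le hth2 (by omega)
    have e1 : th ^ 3 * ρ / 200 * c ≤ 2 / M + 9 * c ^ 3 := by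
      refine le_trans ?_ hcore
      have := mul_le_mul_of_nonneg_right hpow (by positivity : 0 ≤ ρ / 200 * c)
      nlinarith
    have e2 : 9 * c ^ 3 = c * (th ^ 3 * ρ / 400) := by
      have : c = 28 * th ^ 2 * ρ⁻¹ := by rw [hc, hρinv]
      have e3 : c ^ 2 = 784 * th ^ 4 * (ρ⁻¹) ^ 2 := by rw [this]; ring
      have e4 : th ^ 4 = th ^ 3 * (ρ ^ 3 / 2822400) := by rw [← hth]; ring
      have e5 : 9 * c ^ 3 = 9 * c * c ^ 2 := by ring
      rw [e5, e3, e4]
      field_simp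
      norm_num
    have e3 : 2 / M < c * (th ^ 3 * ρ / 400) := by
      rw [div_lt_iff₀ hM0]
      have hq : 0 < c * th ^ 3 * ρ := by positivity
      have h7 : 1000 / (c * th ^ 3 * ρ) < M := by linarith
      rw [div_lt_iff₀ hq] at h7
      nlinarith
    rw [e2] at e1
    have e6 : th ^ 3 * ρ / 200 * c = c * (th ^ 3 * ρ / 400) + c * (th ^ 3 * ρ / 400) := by ring
    linarith
  refine ⟨1 / 2, by norm_num, ?_⟩
  intro x hx
  refine le_of_tendsto (hbr.limit x hx) ?_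
  have h1 : ∀ᶠ lam in 𝓝[<] lamStar, 0 < lam :=
    nhdsWithin_le_nhds (lt_mem_nhds hbr.pos)
  filter_upwards [h1, self_mem_nhdsWithin] with lam hl1 hl2
  exact (hsmall lam hl1 hl2 x hx).le

end Pool.Agent.Lib.MP_2166fc_an
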