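import Mathlib
import Pool.Agent.Lib.MP_2166fc_an.Defs
import Pool.Agent.Lib.MP_2166fc_an.Calc
import Pool.Agent.Lib.MP_2166fc_an.FM
import Pool.Agent.Lib.MP_2166fc_an.Branch
import Pool.Agent.Lib.MP_2166fc_an.Kern
import Pool.Agent.Lib.MP_2166fc_an.RadialSolve
import Pool.Agent.Lib.MP_2166fc_an.Picard
import Pool.Agent.Lib.MP_2166fc_an.BallBranch
import Pool.Agent.Lib.MP_2166fc_an.Barrier

set_option autoImplicit false

open Set Filter Topology InnerProductSpace Laplacian MeasureTheory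
open scoped ContDiff

namespace Pool.Agent.Lib.MP_2166fc_an

variable {m : ℕ} {k R M : ℝ}

/-- From a bound on the extremal function to a bound on the branch, up to the boundary. -/
lemma branch_bound (hk : 0 ≤ k) (hR : 0 < R) (hM : 0 ≤ M) {C : ℝ}
    (hC : ∀ x ∈ Metric.ball (0 : Sp (m + 1)) R, uStar m k R M x ≤ C) {lam : ℝ} (h0 : 0 < lam)
    (h1 : lam < lamS m k R M) {x : Sp (m + 1)} (hx : x ∈ Metric.closedBall (0 : Sp (m + 1)) R) :
    uMin m k R M lam x ≤ max C 0 := by
  rw [← closure_ball_eq hR] at hx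
  rcases mem_or_frontier Metric.isOpen_ball hx with h | h
  · exact ((uMin_le_uStar hk hR hM h0 h1 h).trans (hC x h)).trans (le_max_left _ _)
  · rw [(isMinimal_of_lt hk hR hM h0 h1).1.boundary x h]
    exact le_max_right _ _

/-- Basic facts at a point of the ball. -/
lemma branch_point (hk : 0 ≤ k) (hR : 0 < R) (hM : 0 < M) {C0 : ℝ} (hC01 : C0 < 1) {lam : ℝ}
    (h0 : 0 < lam) (h1 : lam < lamS m k R M) {x : Sp (m + 1)}
    (hx : x ∈ Metric.ball (0 : Sp (m + 1)) R) (hC : uMin m k R M lam x ≤ C0) :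
    0 ≤ uMin m k R M lam x ∧
    0 ≤ lam * (M * (uMin m k R M lam x / (1 - uMin m k R M lam x))) ∧
    lam * (M * (uMin m k R M lam x / (1 - uMin m k R M lam x)))
      ≤ lamS m k R M * (M * (C0 / (1 - C0))) := by
  have hr := (isMinimal_of_lt hk hR hM.le h0 h1).1.range x (subset_closure hx)
  set a := uMin m k R M lam x
  have ha : 0 < 1 - a := by linarith [hr.2]
  have hd0 : 0 < 1 - C0 := by linarith
  have hg0 : 0 ≤ a / (1 - a) := div_nonneg hr.1 ha.le
  have hg1 : a / (1 - a) ≤ C0 / (1 - C0) := by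
    rw [div_le_div_iff₀ ha hd0]
    nlinarith
  refine ⟨hr.1, by positivity, ?_⟩
  exact mul_le_mul h1.le (mul_le_mul_of_nonneg_left hg1 hM.le) (by positivity) (h0.trans h1).le

/-- Without advection, the extremal function is singular on the unit ball in high dimension. -/
theorem partC (hM : 1 ≤ M) (b : ℕ) (hb : 12 * M ≤ b) :
    ¬ IsClassical (Metric.ball (0 : Sp (4 * b + 1 + 1)) 1) (uStar (4 * b + 1) 0 1 M) := by
  rintro ⟨C, hC1, hC⟩
  have hM0 : 0 < M := by linarith
  have hR : (0:ℝ) < 1 := one_pos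
  have hk : (0:ℝ) ≤ 0 := le_rfl
  have hb12 : (12:ℝ) ≤ b := by linarith
  set C0 := max C 0 with hC0
  have hC00 : 0 ≤ C0 := le_max_right _ _
  have hC01 : C0 < 1 := max_lt hC1 one_pos
  have hLpos : 0 < lamS (4 * b + 1) 0 1 M := lamS_pos hk hR hM0.le
  set Vm := lamS (4 * b + 1) 0 1 M * (M * (C0 / (1 - C0))) with hVm
  have hVm0 : 0 ≤ Vm := by
    have : 0 < 1 - C0 := by linarith
    positivity
  set ρ := 1 / (Vm + 1) with hρ
  have hρpos : 0 < ρ := by positivity
  have hbpos : (0:ℝ) < b := by linarith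
  refine not_classical (m := 4 * b + 1) (k := 0) (R := 1) hk hR hM0 hC00 hC01
    (fun lam h0 h1 x hx => branch_bound hk hR hM0.le hC h0 h1 hx)
    (ψ := bar (4 * b + 1) ρ b) (contDiff_bar hρpos) (fun x => bar_pos hρpos x)
    (m0 := 1) one_pos ?_
  intro lam h0 h1 x hx
  have hx' := Metric.ball_subset_closedBall hx
  have hbd := branch_bound hk hR hM0.le hC h0 h1 hx'
  obtain ⟨ha0, hV0, hV1⟩ := branch_point hk hR hM0 hC01 h0 h1 hx hbd
  have hVest := V_est hk hR hM0 h0 h1 hx'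
  have hLop := Lop_bar_ge (m := 4 * b + 1) (k := 0) hρpos hbpos x
  refine le_trans ?_ hLop
  rw [← add_mul]
  refine mul_le_mul_of_nonneg_right ?_ (bar_pos hρpos x).le
  have hf1 : 1 ≤ fM M (uMin (4 * b + 1) 0 1 M lam x) :=
    fM_ge_one hM0.le (lt_of_le_of_lt hbd hC01)
  set a := uMin (4 * b + 1) 0 1 M lam x with ha
  set V := lam * (M * (a / (1 - a))) with hV
  have hq0 : 0 ≤ ‖x‖ ^ 2 := by positivity
  have hq1 : ‖x‖ ^ 2 ≤ 1 := by
    have := (mem_closedBall_iff hR).mp hx'
    simpa using this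
  have hTh := Th_ge (m := 4 * b + 1) hk hq0
  set q := ‖x‖ ^ 2 with hq
  push_cast at hTh ⊢
  have hTh2 : q / (8 * b + 4) ≤ Th (4 * b + 1) 0 q := by
    refine le_trans (le_of_eq ?_) hTh
    congr 1; ring
  have hVq : V * q ≤ (8 * b + 4) * M := by
    have h2 : V * (q / (8 * b + 4)) ≤ V * (fM M a * Th (4 * b + 1) 0 q) := by
      apply mul_le_mul_of_nonneg_left _ hV0
      have hT0 : 0 ≤ Th (4 * b + 1) 0 q := le_trans (by positivity) hTh2
      nlinarith
    have h3 : M * a ≤ M := by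
      have : a ≤ 1 := (lt_of_le_of_lt hbd hC01).le
      nlinarith
    have h4 : V * (q / (8 * b + 4)) ≤ M := by linarith
    rw [← mul_div_assoc, div_le_iff₀ (by positivity)] at h4
    linarith
  have hgoal : V + 1 ≤ 4 * b ^ 2 / (q + ρ) := by
    rw [le_div_iff₀ (by positivity)]
    rcases le_total q ρ with h | h
    · have h2 : (V + 1) * (q + ρ) ≤ (Vm + 1) * (2 * ρ) :=
        mul_le_mul (by linarith) (by linarith) (by positivity) (by positivity)
      have h3 : (Vm + 1) * (2 * ρ) = 2 := by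
        rw [hρ]; field_simp
      have : (1:ℝ) ≤ b ^ 2 := by nlinarith
      linarith
    · have h2 : (V + 1) * (q + ρ) ≤ (V + 1) * (2 * q) :=
        mul_le_mul_of_nonneg_left (by linarith) (by linarith)
      have h3 : (8 * b + 4) * M ≤ b * b := by
        have : (8 * (b:ℝ) + 4) * M ≤ (12 * b) * M := by nlinarith
        nlinarith
      nlinarith
  refine hgoal.trans (le_of_eq ?_)
  field_simp
  ring

/-- `Θ` is unbounded for `k = 1`. -/
lemma exists_Th_ge (K : ℝ) (hK : 0 ≤ K) : ∃ R : ℝ, 0 < R ∧ K ≤ Th 2 1 (R ^ 2) := by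
  refine ⟨Real.exp (K + Real.log 6), Real.exp_pos _, ?_⟩
  set R := Real.exp (K + Real.log 6) with hR
  have hRpos : 0 < R := Real.exp_pos _
  have hQ : 0 ≤ R ^ 2 := by positivity
  have hd : ∀ s ∈ uIcc 0 (R ^ 2), HasDerivAt (fun s : ℝ => Real.log (6 + 2 * s) / 2)
      (1 / (2 * ((2:ℕ) + 1) + 2 * 1 * s)) s := by
    intro s hs
    rw [uIcc_of_le hQ] at hs
    have hpos : 0 < 6 + 2 * s := by linarith [hs.1]
    have h1 : HasDerivAt (fun s : ℝ => 6 + 2 * s) 2 s := by
      simpa using ((hasDerivAt_id s).const_mul 2).const_add 6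
    refine ((h1.log hpos.ne').div_const 2).congr_deriv ?_
    push_cast
    have h2 : (2 * ((2:ℝ) + 1) + 2 * 1 * s) = 6 + 2 * s := by ring
    rw [h2]
    have hne := hpos.ne'
    rw [div_div, mul_comm, ← div_div, div_self two_ne_zero]
  have h1 : Th 2 1 (R ^ 2) = Real.log (6 + 2 * R ^ 2) / 2 - Real.log (6 + 2 * 0) / 2 := by
    unfold Th
    exact intervalIntegral.integral_eq_sub_of_hasDerivAt hd
      (Th_integrable zero_le_one le_rfl hQ)
  rw [h1]
  have h2 : Real.log (R ^ 2) ≤ Real.log (6 + 2 * R ^ 2) := by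
    apply Real.log_le_log (by positivity)
    linarith
  have h3 : Real.log (R ^ 2) = 2 * (K + Real.log 6) := by
    rw [Real.log_pow, hR, Real.log_exp]; push_cast; ring
  have h4 : 0 ≤ Real.log 6 := Real.log_nonneg (by norm_num)
  have h5 : (6 + 2 * 0 : ℝ) = 6 := by norm_num
  rw [h5]
  linarith

/-- With the drift `-x`, the extremal function is singular on some ball of `ℝ³`. -/
theorem partB (hM : 1 ≤ M) :
    ∃ R : ℝ, 0 < R ∧ ¬ IsClassical (Metric.ball (0 : Sp (2 + 1)) R) (uStar 2 1 R M) := by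
  have hM0 : 0 < M := by linarith
  -- the threshold
  have hblow := (typeS_fM hM0).blowup.eventually_ge_atTop (48 * M)
  obtain ⟨l, hl1, hl⟩ := mem_nhdsLT_iff_exists_Ioo_subset.mp hblow
  have hl1' : l < 1 := hl1
  set t2 := max l 0 with ht2
  have ht20 : 0 ≤ t2 := le_max_right _ _
  have ht21 : t2 < 1 := max_lt hl1' one_pos
  have hbig : ∀ t, t2 < t → t < 1 → 48 * M ≤ fM M t := by
    intro t h1 h2
    exact hl ⟨lt_of_le_of_lt (le_max_left _ _) h1, h2⟩
  set K := 8 * (M * (t2 / (1 - t2))) + 1 with hK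
  have hd2 : 0 < 1 - t2 := by linarith
  have hKpos : 0 < K := by positivity
  obtain ⟨R, hR, hRK⟩ := exists_Th_ge K hKpos.le
  refine ⟨R, hR, ?_⟩
  rintro ⟨C, hC1, hC⟩
  have hk : (0:ℝ) ≤ 1 := zero_le_one
  set C0 := max C 0 with hC0
  have hC00 : 0 ≤ C0 := le_max_right _ _
  have hC01 : C0 < 1 := max_lt hC1 one_pos
  have hLpos : 0 < lamS 2 1 R M := lamS_pos hk hR hM0.le
  have hLle := lamS_mul_Th_le (m := 2) hk hR hM0.le
  set Vm := lamS 2 1 R M * (M * (C0 / (1 - C0))) with hVm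
  have hVm0 : 0 ≤ Vm := by
    have : 0 < 1 - C0 := by linarith
    positivity
  have hsmall : lamS 2 1 R M * (M * (t2 / (1 - t2))) ≤ 1 / 8 := by
    have h1 : lamS 2 1 R M * K ≤ 1 :=
      (mul_le_mul_of_nonneg_left hRK hLpos.le).trans hLle
    have h2 : lamS 2 1 R M * K = 8 * (lamS 2 1 R M * (M * (t2 / (1 - t2)))) + lamS 2 1 R M := by
      rw [hK]; ring
    linarith
  set ρ := 1 / (8 * (Vm + 1)) with hρ
  have hρpos : 0 < ρ := by positivity
  have hρ8 : ρ ≤ 1 / 8 := by
    rw [hρ]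
    apply one_div_le_one_div_of_le (by norm_num)
    linarith
  have hb4 : (0:ℝ) < 1 / 4 := by norm_num
  refine not_classical (m := 2) (k := 1) (R := R) hk hR hM0 hC00 hC01
    (fun lam h0 h1 x hx => branch_bound hk hR hM0.le hC h0 h1 hx)
    (ψ := bar 2 ρ (1 / 4)) (contDiff_bar hρpos) (fun x => bar_pos hρpos x)
    (m0 := 1 / 8) (by norm_num) ?_
  intro lam h0 h1 x hx
  have hx' := Metric.ball_subset_closedBall hx
  have hbd := branch_bound hk hR hM0.le hC h0 h1 hx'
  obtain ⟨ha0, hV0, hV1⟩ := branch_point hk hR hM0 hC01 h0 h1 hx hbd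
  have hVest := V_est hk hR hM0 h0 h1 hx'
  have hLop := Lop_bar_ge (m := 2) (k := 1) hρpos hb4 x
  refine le_trans ?_ hLop
  rw [← add_mul]
  refine mul_le_mul_of_nonneg_right ?_ (bar_pos hρpos x).le
  have hpt : uMin 2 1 R M lam x ≤ t2 →
      lam * (M * (uMin 2 1 R M lam x / (1 - uMin 2 1 R M lam x))) ≤ 1 / 8 := fun h =>
    ((branch_point hk hR hM0 ht21 h0 h1 hx h).2.2).trans hsmall
  have ha1 : uMin 2 1 R M lam x < 1 := lt_of_le_of_lt hbd hC01
  set a := uMin 2 1 R M lam x with ha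
  set V := lam * (M * (a / (1 - a))) with hV
  have hq0 : 0 ≤ ‖x‖ ^ 2 := by positivity
  have hTh := Th_ge (m := 2) hk hq0
  set q := ‖x‖ ^ 2 with hq
  push_cast at hTh ⊢
  have hTh2 : q / (6 + 2 * q) ≤ Th 2 1 q := by
    refine le_trans (le_of_eq ?_) hTh
    congr 1; ring
  have hgoal : V + 1 / 8 ≤ (1 + 2 * q) / (4 * (q + ρ)) := by
    rw [le_div_iff₀ (by positivity)]
    rcases le_or_gt a t2 with h | h
    · have h2 := hpt h
      have h3 : (V + 1 / 8) * (4 * (q + ρ)) ≤ (1 / 4) * (4 * (q + ρ)) :=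
        mul_le_mul_of_nonneg_right (by linarith) (by positivity)
      linarith
    · rcases le_total ρ q with h2 | h2
      · have hf := hbig a h ha1
        have hT0 : 0 ≤ Th 2 1 q := le_trans (by positivity) hTh2
        have h3 : V * (48 * M * (q / (6 + 2 * q))) ≤ V * (fM M a * Th 2 1 q) := by
          apply mul_le_mul_of_nonneg_left _ hV0
          exact mul_le_mul hf hTh2 (by positivity) (by linarith)
        have h4 : M * a ≤ M := by nlinarith
        have h5 : V * (48 * M * (q / (6 + 2 * q))) ≤ M := by linarith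
        have h6 : M * (48 * V * q / (6 + 2 * q)) ≤ M * 1 := by
          refine le_trans (le_of_eq ?_) (h5.trans (le_of_eq (mul_one M).symm))
          ring
        have h7 := le_of_mul_le_mul_left h6 hM0
        rw [div_le_one (by positivity)] at h7
        have h8 : (V + 1 / 8) * (4 * (q + ρ)) ≤ (V + 1 / 8) * (4 * (2 * q)) :=
          mul_le_mul_of_nonneg_left (by linarith) (by linarith)
        nlinarith
      · have h3 : (V + 1 / 8) * (4 * (q + ρ)) ≤ (Vm + 1) * (4 * (2 * ρ)) :=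
          mul_le_mul (by linarith) (by linarith) (by positivity) (by linarith)
        have h4 : (Vm + 1) * (4 * (2 * ρ)) = 1 := by
          rw [hρ]; field_simp; norm_num
        linarith
  refine hgoal.trans (le_of_eq ?_)
  field_simp
  ring

end Pool.Agent.Lib.MP_2166fc_an
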